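import Pool.Agent.WSF.Tools

/-!
# Fibres of a homomorphism and the four sets inequality
-/

open Finset Pointwise

namespace Pool.Agent.WSF

universe u v

section
variable {G : Type u} [AddCommGroup G] [Fintype G] [DecidableEq G]
variable {R : Type v} [AddCommGroup R] [DecidableEq R]

/-- the fibre of `χ` over `i` -/
def fib (χ : G →+ R) (i : R) : Finset G := univ.filter fun x => χ x = i

lemma mem_fib {χ : G →+ R} {i : R} {x : G} : x ∈ fib χ i ↔ χ x = i := by simp [fib]

lemma sat_subset_fib {χ : G →+ R} {K : AddSubgroup G} (hK : K ≤ χ.ker) {S : Finset G} {i : R}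
    (hS : S ⊆ fib χ i) : sat K S ⊆ fib χ i := by
  intro x hx
  obtain ⟨s, hs, h⟩ := mem_sat.1 hx
  have h1 := mem_fib.1 (hS hs)
  have h2 : χ (x - s) = 0 := hK h
  rw [map_sub, h1, sub_eq_zero] at h2
  exact mem_fib.2 h2

lemma stab_le_ker {χ : G →+ R} {S : Finset G} {i : R} (hS : S ⊆ fib χ i) (hne : S.Nonempty) :
    stab S ≤ χ.ker := by
  intro g hg
  obtain ⟨x, hx⟩ := hne
  have h1 := mem_fib.1 (hS hx)
  have h2 := mem_fib.1 (hS ((mem_stab.1 hg x).2 hx))
  rw [map_add, h1, add_eq_left] at h2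
  exact h2

lemma card_sat_neg (K : AddSubgroup G) (S : Finset G) : (sat K (-S)).card = (sat K S).card := by
  rw [sat_neg, card_neg]

/-- the four sets inequality -/
lemma four {χ : G →+ R} {A B C D : Finset G} {i : R} (hA : A.Nonempty) (hB : B.Nonempty)
    (hC : C.Nonempty) (h1 : A + B + C ⊆ fib χ i) (h2 : D ⊆ fib χ i)
    (hd : ∀ a ∈ A, ∀ b ∈ B, ∀ c ∈ C, a + b + c ∉ D) :
    stab (A + B + C) ≤ χ.ker ∧
    (sat (stab (A + B + C)) A).card + (sat (stab (A + B + C)) B).card +
      (sat (stab (A + B + C)) C).card + (sat (stab (A + B + C)) D).card ≤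
      (fib χ i).card + 2 * Nat.card (stab (A + B + C)) := by
  have hk := kneser3 hA hB hC
  have hker := stab_le_ker h1 ((hA.add hB).add hC)
  refine ⟨hker, ?_⟩
  have hdisj : Disjoint (A + B + C) D := by
    rw [Finset.disjoint_left]
    intro x hx
    obtain ⟨y, hy, c, hc, rfl⟩ := Finset.mem_add.1 hx
    obtain ⟨a, ha, b, hb, rfl⟩ := Finset.mem_add.1 hy
    exact hd a ha b hb c hc
  have h3 := disjoint_sat hdisj (sat_stab (A + B + C))
  have h4 : (A + B + C).card + (sat (stab (A + B + C)) D).card ≤ (fib χ i).card := by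
    rw [← card_union_of_disjoint h3]
    exact card_le_card (union_subset h1 (sat_subset_fib hker h2))
  omega

lemma two_sets {χ : G →+ R} {A B D : Finset G} {i : R} (hA : A.Nonempty) (hB : B.Nonempty)
    (h1 : A + B ⊆ fib χ i) (h2 : D ⊆ fib χ i) (hd : Disjoint (A + B) D) :
    stab (A + B) ≤ χ.ker ∧
    (sat (stab (A + B)) A).card + (sat (stab (A + B)) B).card +
      (sat (stab (A + B)) D).card ≤ (fib χ i).card + Nat.card (stab (A + B)) := by
  have hk := kneser hA hB
  have hker := stab_le_ker h1 (hA.add hB)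
  refine ⟨hker, ?_⟩
  have h3 := disjoint_sat hd (sat_stab (A + B))
  have h4 : (A + B).card + (sat (stab (A + B)) D).card ≤ (fib χ i).card := by
    rw [← card_union_of_disjoint h3]
    exact card_le_card (union_subset h1 (sat_subset_fib hker h2))
  omega

lemma add_subset_fib {χ : G →+ R} {A B : Finset G} {i j : R} (hA : A ⊆ fib χ i)
    (hB : B ⊆ fib χ j) : A + B ⊆ fib χ (i + j) := by
  intro x hx
  obtain ⟨a, ha, b, hb, rfl⟩ := Finset.mem_add.1 hx
  rw [mem_fib, map_add, mem_fib.1 (hA ha), mem_fib.1 (hB hb)]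

lemma neg_subset_fib {χ : G →+ R} {A : Finset G} {i : R} (hA : A ⊆ fib χ i) :
    -A ⊆ fib χ (-i) := by
  intro x hx
  rw [Finset.mem_neg'] at hx
  rw [mem_fib]
  have := mem_fib.1 (hA hx)
  rw [map_neg] at this
  rw [← this, neg_neg]

lemma fib_card_eq {χ : G →+ R} (hχ : Function.Surjective χ) (i j : R) :
    (fib χ i).card = (fib χ j).card := by
  obtain ⟨t, ht⟩ := hχ (j - i)
  apply Finset.card_bij (fun x _ => x + t)
  · intro a ha
    rw [mem_fib] at ha ⊢
    rw [map_add, ha, ht]; abel
  · intro a _ b _ h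
    exact add_right_cancel h
  · intro b hb
    rw [mem_fib] at hb
    refine ⟨b - t, ?_, by abel⟩
    rw [mem_fib, map_sub, hb, ht]; abel

lemma card_fib_mul [Fintype R] {χ : G →+ R} (hχ : Function.Surjective χ) (i : R) :
    (fib χ i).card * Fintype.card R = Fintype.card G := by
  have h1 : (univ : Finset G).card = ∑ j ∈ (univ : Finset R), (fib χ j).card := by
    apply Finset.card_eq_sum_card_fiberwise
    intro x _
    exact mem_univ _
  rw [Finset.sum_congr rfl (fun j _ => fib_card_eq hχ j i), Finset.sum_const, card_univ,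
    card_univ, smul_eq_mul] at h1
  rw [h1, mul_comm]

lemma card_ker_eq {χ : G →+ R} : Nat.card χ.ker = (fib χ 0).card := by
  classical
  rw [Nat.card_eq_fintype_card, ← Fintype.card_coe]
  apply Fintype.card_congr
  exact
    { toFun := fun x => ⟨x.1, mem_fib.2 x.2⟩
      invFun := fun k => ⟨k.1, mem_fib.1 k.2⟩
      left_inv := by intro x; rfl
      right_inv := by intro x; rfl }

/-- saturations of sets in different fibres are disjoint -/
lemma sat_disjoint_of_fib {χ : G →+ R} {K : AddSubgroup G} (hK : K ≤ χ.ker) {S T : Finset G}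
    {i j : R} (hS : S ⊆ fib χ i) (hT : T ⊆ fib χ j) (hij : i ≠ j) :
    Disjoint (sat K S) (sat K T) := by
  rw [Finset.disjoint_left]
  intro x hx hy
  exact hij ((mem_fib.1 (sat_subset_fib hK hS hx)).symm.trans
    (mem_fib.1 (sat_subset_fib hK hT hy)))

lemma hole (K : AddSubgroup G) {S : Finset G} {c : G} (hc : c ∈ S) :
    S.card + Nat.card K ≤ (sat K S).card + (S ∩ cos K c).card := by
  have h2 := card_union_add_card_inter S (cos K c)
  rw [cos_card] at h2
  have h3 : (S ∪ cos K c).card ≤ (sat K S).card :=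
    card_le_card (union_subset (subset_sat _ _) (cos_subset_sat hc))
  omega

end
end Pool.Agent.WSF
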