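import Pool.Agent.WSF.Fib

/-!
# The final parity contradiction
-/

open Finset Pointwise

namespace Pool.Agent.WSF

universe u v

section
variable {Q : Type u} [AddCommGroup Q] [Fintype Q] [DecidableEq Q]
variable {R : Type v} [AddCommGroup R] [DecidableEq R]

lemma not_per {K : AddSubgroup Q} {S : Finset Q} (h : ¬ Per K S) :
    ∃ x ∈ S, ∃ z, z ∉ S ∧ z - x ∈ K := by
  by_contra hall
  push Not at hall
  apply h
  apply Subset.antisymm _ (subset_sat _ _)
  intro z hz
  obtain ⟨x, hx, hzx⟩ := mem_sat.1 hz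
  by_contra hzS
  exact hall x hx z hzS hzx

lemma mixed_aux {χ : Q →+ R} {N : ℕ} (hN : (fib χ 0).card = N) {B B' Γ0 Γ1 : Finset Q}
    (hB : B ⊆ fib χ 0) (hB' : B' ⊆ fib χ 0) (hG0 : Γ0 = B + B')
    (hcover : Γ0 ∪ Γ1 = fib χ 0) (hdisj : Disjoint Γ0 Γ1)
    (h11 : ∀ x ∈ B, ∀ y ∈ B, x + y ∈ Γ1)
    (hpm : ∀ z ∈ Γ1, ∃ u ∈ B, ∃ v ∈ B', z = u - v ∨ z = v - u)
    (hpm' : ∀ u ∈ B, ∀ v ∈ B', u - v ∈ Γ1 ∧ v - u ∈ Γ1)
    (hlt : B'.card < B.card) (hsum : 2 * (B.card + B'.card) = N + 1)
    (hper : ∀ K, Per K Γ0 → K = ⊥) (hB'ne : B'.Nonempty) (hN4 : N % 4 = 1)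
    (hodd : Odd Γ0.card) : False := by
  have hBne : B.Nonempty := card_pos.1 (by omega)
  have hnd : ∀ x ∈ Γ0, x ∉ Γ1 := fun x hx => Finset.disjoint_left.1 hdisj hx
  have claim : ∀ K : AddSubgroup Q, K ≤ χ.ker →
      3 * (sat K B).card + (sat K B').card ≤ N + 2 * Nat.card K → K = ⊥ := by
    intro K hK hle
    apply hper K
    by_contra hnot
    obtain ⟨x, hx, z, hz, hzx⟩ := not_per hnot
    have hx0 : x ∈ fib χ 0 := by rw [← hcover]; exact mem_union_left _ hx
    have hκ : cos K x ⊆ fib χ 0 := by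
      rw [← sat_singleton]
      exact sat_subset_fib hK (by simpa using hx0)
    have hz0 : z ∈ fib χ 0 := hκ (mem_cos.2 hzx)
    have hz1 : z ∈ Γ1 := by
      rw [← hcover, mem_union] at hz0
      exact hz0.resolve_left hz
    have hcount : (cos K x ∩ Γ0).card + (cos K x ∩ Γ1).card ≤ Nat.card K := by
      rw [← cos_card K x, ← card_union_of_disjoint]
      · apply card_le_card
        exact union_subset inter_subset_left inter_subset_left
      · exact disjoint_of_subset_left inter_subset_right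
          (disjoint_of_subset_right inter_subset_right hdisj)
    have hx' := hx
    rw [hG0] at hx'
    obtain ⟨u, hu, v, hv, huv⟩ := Finset.mem_add.1 hx'
    have a1 : (B ∩ cos K u).card ≤ (cos K x ∩ Γ0).card := by
      apply card_le_card_of_injOn (fun y => y + v)
      · intro y hy
        have hy' := mem_inter.1 hy
        have h2 := mem_cos.1 hy'.2
        refine mem_inter.2 ⟨mem_cos.2 ?_, ?_⟩
        · have : y + v - x = y - u := by rw [← huv]; abel
          rw [this]; exact h2
        · rw [hG0]; exact add_mem_add hy'.1 hv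
      · intro y _ y' _ h
        exact add_right_cancel h
    obtain ⟨u', hu', v', hv', hz2⟩ := hpm z hz1
    have a23 : (B ∩ cos K u').card ≤ (cos K x ∩ Γ1).card ∧
        (B' ∩ cos K v').card ≤ (cos K x ∩ Γ1).card := by
      rcases hz2 with hz2 | hz2
      · constructor
        · apply card_le_card_of_injOn (fun y => y - v')
          · intro y hy
            have hy' := mem_inter.1 hy
            have h2 := mem_cos.1 hy'.2
            refine mem_inter.2 ⟨mem_cos.2 ?_, (hpm' y hy'.1 v' hv').1⟩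
            have : y - v' - x = (z - x) + (y - u') := by rw [hz2]; abel
            rw [this]; exact K.add_mem hzx h2
          · intro y _ y' _ h
            exact sub_left_inj.1 h
        · apply card_le_card_of_injOn (fun y => u' - y)
          · intro y hy
            have hy' := mem_inter.1 hy
            have h2 := mem_cos.1 hy'.2
            refine mem_inter.2 ⟨mem_cos.2 ?_, (hpm' u' hu' y hy'.1).1⟩
            have : u' - y - x = (z - x) - (y - v') := by rw [hz2]; abel
            rw [this]; exact K.sub_mem hzx h2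
          · intro y _ y' _ h
            exact sub_right_inj.1 h
      · constructor
        · apply card_le_card_of_injOn (fun y => v' - y)
          · intro y hy
            have hy' := mem_inter.1 hy
            have h2 := mem_cos.1 hy'.2
            refine mem_inter.2 ⟨mem_cos.2 ?_, (hpm' y hy'.1 v' hv').2⟩
            have : v' - y - x = (z - x) - (y - u') := by rw [hz2]; abel
            rw [this]; exact K.sub_mem hzx h2
          · intro y _ y' _ h
            exact sub_right_inj.1 h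
        · apply card_le_card_of_injOn (fun y => y - u')
          · intro y hy
            have hy' := mem_inter.1 hy
            have h2 := mem_cos.1 hy'.2
            refine mem_inter.2 ⟨mem_cos.2 ?_, (hpm' u' hu' y hy'.1).2⟩
            have : y - u' - x = (z - x) + (y - v') := by rw [hz2]; abel
            rw [this]; exact K.add_mem hzx h2
          · intro y _ y' _ h
            exact sub_left_inj.1 h
    have h1 := hole K hu
    have h2 := hole K hu'
    have h3 := hole K hv'
    obtain ⟨a2, a3⟩ := a23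
    omega
  have e0 : (0 : R) + 0 + -0 = 0 := by simp
  have hBB : B + B ⊆ fib χ (0 + 0) := add_subset_fib hB hB
  have s1 : B + B + (-B') ⊆ fib χ 0 := by
    have := add_subset_fib hBB (neg_subset_fib hB')
    rwa [e0] at this
  have s2 : B + B' + (-B) ⊆ fib χ 0 := by
    have := add_subset_fib (add_subset_fib hB hB') (neg_subset_fib hB)
    rwa [e0] at this
  have hBneg : (-B).Nonempty := hBne.neg
  have hB'neg : (-B').Nonempty := hB'ne.neg
  have f1 := four hBne hBne hB'neg s1 hB (by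
    intro a ha b hb c hc h
    rw [Finset.mem_neg'] at hc
    have h2 := h11 a ha b hb
    have h3 : a + b ∈ Γ0 := by
      rw [hG0]
      refine Finset.mem_add.2 ⟨a + b + c, h, -c, hc, by abel⟩
    exact hnd _ h3 h2)
  have f2 := four hBne hB'ne hBneg s2 hB (by
    intro a ha b hb c hc h
    rw [Finset.mem_neg'] at hc
    have h2 := h11 _ h _ hc
    have h3 : a + b + c + -c ∈ Γ0 := by
      rw [hG0]
      refine Finset.mem_add.2 ⟨a, ha, b, hb, by abel⟩
    exact hnd _ h3 h2)
  rw [card_sat_neg, hN] at f1 f2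
  have k1 := claim _ f1.1 (by have := f1.2; omega)
  have k2 := claim _ f2.1 (by have := f2.2; omega)
  have t1 : stab (B + B) = ⊥ := le_bot_iff.1 (by rw [← k1]; exact stab_le_add _ _)
  have t2 : stab (B + B') = ⊥ := le_bot_iff.1 (by rw [← k2]; exact stab_le_add _ _)
  have n1 := kneser_bot hBne hBne t1
  have n2 := kneser_bot hBne hB'ne t2
  rw [← hG0] at n2
  have n3 : Γ0.card + Γ1.card = N := by
    rw [← card_union_of_disjoint hdisj, hcover, hN]
  have n4 : (B + B).card ≤ Γ1.card := by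
    apply card_le_card
    intro x hx
    obtain ⟨a, ha, b, hb, rfl⟩ := Finset.mem_add.1 hx
    exact h11 a ha b hb
  obtain ⟨t, ht⟩ := hodd
  omega

/-- the final contradiction of the case `N` odd -/
lemma final {χ : Q →+ R} {N : ℕ} (hN : (fib χ 0).card = N) (hN4 : N % 4 = 1)
    {τ : Q} (hτ2 : τ + τ = 0) (hχτ : χ τ ≠ 0) {P : Finset Q}
    (hP : P ⊆ fib χ 0 ∪ fib χ (χ τ))
    (hodd2 : ∀ x : Q, χ x = 0 → x + x = 0 → x = 0)
    (hcover : ∀ x ∈ fib χ 0 ∪ fib χ (χ τ), x ∈ P + P ∨ ∃ a ∈ P, ∃ b ∈ P, x = a - b)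
    (hdisj : ∀ x ∈ P + P, ∀ a ∈ P, ∀ b ∈ P, x ≠ a - b) (hstab : stab (P + P) = ⊥)
    (hcard : (P + P).card = N) (h2p : 2 * P.card = N + 1) (hτP : τ ∈ P + P) : False := by
  have hχτ2 : χ τ + χ τ = 0 := by rw [← map_add, hτ2, map_zero]
  have hnegτ : -τ = τ := neg_eq_of_add_eq_zero_left hτ2
  have hχneg : -χ τ = χ τ := neg_eq_of_add_eq_zero_left hχτ2
  -- the two parts
  let B0 : Finset Q := univ.filter fun y => χ y = 0 ∧ y ∈ P
  let B2 : Finset Q := univ.filter fun y => χ y = 0 ∧ y + τ ∈ P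
  let Γ0 : Finset Q := univ.filter fun y => χ y = 0 ∧ y + τ ∈ P + P
  let Γ1 : Finset Q := univ.filter fun y => χ y = 0 ∧ y ∈ P + P
  have mB0 : ∀ y, y ∈ B0 ↔ χ y = 0 ∧ y ∈ P := by intro y; simp [B0]
  have mB2 : ∀ y, y ∈ B2 ↔ χ y = 0 ∧ y + τ ∈ P := by intro y; simp [B2]
  have mΓ0 : ∀ y, y ∈ Γ0 ↔ χ y = 0 ∧ y + τ ∈ P + P := by intro y; simp [Γ0]
  have mΓ1 : ∀ y, y ∈ Γ1 ↔ χ y = 0 ∧ y ∈ P + P := by intro y; simp [Γ1]
  have cases : ∀ x ∈ P, (x ∈ B0) ∨ (x + τ ∈ B2 ∧ χ x = χ τ) := by
    intro x hx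
    rcases mem_union.1 (hP hx) with h | h
    · left; exact (mB0 x).2 ⟨mem_fib.1 h, hx⟩
    · right
      refine ⟨(mB2 _).2 ⟨?_, ?_⟩, mem_fib.1 h⟩
      · rw [map_add, mem_fib.1 h, hχτ2]
      · rw [add_assoc, hτ2, add_zero]; exact hx
  have two : ∀ y : Q, y + τ + τ = y := by intro y; rw [add_assoc, hτ2, add_zero]
  -- P as disjoint union
  have hPcard : P.card = B0.card + B2.card := by
    have h1 : P = B0 ∪ B2.image (fun y => y + τ) := by
      ext x
      rw [mem_union, mem_image]
      constructor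
      · intro hx
        rcases cases x hx with h | h
        · left; exact h
        · right; exact ⟨x + τ, h.1, two x⟩
      · rintro (h | ⟨y, hy, rfl⟩)
        · exact ((mB0 x).1 h).2
        · exact ((mB2 y).1 hy).2
    have h2 : Disjoint B0 (B2.image (fun y => y + τ)) := by
      rw [Finset.disjoint_left]
      intro x hx hx2
      obtain ⟨y, hy, rfl⟩ := mem_image.1 hx2
      have e1 := ((mB0 _).1 hx).1
      have e2 := ((mB2 _).1 hy).1
      rw [map_add, e2, zero_add] at e1
      exact hχτ e1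
    rw [h1, card_union_of_disjoint h2, card_image_of_injective _ (add_left_injective τ)]
  -- B0 and B2 are disjoint
  have hBd : Disjoint B0 B2 := by
    rw [Finset.disjoint_left]
    intro y h0 h2
    apply hdisj τ hτP (y + τ) ((mB2 y).1 h2).2 y ((mB0 y).1 h0).2
    abel
  have hB0 : B0 ⊆ fib χ 0 := fun y hy => mem_fib.2 ((mB0 y).1 hy).1
  have hB2 : B2 ⊆ fib χ 0 := fun y hy => mem_fib.2 ((mB2 y).1 hy).1
  have hΓ0' : Γ0 = B0 + B2 := by
    ext x
    constructor
    · intro hx0
      obtain ⟨hx, hx2⟩ := (mΓ0 x).1 hx0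
      obtain ⟨a, ha, b, hb, hab⟩ := Finset.mem_add.1 hx2
      have hχ : χ a + χ b = χ τ := by rw [← map_add, hab, map_add, hx, zero_add]
      rcases cases a ha with h1 | h1 <;> rcases cases b hb with h2 | h2
      · rw [((mB0 a).1 h1).1, ((mB0 b).1 h2).1, add_zero] at hχ
        exact absurd hχ.symm hχτ
      · refine Finset.mem_add.2 ⟨a, h1, b + τ, h2.1, ?_⟩
        rw [← add_assoc, hab, two]
      · refine Finset.mem_add.2 ⟨b, h2, a + τ, h1.1, ?_⟩
        rw [← add_assoc, add_comm b a, hab, two]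
      · rw [h1.2, h2.2, hχτ2] at hχ
        exact absurd hχ.symm hχτ
    · intro hx
      obtain ⟨a, ha, b, hb, rfl⟩ := Finset.mem_add.1 hx
      refine (mΓ0 _).2 ⟨?_, ?_⟩
      · rw [map_add, ((mB0 a).1 ha).1, ((mB2 b).1 hb).1, add_zero]
      · rw [add_assoc]
        exact add_mem_add ((mB0 a).1 ha).2 ((mB2 b).1 hb).2
  have h00 : ∀ x ∈ B0, ∀ y ∈ B0, x + y ∈ Γ1 := by
    intro x hx y hy
    rw [mΓ1, map_add, ((mB0 x).1 hx).1, ((mB0 y).1 hy).1, add_zero]
    exact ⟨rfl, add_mem_add ((mB0 x).1 hx).2 ((mB0 y).1 hy).2⟩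
  have h22 : ∀ x ∈ B2, ∀ y ∈ B2, x + y ∈ Γ1 := by
    intro x hx y hy
    rw [mΓ1, map_add, ((mB2 x).1 hx).1, ((mB2 y).1 hy).1, add_zero]
    refine ⟨rfl, ?_⟩
    have : x + y = (x + τ) + (y + τ) := by
      have e : (x + τ) + (y + τ) = x + y + (τ + τ) := by abel
      rw [e, hτ2, add_zero]
    rw [this]
    exact add_mem_add ((mB2 x).1 hx).2 ((mB2 y).1 hy).2
  -- covering
  have hcov : ∀ x ∈ fib χ 0, x ∈ Γ0 ∪ Γ1 := by
    intro x hx
    have hker : Nat.card χ.ker = N := by rw [card_ker_eq, hN]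
    have hsub : B0 ∪ B2 ⊆ cos χ.ker 0 := by
      intro y hy
      rw [mem_cos, sub_zero]
      rcases mem_union.1 hy with h | h
      · exact ((mB0 y).1 h).1
      · exact ((mB2 y).1 h).1
    obtain ⟨a, ha, b, hb, hab⟩ := exists_add_eq (H := χ.ker) (z := x) hsub hsub
      (by rw [add_zero, sub_zero]; exact mem_fib.1 hx) (by
        rw [hker, card_union_of_disjoint hBd, ← hPcard]; omega)
    rw [mem_union] at ha hb ⊢
    rcases ha with ha | ha <;> rcases hb with hb | hb
    · right; rw [← hab]; exact h00 a ha b hb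
    · left; rw [← hab, hΓ0']; exact add_mem_add ha hb
    · left; rw [← hab, hΓ0', add_comm a b]; exact add_mem_add hb ha
    · right; rw [← hab]; exact h22 a ha b hb
  have hcoverΓ : Γ0 ∪ Γ1 = fib χ 0 := by
    apply Subset.antisymm
    · intro x hx
      rcases mem_union.1 hx with h | h
      · exact mem_fib.2 ((mΓ0 x).1 h).1
      · exact mem_fib.2 ((mΓ1 x).1 h).1
    · exact hcov
  have hcardΓ : Γ0.card + Γ1.card = N := by
    rw [← hcard]
    have h1 : P + P = Γ1 ∪ Γ0.image (fun y => y + τ) := by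
      ext x
      rw [mem_union, mem_image]
      constructor
      · intro hx
        obtain ⟨a, ha, b, hb, hab⟩ := Finset.mem_add.1 hx
        by_cases h0 : χ x = 0
        · left; exact (mΓ1 x).2 ⟨h0, hx⟩
        · right
          have hxχ : χ x = χ τ := by
            rw [← hab, map_add]
            rw [← hab, map_add] at h0
            rcases cases a ha with h1 | h1 <;> rcases cases b hb with h2 | h2
            · rw [((mB0 a).1 h1).1, ((mB0 b).1 h2).1, add_zero] at h0
              exact absurd rfl h0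
            · rw [((mB0 a).1 h1).1, h2.2, zero_add]
            · rw [((mB0 b).1 h2).1, h1.2, add_zero]
            · rw [h1.2, h2.2, hχτ2] at h0
              exact absurd rfl h0
          refine ⟨x + τ, (mΓ0 _).2 ⟨?_, ?_⟩, two x⟩
          · rw [map_add, hxχ, hχτ2]
          · rw [two]; exact hx
      · rintro (h | ⟨y, hy, rfl⟩)
        · exact ((mΓ1 x).1 h).2
        · exact ((mΓ0 y).1 hy).2
    have h2 : Disjoint Γ1 (Γ0.image (fun y => y + τ)) := by
      rw [Finset.disjoint_left]
      intro x hx hx2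
      obtain ⟨y, hy, rfl⟩ := mem_image.1 hx2
      have e1 := ((mΓ1 _).1 hx).1
      have e2 := ((mΓ0 _).1 hy).1
      rw [map_add, e2, zero_add] at e1
      exact hχτ e1
    rw [h1, card_union_of_disjoint h2, card_image_of_injective _ (add_left_injective τ)]
    omega
  have hΓd : Disjoint Γ0 Γ1 := by
    have h1 := card_union_add_card_inter Γ0 Γ1
    rw [hcoverΓ, hN, hcardΓ] at h1
    rw [disjoint_iff_inter_eq_empty, ← card_eq_zero]
    omega
  -- symmetry
  have hsymPP : ∀ x ∈ fib χ 0 ∪ fib χ (χ τ), x ∈ P + P → -x ∈ P + P := by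
    intro x hx hxP
    have hx' : -x ∈ fib χ 0 ∪ fib χ (χ τ) := by
      rw [mem_union, mem_fib, mem_fib] at hx ⊢
      rw [map_neg]
      rcases hx with h | h
      · left; rw [h, neg_zero]
      · right; rw [h, hχneg]
    rcases hcover _ hx' with h | ⟨a, ha, b, hb, hab⟩
    · exact h
    · exfalso
      apply hdisj x hxP b hb a ha
      rw [← neg_neg x, hab]; abel
  have hΓ0sym : ∀ x ∈ Γ0, -x ∈ Γ0 := by
    intro x hx
    rw [mΓ0] at hx ⊢
    refine ⟨by rw [map_neg, hx.1, neg_zero], ?_⟩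
    have h1 := hsymPP (x + τ) (by
      rw [mem_union]; right; rw [mem_fib, map_add, hx.1, zero_add]) hx.2
    have e : -(x + τ) = -x + τ := by rw [neg_add, hnegτ]
    rwa [e] at h1
  have hzero : (0 : Q) ∈ Γ0 := by
    rw [mΓ0, map_zero, zero_add]
    exact ⟨rfl, hτP⟩
  have hΓ0odd : Odd Γ0.card := by
    apply odd_of_symm hzero neg_zero hΓ0sym
    intro x hx hneg
    apply hodd2 x ((mΓ0 x).1 hx).1
    nth_rw 1 [← hneg]
    exact neg_add_cancel x
  -- differences
  have hpm : ∀ z ∈ Γ1, ∃ u ∈ B0, ∃ v ∈ B2, z = u - v ∨ z = v - u := by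
    intro z hz
    have hz0 : z ∉ Γ0 := fun h => Finset.disjoint_left.1 hΓd h hz
    have hzχ := ((mΓ1 z).1 hz).1
    have h1 : z + τ ∉ P + P := fun h => hz0 ((mΓ0 z).2 ⟨hzχ, h⟩)
    rcases hcover (z + τ) (by
      rw [mem_union]; right; rw [mem_fib, map_add, hzχ, zero_add]) with h | ⟨a, ha, b, hb, hab⟩
    · exact absurd h h1
    · have hχ : χ a - χ b = χ τ := by rw [← map_sub, ← hab, map_add, hzχ, zero_add]
      rcases cases a ha with h1 | h1 <;> rcases cases b hb with h2 | h2
      · rw [((mB0 a).1 h1).1, ((mB0 b).1 h2).1, sub_zero] at hχ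
        exact absurd hχ.symm hχτ
      · refine ⟨a, h1, b + τ, h2.1, Or.inl ?_⟩
        have : z = (z + τ) - τ := by abel
        rw [this, hab]; abel
      · refine ⟨b, h2, a + τ, h1.1, Or.inr ?_⟩
        have : z = (z + τ) + τ := (two z).symm
        rw [this, hab]; abel
      · rw [h1.2, h2.2, sub_self] at hχ
        exact absurd hχ.symm hχτ
  have hpm' : ∀ u ∈ B0, ∀ v ∈ B2, u - v ∈ Γ1 ∧ v - u ∈ Γ1 := by
    intro u hu v hv
    have hu' := (mB0 u).1 hu
    have hv' := (mB2 v).1 hv
    have e1 : u - v ∈ fib χ 0 := by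
      rw [mem_fib, map_sub, hu'.1, hv'.1, sub_zero]
    have e2 : v - u ∈ fib χ 0 := by
      rw [mem_fib, map_sub, hu'.1, hv'.1, sub_zero]
    rw [← hcoverΓ, mem_union] at e1 e2
    constructor
    · refine e1.resolve_left fun h => ?_
      apply hdisj _ ((mΓ0 _).1 h).2 u hu'.2 (v + τ) hv'.2
      rw [← sub_sub, sub_eq_add_neg (u - v) τ, hnegτ]
    · refine e2.resolve_left fun h => ?_
      apply hdisj _ ((mΓ0 _).1 h).2 (v + τ) hv'.2 u hu'.2
      abel
  have hPP : P + P = Γ1 ∪ Γ0.image (fun y => y + τ) := by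
    ext x
    rw [mem_union, mem_image]
    constructor
    · intro hx
      obtain ⟨a, ha, b, hb, hab⟩ := Finset.mem_add.1 hx
      by_cases h0 : χ x = 0
      · left; exact (mΓ1 x).2 ⟨h0, hx⟩
      · right
        have hxχ : χ x = χ τ := by
          rw [← hab, map_add]
          rw [← hab, map_add] at h0
          rcases cases a ha with h1 | h1 <;> rcases cases b hb with h2 | h2
          · rw [((mB0 a).1 h1).1, ((mB0 b).1 h2).1, add_zero] at h0
            exact absurd rfl h0
          · rw [((mB0 a).1 h1).1, h2.2, zero_add]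
          · rw [((mB0 b).1 h2).1, h1.2, add_zero]
          · rw [h1.2, h2.2, hχτ2] at h0
            exact absurd rfl h0
        refine ⟨x + τ, (mΓ0 _).2 ⟨?_, ?_⟩, two x⟩
        · rw [map_add, hxχ, hχτ2]
        · rw [two]; exact hx
    · rintro (h | ⟨y, hy, rfl⟩)
      · exact ((mΓ1 x).1 h).2
      · exact ((mΓ0 y).1 hy).2
  have hper : ∀ K : AddSubgroup Q, Per K Γ0 → K = ⊥ := by
    intro K hK
    rw [← le_bot_iff, ← hstab, ← per_iff]
    have hKker : K ≤ χ.ker := by
      refine (per_iff.1 hK).trans (stab_le_ker (i := 0) ?_ ⟨0, hzero⟩)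
      intro y hy; exact mem_fib.2 ((mΓ0 y).1 hy).1
    have h1 : Per K Γ1 := by
      have : Γ1 = fib χ 0 \ Γ0 := by
        ext x
        rw [mem_sdiff, ← hcoverΓ, mem_union]
        constructor
        · intro hx
          exact ⟨Or.inr hx, fun h => Finset.disjoint_left.1 hΓd h hx⟩
        · rintro ⟨h | h, h2⟩
          · exact absurd h h2
          · exact h
      rw [this]
      apply hK.compl
      apply Subset.antisymm _ (subset_sat _ _)
      exact sat_subset_fib hKker (subset_refl _)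
    have h2 : Per K (Γ0.image (fun y => y + τ)) := by
      apply Subset.antisymm _ (subset_sat _ _)
      intro x hx
      obtain ⟨s, hs, hxs⟩ := mem_sat.1 hx
      obtain ⟨y, hy, rfl⟩ := mem_image.1 hs
      refine mem_image.2 ⟨x - τ, hK.mem_of_sub_mem hy ?_, by abel⟩
      have : x - τ - y = x - (y + τ) := by abel
      rwa [this]
    rw [hPP]
    exact h1.union h2
  -- both parts are nonempty
  obtain ⟨a, ha, b, hb, -⟩ := Finset.mem_add.1 (by rw [← hΓ0']; exact hzero : (0 : Q) ∈ B0 + B2)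
  have hsum : 2 * (B0.card + B2.card) = N + 1 := by rw [← hPcard]; exact h2p
  rcases lt_trichotomy B0.card B2.card with hlt | heq | hlt
  · refine mixed_aux hN hB2 hB0 (Γ0 := Γ0) (Γ1 := Γ1) ?_ hcoverΓ hΓd h22 ?_ ?_ hlt (by omega)
      hper ⟨a, ha⟩ hN4 hΓ0odd
    · rw [add_comm, hΓ0']
    · intro z hz
      obtain ⟨u, hu, v, hv, h⟩ := hpm z hz
      exact ⟨v, hv, u, hu, h.symm⟩
    · intro u hu v hv
      exact ⟨(hpm' v hv u hu).2, (hpm' v hv u hu).1⟩
  · omega
  · exact mixed_aux hN hB0 hB2 hΓ0' hcoverΓ hΓd h00 hpm hpm' hlt hsum hper ⟨b, hb⟩ hN4 hΓ0odd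

end
end Pool.Agent.WSF
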