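import Pool.Agent.WSF.Step3

/-!
# The cyclic groups
-/

open Finset Pointwise

namespace Pool.Agent.WSF

/-- the homomorphism to `ZMod 4` -/
def chi {n : ℕ} (h : 4 ∣ n) : ZMod n →+ ZMod 4 := (ZMod.castHom h (ZMod 4)).toAddMonoidHom

lemma chi_surj {n : ℕ} [NeZero n] (h : 4 ∣ n) : Function.Surjective (chi h) :=
  ZMod.castHom_surjective h

lemma wsf_mono {G : Type*} [AddCommGroup G] {A B : Finset G} (h : A ⊆ B) (hB : Wsf B) : Wsf A :=
  fun a ha b hb c hc h1 h2 h3 h4 => hB a (h ha) b (h hb) c (h hc) h1 h2 h3 (h h4)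

theorem upper_zmod {n m : ℕ} [NeZero n] (hn : n = 8 * m) (hm5 : 5 ≤ m)
    (hdiv : ∀ d, d ∣ m → d % 4 = 1) {A : Finset (ZMod n)} (hw : Wsf A) : A.card ≤ 2 * m + 1 := by
  by_contra hcon
  push Not at hcon
  obtain ⟨B, hBA, hBc⟩ := Finset.exists_subset_card_eq (s := A) (n := 2 * m + 2) (by omega)
  have h4 : 4 ∣ n := ⟨2 * m, by omega⟩
  have hm : ∀ i, (fib (chi h4) i).card = 2 * m := by
    intro i
    have := card_fib_mul (chi_surj h4) i
    rw [ZMod.card, ZMod.card] at this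
    omega
  exact upper hm hm5 hdiv hBc (wsf_mono hBA hw)

theorem lower_zmod {n m : ℕ} [NeZero n] (hn : n = 8 * m) :
    ∃ A : Finset (ZMod n), Wsf A ∧ A.card = 2 * m + 1 := by
  have h4 : 4 ∣ n := ⟨2 * m, by omega⟩
  have hm : ∀ i, (fib (chi h4) i).card = 2 * m := by
    intro i
    have := card_fib_mul (chi_surj h4) i
    rw [ZMod.card, ZMod.card] at this
    omega
  have h0 : (0 : ZMod n) ∉ fib (chi h4) 1 := by
    rw [mem_fib, map_zero]; decide
  refine ⟨insert 0 (fib (chi h4) 1), ?_, by rw [card_insert_of_notMem h0, hm]⟩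
  intro a ha b hb c hc hab hac hbc hd
  have key : ∀ x ∈ insert 0 (fib (chi h4) 1), x = 0 ∨ chi h4 x = 1 := by
    intro x hx
    rw [mem_insert, mem_fib] at hx
    exact hx
  have hd' : chi h4 (a + b + c) = 0 ∨ chi h4 (a + b + c) = 1 := by
    rcases key _ hd with h | h
    · left; rw [h, map_zero]
    · right; exact h
  rw [map_add, map_add] at hd'
  have e3 : ¬ ((1 : ZMod 4) + 1 + 1 = 0 ∨ (1 : ZMod 4) + 1 + 1 = 1) := by decide
  have e2 : ¬ ((0 : ZMod 4) + 1 + 1 = 0 ∨ (0 : ZMod 4) + 1 + 1 = 1) := by decide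
  have e2' : ¬ ((1 : ZMod 4) + 0 + 1 = 0 ∨ (1 : ZMod 4) + 0 + 1 = 1) := by decide
  have e2'' : ¬ ((1 : ZMod 4) + 1 + 0 = 0 ∨ (1 : ZMod 4) + 1 + 0 = 1) := by decide
  rcases key a ha with h1 | h1 <;> rcases key b hb with h2 | h2 <;> rcases key c hc with h3 | h3
  · exact hab (h1.trans h2.symm)
  · exact hab (h1.trans h2.symm)
  · exact hac (h1.trans h3.symm)
  · rw [h1, h2, h3, map_zero] at hd'; exact e2 hd'
  · exact hbc (h2.trans h3.symm)
  · rw [h1, h2, h3, map_zero] at hd'; exact e2' hd'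
  · rw [h1, h2, h3, map_zero] at hd'; exact e2'' hd'
  · rw [h1, h2, h3] at hd'; exact e3 hd'

instance : DecidablePred (fun A : Finset (ZMod 8) => Wsf A) := fun A => by
  unfold Wsf; infer_instance

theorem upper_eight : ∀ A ∈ (univ : Finset (ZMod 8)).powersetCard 5, ¬ Wsf A := by
  decide +kernel

theorem lower_eight : Wsf ({0, 1, 2, 4} : Finset (ZMod 8)) := by
  decide +kernel

end Pool.Agent.WSF
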