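import Pool.Agent.WSF.Sat

/-!
# Kneser's theorem for finite abelian groups (after DeVos)
-/

open Finset Pointwise

namespace Pool.Agent.WSF

universe u

section
variable {G : Type u} [AddCommGroup G] [Fintype G] [DecidableEq G]

lemma count_same {H L : AddSubgroup G} (hHL : H ≤ L) {A B : Finset G} {a b : G} (ha : a ∈ A)
    (hb : b ∈ B) (hab : a - b ∈ L) :
    (sat H (A ∪ B)).card + Nat.card L ≤
      (sat L (A ∪ B)).card + (sat H (A ∩ cos L a)).card + (sat H (B ∩ cos L b)).card := by
  have h1 : sat H (A ∪ B) ∪ cos L a ⊆ sat L (A ∪ B) := by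
    apply union_subset (sat_mono_left hHL _)
    exact cos_subset_sat (mem_union_left _ ha)
  have h2 : sat H (A ∪ B) ∩ cos L a ⊆ sat H (A ∩ cos L a) ∪ sat H (B ∩ cos L b) := by
    intro x hx
    rw [mem_inter] at hx
    obtain ⟨s, hs, hxs⟩ := mem_sat.1 hx.1
    have hxa := mem_cos.1 hx.2
    have hsa : s - a ∈ L := by
      have : s - a = (x - a) - (x - s) := by abel
      rw [this]; exact L.sub_mem hxa (hHL hxs)
    rw [mem_union] at hs ⊢
    rcases hs with hs | hs
    · left
      exact mem_sat.2 ⟨s, mem_inter.2 ⟨hs, mem_cos.2 hsa⟩, hxs⟩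
    · right
      refine mem_sat.2 ⟨s, mem_inter.2 ⟨hs, mem_cos.2 ?_⟩, hxs⟩
      have : s - b = (s - a) + (a - b) := by abel
      rw [this]; exact L.add_mem hsa hab
  have h3 := card_le_card h1
  have h4 := card_le_card h2
  have h5 := card_union_add_card_inter (sat H (A ∪ B)) (cos L a)
  have h6 := card_union_le (sat H (A ∩ cos L a)) (sat H (B ∩ cos L b))
  rw [cos_card] at h5
  omega

lemma count_diff {H L : AddSubgroup G} (hHL : H ≤ L) {A B : Finset G} {a b : G} (ha : a ∈ A)
    (hb : b ∈ B) (hab : a - b ∉ L) :
    (sat H (A ∪ B)).card + 2 * Nat.card L ≤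
      (sat L (A ∪ B)).card + (sat H (A ∩ cos L a)).card + (sat H (B ∩ cos L a)).card +
        (sat H (A ∩ cos L b)).card + (sat H (B ∩ cos L b)).card := by
  have hd := cos_disjoint hab
  have h1 : sat H (A ∪ B) ∪ (cos L a ∪ cos L b) ⊆ sat L (A ∪ B) := by
    apply union_subset (sat_mono_left hHL _)
    apply union_subset
    · exact cos_subset_sat (mem_union_left _ ha)
    · exact cos_subset_sat (mem_union_right _ hb)
  have key : ∀ c : G, sat H (A ∪ B) ∩ cos L c ⊆ sat H (A ∩ cos L c) ∪ sat H (B ∩ cos L c) := by
    intro c x hx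
    rw [mem_inter] at hx
    obtain ⟨s, hs, hxs⟩ := mem_sat.1 hx.1
    have hxa := mem_cos.1 hx.2
    have hsa : s - c ∈ L := by
      have : s - c = (x - c) - (x - s) := by abel
      rw [this]; exact L.sub_mem hxa (hHL hxs)
    rw [mem_union] at hs ⊢
    rcases hs with hs | hs
    · left
      exact mem_sat.2 ⟨s, mem_inter.2 ⟨hs, mem_cos.2 hsa⟩, hxs⟩
    · right
      exact mem_sat.2 ⟨s, mem_inter.2 ⟨hs, mem_cos.2 hsa⟩, hxs⟩
  have h3 := card_le_card h1
  have h4 := card_le_card (key a)
  have h4' := card_le_card (key b)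
  have h5 := card_union_add_card_inter (sat H (A ∪ B)) (cos L a ∪ cos L b)
  have h6 := card_union_le (sat H (A ∩ cos L a)) (sat H (B ∩ cos L a))
  have h7 := card_union_le (sat H (A ∩ cos L b)) (sat H (B ∩ cos L b))
  have h8 : (sat H (A ∪ B) ∩ (cos L a ∪ cos L b)).card ≤
      (sat H (A ∪ B) ∩ cos L a).card + (sat H (A ∪ B) ∩ cos L b).card := by
    rw [inter_union_distrib_left]
    exact card_union_le _ _
  rw [card_union_of_disjoint hd, cos_card, cos_card] at h5
  omega

lemma kneser_main (A B : Finset G)
    (ih : ∀ X Y : Finset G, X.Nonempty → Y.Nonempty →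
      (X + Y).card + X.card < (A + B).card + A.card →
      (sat (stab (X + Y)) X).card + (sat (stab (X + Y)) Y).card ≤
        (X + Y).card + Nat.card (stab (X + Y)))
    (hstab : stab (A + B) = ⊥) (hI : (A ∩ B).Nonempty) (hne : ¬ A ⊆ B) :
    A.card + B.card ≤ (A + B).card + 1 := by
  classical
  by_contra hcon
  push Not at hcon
  have hUI := card_union_add_card_inter A B
  have hC0 : (A ∩ B) + (A ∪ B) ⊆ A + B := by
    intro x hx
    obtain ⟨y, hy, z, hz, rfl⟩ := Finset.mem_add.1 hx
    rw [mem_inter] at hy
    rw [mem_union] at hz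
    rcases hz with hz | hz
    · rw [add_comm y z]; exact add_mem_add hz hy.2
    · exact add_mem_add hy.1 hz
  have hIA : (A ∩ B).card < A.card := by
    apply card_lt_card
    rw [Finset.ssubset_iff_subset_ne]
    refine ⟨inter_subset_left, fun h => hne ?_⟩
    exact inter_eq_left.1 h
  have hU : (A ∪ B).Nonempty := (hI.mono inter_subset_left).mono subset_union_left
  have h0 := ih (A ∩ B) (A ∪ B) hI hU (by
    have := card_le_card hC0
    omega)
  -- minimal convergent pair
  let P : ℕ → Prop := fun m => ∃ (C : Finset G) (L : AddSubgroup G), C ⊆ A + B ∧ C.Nonempty ∧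
    Per L C ∧ Nat.card L = m ∧ (A ∩ B).card + (sat L (A ∪ B)).card ≤ C.card + Nat.card L
  have hP : ∃ m, P m := by
    refine ⟨_, (A ∩ B) + (A ∪ B), stab ((A ∩ B) + (A ∪ B)), hC0, hI.add hU, sat_stab _, rfl, ?_⟩
    have := card_le_sat (stab ((A ∩ B) + (A ∪ B))) (A ∩ B)
    omega
  obtain ⟨C, L, hCAB, hCne, hLC, hLm, hconv⟩ := Nat.find_spec hP
  have hmin : ∀ (C' : Finset G) (L' : AddSubgroup G), C' ⊆ A + B → C'.Nonempty → Per L' C' →
      (A ∩ B).card + (sat L' (A ∪ B)).card ≤ C'.card + Nat.card L' → Nat.card L ≤ Nat.card L' := by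
    intro C' L' h1 h2 h3 h4
    rw [hLm]
    exact Nat.find_min' hP ⟨C', L', h1, h2, h3, rfl, h4⟩
  clear hLm
  have hCc := card_le_card hCAB
  have hLne : L ≠ ⊥ := by
    rintro rfl
    rw [sat_bot, card_bot'] at hconv
    omega
  obtain ⟨z, hz, hzL⟩ : ∃ z ∈ A + B, ¬ cos L z ⊆ A + B := by
    by_contra hall
    push Not at hall
    apply hLne
    rw [← le_bot_iff, ← hstab, ← per_iff]
    apply Subset.antisymm _ (subset_sat _ _)
    intro x hx
    obtain ⟨s, hs, h2⟩ := mem_sat.1 hx
    exact hall s hs (mem_cos.2 h2)
  obtain ⟨a, ha, b, hb, rfl⟩ := Finset.mem_add.1 hz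
  have hCz : Disjoint C (cos L (a + b)) := by
    rw [Finset.disjoint_left]
    intro x hx hx2
    apply hzL
    rw [← cos_eq_of_mem hx2]
    exact (hLC.cos_subset hx).trans hCAB
  -- the basic facts for a small pair
  have small : ∀ X Y : Finset G, X.Nonempty → Y.Nonempty → X ⊆ A → Y ⊆ B →
      X + Y ⊆ cos L (a + b) →
      stab (X + Y) ≤ L ∧
      (sat L (A ∪ B)).card + (sat (stab (X + Y)) X).card + (sat (stab (X + Y)) Y).card <
        (sat (stab (X + Y)) (A ∪ B)).card + Nat.card L ∧
      (sat (stab (X + Y)) X).card + (sat (stab (X + Y)) Y).card + Nat.card (stab (X + Y)) ≤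
        Nat.card L ∧
      (sat L (A ∪ B)).card + (sat (stab (X + Y)) X).card + (sat (stab (X + Y)) Y).card + 1 <
        (A ∪ B).card + Nat.card L + Nat.card (stab (X + Y)) := by
    intro X Y hX hY hXA hYB hXY
    have hXYne : (X + Y).Nonempty := hX.add hY
    have hXYAB : X + Y ⊆ A + B := add_subset_add hXA hYB
    have hHL : stab (X + Y) ≤ L := by
      intro g hg
      obtain ⟨x, hx⟩ := hXYne
      have h1 := (mem_stab.1 hg x).2 hx
      have h2 := mem_cos.1 (hXY hx)
      have h3 := mem_cos.1 (hXY h1)
      have : g = (x + g - (a + b)) - (x - (a + b)) := by abel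
      rw [this]; exact L.sub_mem h3 h2
    have hHne : stab (X + Y) ≠ L := by
      intro h
      apply hzL
      obtain ⟨x, hx⟩ := hXYne
      have h1 : Per L (X + Y) := by rw [← h]; exact sat_stab _
      have h2 := h1.cos_subset hx
      rw [cos_eq_of_mem (hXY hx)] at h2
      exact h2.trans hXYAB
    have hlt : Nat.card (stab (X + Y)) < Nat.card L := card_lt_of_lt (lt_of_le_of_ne hHL hHne)
    have hdisj : Disjoint C (X + Y) := disjoint_of_subset_right hXY hCz
    have hcard : C.card + (X + Y).card ≤ (A + B).card := by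
      rw [← card_union_of_disjoint hdisj]
      exact card_le_card (union_subset hCAB hXYAB)
    have hCpos := hCne.card_pos
    have hih := ih X Y hX hY (by
      have := card_le_card hXA
      omega)
    have hnc : (C.card + (X + Y).card) + Nat.card (stab (X + Y)) <
        (A ∩ B).card + (sat (stab (X + Y)) (A ∪ B)).card := by
      by_contra hc
      push Not at hc
      have := hmin (C ∪ (X + Y)) (stab (X + Y)) (union_subset hCAB hXYAB)
        (hCne.mono subset_union_left) ((hLC.mono hHL).union (sat_stab _)) (by
          rw [card_union_of_disjoint hdisj]; exact hc)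
      omega
    refine ⟨hHL, by omega, ?_, by omega⟩
    have hss : (sat (stab (X + Y)) (A ∪ B)).card ≤ (sat L (A ∪ B)).card :=
      card_le_card (sat_mono_left hHL _)
    have hlt2 : (sat (stab (X + Y)) X).card + (sat (stab (X + Y)) Y).card < Nat.card L := by omega
    obtain ⟨p, hp⟩ := dvd_card_sat (stab (X + Y)) X
    obtain ⟨q, hq⟩ := dvd_card_sat (stab (X + Y)) Y
    obtain ⟨r, hr⟩ := AddSubgroup.card_dvd_of_le hHL
    rw [hp, hq, hr] at hlt2 ⊢
    have hlt3 : Nat.card (stab (X + Y)) * (p + q) < Nat.card (stab (X + Y)) * r := by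
      rw [mul_add]; exact hlt2
    have hlt4 := lt_of_mul_lt_mul_left hlt3 (Nat.zero_le _)
    calc _ = Nat.card (stab (X + Y)) * (p + q + 1) := by ring
      _ ≤ _ := Nat.mul_le_mul_left _ hlt4
  have haA1 : a ∈ A ∩ cos L a := mem_inter.2 ⟨ha, self_mem_cos _ _⟩
  have hbB1 : b ∈ B ∩ cos L b := mem_inter.2 ⟨hb, self_mem_cos _ _⟩
  have sub1 : (A ∩ cos L a) + (B ∩ cos L b) ⊆ cos L (a + b) := by
    intro x hx
    obtain ⟨y, hy, w, hw, rfl⟩ := Finset.mem_add.1 hx
    have h1 := mem_cos.1 (mem_inter.1 hy).2
    have h2 := mem_cos.1 (mem_inter.1 hw).2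
    rw [mem_cos]
    have : y + w - (a + b) = (y - a) + (w - b) := by abel
    rw [this]; exact L.add_mem h1 h2
  have s1 := small _ _ ⟨a, haA1⟩ ⟨b, hbB1⟩ inter_subset_left inter_subset_left sub1
  obtain ⟨h1a, h1b, h1c, h1d⟩ := s1
  by_cases hab : a - b ∈ L
  · have := count_same h1a ha hb hab
    linarith only [this, h1b]
  · have hc1 := count_diff h1a ha hb hab
    have hb2 : (sat (stab ((A ∩ cos L a) + (B ∩ cos L b))) (B ∩ cos L a)).card ≤ Nat.card L := by
      rw [← cos_card L a]
      apply card_le_card
      exact (sat_mono inter_subset_right).trans (subset_of_eq ((per_cos L a).mono h1a))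
    have ha2 : (sat (stab ((A ∩ cos L a) + (B ∩ cos L b))) (A ∩ cos L b)).card ≤ Nat.card L := by
      rw [← cos_card L b]
      apply card_le_card
      exact (sat_mono inter_subset_right).trans (subset_of_eq ((per_cos L b).mono h1a))
    have hA2 : (A ∩ cos L b).Nonempty := by
      rw [nonempty_iff_ne_empty]
      intro h
      rw [h] at hc1
      have : (sat (stab ((A ∩ cos L a) + (B ∩ cos L b))) (∅ : Finset G)).card = 0 := by
        rw [card_eq_zero]
        ext x; simp [mem_sat]
      linarith only [this, hc1, h1b, hb2]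
    have hB2 : (B ∩ cos L a).Nonempty := by
      rw [nonempty_iff_ne_empty]
      intro h
      rw [h] at hc1
      have : (sat (stab ((A ∩ cos L a) + (B ∩ cos L b))) (∅ : Finset G)).card = 0 := by
        rw [card_eq_zero]
        ext x; simp [mem_sat]
      linarith only [this, hc1, h1b, ha2]
    have sub2 : (A ∩ cos L b) + (B ∩ cos L a) ⊆ cos L (a + b) := by
      intro x hx
      obtain ⟨y, hy, w, hw, rfl⟩ := Finset.mem_add.1 hx
      have h1 := mem_cos.1 (mem_inter.1 hy).2
      have h2 := mem_cos.1 (mem_inter.1 hw).2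
      rw [mem_cos]
      have : y + w - (a + b) = (y - b) + (w - a) := by abel
      rw [this]; exact L.add_mem h1 h2
    obtain ⟨h2a, h2b, h2c, h2d⟩ := small _ _ hA2 hB2 inter_subset_left inter_subset_left sub2
    have hc0 := count_diff (bot_le : (⊥ : AddSubgroup G) ≤ L) ha hb hab
    simp only [sat_bot] at hc0
    have e1 := card_le_sat (stab ((A ∩ cos L a) + (B ∩ cos L b))) (A ∩ cos L a)
    have e2 := card_le_sat (stab ((A ∩ cos L a) + (B ∩ cos L b))) (B ∩ cos L b)
    have e3 := card_le_sat (stab ((A ∩ cos L b) + (B ∩ cos L a))) (A ∩ cos L b)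
    have e4 := card_le_sat (stab ((A ∩ cos L b) + (B ∩ cos L a))) (B ∩ cos L a)
    linarith only [e1, e2, e3, e4, hc0, h1c, h1d, h2c, h2d]

lemma stab_add_singleton (S : Finset G) (c : G) : stab (S + {c}) = stab S := by
  ext g
  rw [mem_stab, mem_stab]
  have h : ∀ x, x ∈ S + {c} ↔ x - c ∈ S := by
    intro x
    rw [Finset.mem_add]
    constructor
    · rintro ⟨y, hy, z, hz, rfl⟩
      rw [mem_singleton] at hz
      subst hz
      simpa using hy
    · intro hx
      exact ⟨x - c, hx, c, mem_singleton_self c, by abel⟩
  constructor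
  · intro h1 x
    have := h1 (x + c)
    rw [h, h] at this
    have e1 : x + c + g - c = x + g := by abel
    have e2 : x + c - c = x := by abel
    rwa [e1, e2] at this
  · intro h1 x
    rw [h, h]
    have := h1 (x - c)
    have e1 : x + g - c = x - c + g := by abel
    rwa [e1]

lemma exists_add_not_mem {B : Finset G} {g : G} (hg : g ∉ stab B) : ∃ b ∈ B, b + g ∉ B := by
  by_contra hall
  push Not at hall
  apply hg
  have h1 : B.image (· + g) ⊆ B := by
    intro x hx
    obtain ⟨y, hy, rfl⟩ := mem_image.1 hx
    exact hall y hy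
  have h2 : B.image (· + g) = B := by
    apply eq_of_subset_of_card_le h1
    rw [card_image_of_injective _ (add_left_injective g)]
  intro x
  constructor
  · intro hx
    rw [← h2] at hx
    obtain ⟨y, hy, hyx⟩ := mem_image.1 hx
    have : y = x := add_right_cancel hyx
    rwa [← this]
  · intro hx; exact hall x hx

lemma per_mem_image {K : AddSubgroup G} {S : Finset G} (h : Per K S) [DecidableEq (G ⧸ K)]
    (x : G) : (QuotientAddGroup.mk' K x) ∈ S.image (QuotientAddGroup.mk' K) ↔ x ∈ S := by
  constructor
  · intro hx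
    obtain ⟨y, hy, hyx⟩ := mem_image.1 hx
    apply h.mem_of_sub_mem hy
    have := (QuotientAddGroup.eq (s := K)).1 hyx
    have e : -y + x = x - y := by abel
    rwa [e] at this
  · intro hx; exact mem_image_of_mem _ hx

lemma cov_eq (K : AddSubgroup G) (S : Finset G) [DecidableEq (G ⧸ K)] :
    cov K S = (S.image (QuotientAddGroup.mk' K)).card := by
  unfold cov
  congr 1
  ext x
  simp only [mem_image, QuotientAddGroup.mk'_apply]

end

/-- **Kneser's theorem**, inductive form. -/
theorem kneser_aux (n : ℕ) : ∀ (G : Type u) [AddCommGroup G] [Fintype G] [DecidableEq G]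
    (A B : Finset G), A.Nonempty → B.Nonempty → (A + B).card + A.card ≤ n →
    (sat (stab (A + B)) A).card + (sat (stab (A + B)) B).card ≤
      (A + B).card + Nat.card (stab (A + B)) := by
  induction n with
  | zero =>
    intro G _ _ _ A B hA hB h
    have := hA.card_pos
    omega
  | succ n ih =>
    intro G _ _ _ A B hA hB hn
    by_cases hK : stab (A + B) = ⊥
    · rw [hK, sat_bot, sat_bot, card_bot']
      by_cases hA1 : A.card ≤ 1
      · have : B.card ≤ (A + B).card := card_le_card_add_left hA
        omega
      · push Not at hA1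
        obtain ⟨a, ha, a', ha', hne⟩ := Finset.one_lt_card.1 hA1
        have hg : a' - a ∉ stab B := by
          intro h
          have := stab_le_add' B A h
          rw [hK, AddSubgroup.mem_bot, sub_eq_zero] at this
          exact hne this.symm
        obtain ⟨b, hb, hb2⟩ := exists_add_not_mem hg
        have hsum : A + (B + {a - b}) = (A + B) + {a - b} := by rw [add_assoc]
        have hc1 : (A + (B + {a - b})).card = (A + B).card := by
          rw [hsum, card_add_singleton]
        have hc2 : (B + {a - b}).card = B.card := card_add_singleton _ _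
        have hs : stab (A + (B + {a - b})) = ⊥ := by
          rw [hsum, stab_add_singleton, hK]
        have hmain := kneser_main A (B + {a - b}) (by
          intro X Y hX hY hXY
          exact ih G X Y hX hY (by omega)) hs
          ⟨a, mem_inter.2 ⟨ha, Finset.mem_add.2 ⟨b, hb, a - b, mem_singleton_self _, by abel⟩⟩⟩
          (by
            intro hsub
            obtain ⟨y, hy, z, hz, hyz⟩ := Finset.mem_add.1 (hsub ha')
            rw [mem_singleton] at hz
            subst hz
            apply hb2
            have : b + (a' - a) = y := by rw [← hyz]; abel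
            rwa [this])
        omega
    · classical
      set K := stab (A + B) with hKdef
      haveI : Fintype (G ⧸ K) := Fintype.ofFinite _
      set π := QuotientAddGroup.mk' K with hπ
      have hper : Per K (A + B) := sat_stab _
      have himg : (A + B).image π = A.image π + B.image π := Finset.image_add π
      have hstab : stab (A.image π + B.image π) = ⊥ := by
        rw [← himg, eq_bot_iff]
        intro q hq
        obtain ⟨g, rfl⟩ := QuotientAddGroup.mk'_surjective K q
        rw [AddSubgroup.mem_bot]
        rw [QuotientAddGroup.mk'_apply, QuotientAddGroup.eq_zero_iff]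
        intro x
        have h1 := mem_stab.1 hq (π x)
        rw [← map_add, per_mem_image hper, per_mem_image hper] at h1
        exact h1
      have hcAB : (A + B).card = Nat.card K * (A.image π + B.image π).card := by
        have h1 := card_sat K (A + B)
        rw [hper, cov_eq, ← hπ, himg] at h1
        exact h1
      have hcA : (sat K A).card = Nat.card K * (A.image π).card := by
        rw [card_sat, cov_eq]
      have hcB : (sat K B).card = Nat.card K * (B.image π).card := by
        rw [card_sat, cov_eq]
      have hK1 := one_lt_card_of_ne_bot hK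
      have hpos : 0 < (A.image π + B.image π).card := by
        apply Finset.card_pos.2
        exact (hA.image π).add (hB.image π)
      have h1 := ih (G ⧸ K) (A.image π) (B.image π) (hA.image π) (hB.image π) (by
        have h2 : (A.image π).card ≤ A.card := card_image_le
        have h3 : (A.image π + B.image π).card + 1 ≤ (A + B).card := by
          rw [hcAB]
          nlinarith
        omega)
      rw [hstab, sat_bot, sat_bot, card_bot'] at h1
      rw [hcA, hcB, hcAB]
      calc _ = Nat.card K * ((A.image π).card + (B.image π).card) := by ring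
        _ ≤ Nat.card K * ((A.image π + B.image π).card + 1) := Nat.mul_le_mul_left _ h1
        _ = _ := by ring

/-- **Kneser's theorem.** -/
theorem kneser {G : Type u} [AddCommGroup G] [Fintype G] [DecidableEq G] {A B : Finset G}
    (hA : A.Nonempty) (hB : B.Nonempty) :
    (sat (stab (A + B)) A).card + (sat (stab (A + B)) B).card ≤
      (A + B).card + Nat.card (stab (A + B)) :=
  kneser_aux _ G A B hA hB le_rfl

section
variable {G : Type u} [AddCommGroup G] [Fintype G] [DecidableEq G]

lemma kneser_bot {A B : Finset G} (hA : A.Nonempty) (hB : B.Nonempty)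
    (h : stab (A + B) = ⊥) : A.card + B.card ≤ (A + B).card + 1 := by
  have := kneser hA hB
  rwa [h, sat_bot, sat_bot, card_bot'] at this

/-- Kneser's theorem for three sets. -/
lemma kneser3 {A B C : Finset G} (hA : A.Nonempty) (hB : B.Nonempty) (hC : C.Nonempty) :
    (sat (stab (A + B + C)) A).card + (sat (stab (A + B + C)) B).card +
      (sat (stab (A + B + C)) C).card ≤ (A + B + C).card + 2 * Nat.card (stab (A + B + C)) := by
  have h1 := kneser (hA.add hB) hC
  set K := stab (A + B + C) with hK
  have hAB : sat K (A + B) = sat K A + sat K B := (sat_add_sat K A B).symm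
  have hst : stab (sat K A + sat K B) = K := by
    apply le_antisymm
    · have h2 : stab (sat K A + sat K B) ≤ stab (sat K A + sat K B + C) := stab_le_add _ _
      rw [← hAB, ← sat_add] at h2
      have h3 : sat K (A + B + C) = A + B + C := sat_stab _
      rw [h3, ← hK, hAB] at h2
      exact h2
    · rw [← per_iff, ← hAB]
      exact per_sat _ _
  have h2 := kneser (sat_nonempty (K := K) hA) (sat_nonempty (K := K) hB)
  rw [hst, sat_sat, sat_sat, ← hAB] at h2
  omega

/-- a unique representation forces `|A| + |B| ≤ |A + B| + 1` -/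
lemma scherk {A B : Finset G} {a b : G} (ha : a ∈ A) (hb : b ∈ B)
    (h : ∀ x ∈ A, ∀ y ∈ B, x + y = a + b → x = a ∧ y = b) :
    A.card + B.card ≤ (A + B).card + 1 := by
  have hk := kneser ⟨a, ha⟩ ⟨b, hb⟩
  set K := stab (A + B) with hK
  -- A ∩ (a + K) and b + ... 
  have h1 : (A ∩ cos K a).card + (B ∩ cos K b).card ≤ Nat.card K + 1 := by
    -- the reflected set
    have h2 : ((B ∩ cos K b).image (fun y => a + b - y)) ⊆ cos K a := by
      intro x hx
      obtain ⟨y, hy, rfl⟩ := mem_image.1 hx
      have := mem_cos.1 (mem_inter.1 hy).2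
      rw [mem_cos]
      have e : a + b - y - a = -(y - b) := by abel
      rw [e]; exact K.neg_mem this
    have h3 : ((B ∩ cos K b).image (fun y => a + b - y)).card = (B ∩ cos K b).card := by
      apply card_image_of_injective
      intro x y hxy
      have : a + b - x = a + b - y := hxy
      have := sub_right_inj.1 this
      exact this
    have h4 := card_union_add_card_inter (A ∩ cos K a)
      ((B ∩ cos K b).image (fun y => a + b - y))
    have h5 : ((A ∩ cos K a) ∩ ((B ∩ cos K b).image (fun y => a + b - y))).card ≤ 1 := by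
      rw [card_le_one]
      have key : ∀ x ∈ (A ∩ cos K a) ∩ ((B ∩ cos K b).image (fun y => a + b - y)), x = a := by
        intro x hx
        rw [mem_inter] at hx
        obtain ⟨y, hy, hyx⟩ := mem_image.1 hx.2
        exact (h x (mem_inter.1 hx.1).1 y (mem_inter.1 hy).1 (by rw [← hyx]; abel)).1
      intro x hx y hy
      rw [key x hx, key y hy]
    have h6 : ((A ∩ cos K a) ∪ ((B ∩ cos K b).image (fun y => a + b - y))).card ≤
        Nat.card K := by
      rw [← cos_card K a]
      exact card_le_card (union_subset inter_subset_right h2)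
    omega
  -- holes
  have hole : ∀ (S : Finset G) (c : G), c ∈ S → S.card + Nat.card K ≤
      (sat K S).card + (S ∩ cos K c).card := by
    intro S c hc
    have h2 := card_union_add_card_inter S (cos K c)
    rw [cos_card] at h2
    have h3 : (S ∪ cos K c).card ≤ (sat K S).card :=
      card_le_card (union_subset (subset_sat _ _) (cos_subset_sat hc))
    omega
  have h7 := hole A a ha
  have h8 := hole B b hb
  omega

end
end Pool.Agent.WSF
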