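import Pool.Agent.WSF.Transfer

/-!
# Reduction to quotients
-/

open Finset Pointwise

namespace Pool.Agent.WSF

universe u v

section
variable {G : Type u} [AddCommGroup G] [Fintype G] [DecidableEq G]
variable {H : AddSubgroup G} [DecidableEq (G ⧸ H)] [Fintype (G ⧸ H)]

omit [Fintype (G ⧸ H)] in
lemma card_pre (S : Finset (G ⧸ H)) :
    (univ.filter fun x : G => QuotientAddGroup.mk' H x ∈ S).card = Nat.card H * S.card := by
  rw [Finset.card_eq_sum_card_fiberwise (f := QuotientAddGroup.mk' H) (t := S), mul_comm,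
    ← smul_eq_mul]
  · apply Finset.sum_eq_card_nsmul
    intro q hq
    obtain ⟨g, rfl⟩ := exists_rep q
    rw [← cos_card H g]
    congr 1
    ext x
    rw [mem_filter, mem_filter, mem_cos, mk_eq_iff]
    constructor
    · rintro ⟨-, h⟩; exact h
    · intro h
      refine ⟨⟨mem_univ _, ?_⟩, h⟩
      rw [mk_eq_iff.2 h]; exact hq
  · intro x hx
    exact (mem_filter.1 hx).2

lemma sat_comap (K : AddSubgroup (G ⧸ H)) (A : Finset G) :
    (sat (K.comap (QuotientAddGroup.mk' H)) A).card = Nat.card H * (sat K (im H A)).card := by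
  rw [← card_pre]
  congr 1
  ext x
  rw [mem_sat, mem_filter, mem_sat]
  constructor
  · rintro ⟨s, hs, h⟩
    refine ⟨mem_univ _, QuotientAddGroup.mk' H s, mem_im.2 ⟨s, hs, rfl⟩, ?_⟩
    rw [← map_sub]; exact h
  · rintro ⟨-, q, hq, h⟩
    obtain ⟨s, hs, rfl⟩ := mem_im.1 hq
    refine ⟨s, hs, ?_⟩
    rw [← map_sub] at h; exact h

lemma card_comap (K : AddSubgroup (G ⧸ H)) :
    Nat.card (K.comap (QuotientAddGroup.mk' H)) = Nat.card H * Nat.card K := by
  rw [← cos_card _ (0 : G), ← cos_card K 0, ← card_pre]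
  congr 1
  ext x
  rw [mem_cos, mem_filter, mem_cos, sub_zero, sub_zero]
  simp

omit [Fintype (G ⧸ H)] in
lemma card_sat_im (A : Finset G) : (sat H A).card = Nat.card H * (im H A).card := by
  rw [card_sat, cov_eq]; rfl

omit [Fintype G] [DecidableEq G] [DecidableEq (G ⧸ H)] [Fintype (G ⧸ H)] in
lemma lt_comap {K : AddSubgroup (G ⧸ H)} (hK : K ≠ ⊥) : H < K.comap (QuotientAddGroup.mk' H) := by
  rw [lt_iff_le_and_ne]
  constructor
  · intro x hx
    rw [AddSubgroup.mem_comap]
    have : QuotientAddGroup.mk' H x = 0 := (QuotientAddGroup.eq_zero_iff _).2 hx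
    rw [this]; exact K.zero_mem
  · intro h
    apply hK
    rw [AddSubgroup.eq_bot_iff_forall]
    intro q hq
    obtain ⟨g, rfl⟩ := exists_rep q
    have : g ∈ H := by rw [h]; exact hq
    exact (QuotientAddGroup.eq_zero_iff _).2 this

section
variable {R : Type v} [AddCommGroup R] [DecidableEq R]

omit [Fintype G] [DecidableEq G] [DecidableEq (G ⧸ H)] [Fintype (G ⧸ H)] in
omit [DecidableEq R] in
/-- the induced map on the quotient -/
def dn (χ : G →+ R) (h : H ≤ χ.ker) : G ⧸ H →+ R := QuotientAddGroup.lift H χ h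

omit [Fintype G] [DecidableEq G] [DecidableEq (G ⧸ H)] [Fintype (G ⧸ H)] [DecidableEq R] in
lemma dn_mk (χ : G →+ R) (h : H ≤ χ.ker) (x : G) : dn χ h (QuotientAddGroup.mk' H x) = χ x := rfl

lemma fib_dn (χ : G →+ R) (h : H ≤ χ.ker) (i : R) :
    (fib χ i).card = Nat.card H * (fib (dn χ h) i).card := by
  rw [← card_pre]
  congr 1
  ext x
  rw [mem_fib, mem_filter, mem_fib, dn_mk]
  simp

omit [Fintype G] [DecidableEq G] [DecidableEq (G ⧸ H)] [Fintype (G ⧸ H)] [DecidableEq R] in
lemma comap_le_ker {χ : G →+ R} {h : H ≤ χ.ker} {K : AddSubgroup (G ⧸ H)}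
    (hK : K ≤ (dn χ h).ker) : K.comap (QuotientAddGroup.mk' H) ≤ χ.ker := by
  intro x hx
  have : dn χ h (QuotientAddGroup.mk' H x) = 0 := hK hx
  rw [dn_mk] at this
  exact this

end

/-- holes in a part of the support -/
lemma holes' {Q : Type u} [DecidableEq Q] {C : Finset Q} {f : Q → ℕ} {h : ℕ} (hfh : ∀ x, f x ≤ h)
    {S : Finset Q} (hS : S ⊆ C) : S.card * h + ∑ x ∈ C, f x ≤ ∑ x ∈ S, f x + C.card * h := by
  have h1 := Finset.sum_sdiff (f := f) hS
  have h2 : ∑ x ∈ C \ S, f x ≤ (C \ S).card * h := by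
    rw [← smul_eq_mul]
    exact Finset.sum_le_card_nsmul _ _ _ (fun x _ => hfh x)
  have h3 := card_sdiff_add_card_eq_card hS
  have h4 : (C \ S).card * h + S.card * h = C.card * h := by
    rw [← add_mul, h3]
  omega

lemma holes1 {Q : Type u} [DecidableEq Q] {C : Finset Q} {f : Q → ℕ} {h : ℕ} (hfh : ∀ x, f x ≤ h)
    {x : Q} (hx : x ∈ C) : h + ∑ x ∈ C, f x ≤ f x + C.card * h := by
  have := holes' hfh (S := {x}) (by simpa using hx)
  rw [card_singleton, sum_singleton, one_mul] at this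
  exact this

lemma holes2 {Q : Type u} [DecidableEq Q] {C : Finset Q} {f : Q → ℕ} {h : ℕ} (hfh : ∀ x, f x ≤ h)
    {x y : Q} (hx : x ∈ C) (hy : y ∈ C) (hxy : x ≠ y) :
    2 * h + ∑ x ∈ C, f x ≤ f x + f y + C.card * h := by
  have := holes' hfh (S := {x, y}) (by
    intro z hz
    simp only [mem_insert, mem_singleton] at hz
    rcases hz with rfl | rfl <;> assumption)
  rw [card_pair hxy, sum_pair hxy] at this
  exact this

end

lemma exists_max {G : Type u} [AddCommGroup G] [Finite G] {p : AddSubgroup G → Prop}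
    (h : ∃ H, p H) : ∃ H, p H ∧ ∀ K, H < K → ¬ p K := by
  obtain ⟨H, hH, hmax⟩ := (wellFounded_gt (α := AddSubgroup G)).has_min {H | p H} h
  exact ⟨H, hH, fun K hK hp => hmax K hp hK⟩

lemma mod_four {d : ℕ} (hd : d ≠ 0) (h : ∀ p, p.Prime → p ∣ d → p % 4 = 1) : d % 4 = 1 := by
  induction d using Nat.strong_induction_on with
  | _ d ih =>
    by_cases h1 : d = 1
    · subst h1; rfl
    · have hp := Nat.minFac_prime h1
      obtain ⟨e, he⟩ := Nat.minFac_dvd d
      have h2 := h _ hp (Nat.minFac_dvd d)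
      have he0 : e ≠ 0 := by
        rintro rfl
        rw [mul_zero] at he
        exact hd he
      have hlt : e < d := by
        rw [he]
        have := hp.two_le
        nlinarith [Nat.pos_of_ne_zero he0]
      have h3 := ih e hlt he0 (fun q hq hqe => h q hq (hqe.trans ⟨d.minFac, by rw [mul_comm]; exact he⟩))
      rw [he, Nat.mul_mod, h2, h3]

end Pool.Agent.WSF
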