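import Mathlib

/-!
# Saturations and stabilisers of subsets of a finite abelian group
-/

open Finset Pointwise

namespace Pool.Agent.WSF

section
variable {G : Type*} [AddCommGroup G] [Fintype G] [DecidableEq G]

open Classical in
/-- the saturation `S + K` -/
noncomputable def sat (K : AddSubgroup G) (S : Finset G) : Finset G :=
  univ.filter fun x => ∃ s ∈ S, x - s ∈ K

open Classical in
/-- the coset `a + K` -/
noncomputable def cos (K : AddSubgroup G) (a : G) : Finset G :=
  univ.filter fun x => x - a ∈ K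

/-- the stabiliser of `S` -/
def stab (S : Finset G) : AddSubgroup G where
  carrier := {g | ∀ x, x + g ∈ S ↔ x ∈ S}
  zero_mem' := by intro x; simp
  add_mem' := by
    intro a b ha hb x
    rw [← add_assoc, hb, ha]
  neg_mem' := by
    intro a ha x
    rw [← ha (x + -a)]; simp [add_assoc]

lemma mem_sat {K : AddSubgroup G} {S : Finset G} {x : G} :
    x ∈ sat K S ↔ ∃ s ∈ S, x - s ∈ K := by simp [sat]

lemma mem_cos {K : AddSubgroup G} {a x : G} : x ∈ cos K a ↔ x - a ∈ K := by simp [cos]

lemma mem_stab {S : Finset G} {g : G} : g ∈ stab S ↔ ∀ x, x + g ∈ S ↔ x ∈ S := Iff.rfl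

lemma subset_sat (K : AddSubgroup G) (S : Finset G) : S ⊆ sat K S := by
  intro x hx
  exact mem_sat.2 ⟨x, hx, by simp⟩

lemma sat_mono {K : AddSubgroup G} {S T : Finset G} (h : S ⊆ T) : sat K S ⊆ sat K T := by
  intro x hx
  obtain ⟨s, hs, h2⟩ := mem_sat.1 hx
  exact mem_sat.2 ⟨s, h hs, h2⟩

lemma sat_mono_left {K L : AddSubgroup G} (h : K ≤ L) (S : Finset G) : sat K S ⊆ sat L S := by
  intro x hx
  obtain ⟨s, hs, h2⟩ := mem_sat.1 hx
  exact mem_sat.2 ⟨s, hs, h h2⟩

lemma sat_bot (S : Finset G) : sat ⊥ S = S := by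
  ext x
  rw [mem_sat]
  constructor
  · rintro ⟨s, hs, h⟩
    rw [AddSubgroup.mem_bot, sub_eq_zero] at h
    rwa [h]
  · intro h; exact ⟨x, h, by simp⟩

lemma sat_union (K : AddSubgroup G) (S T : Finset G) : sat K (S ∪ T) = sat K S ∪ sat K T := by
  ext x
  simp only [mem_union, mem_sat]
  constructor
  · rintro ⟨s, hs | hs, h⟩
    · exact Or.inl ⟨s, hs, h⟩
    · exact Or.inr ⟨s, hs, h⟩
  · rintro (⟨s, hs, h⟩ | ⟨s, hs, h⟩)
    · exact ⟨s, Or.inl hs, h⟩
    · exact ⟨s, Or.inr hs, h⟩

lemma sat_add (K : AddSubgroup G) (S T : Finset G) : sat K (S + T) = sat K S + T := by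
  ext x
  rw [mem_sat, Finset.mem_add]
  constructor
  · rintro ⟨s, hs, h⟩
    obtain ⟨a, ha, b, hb, rfl⟩ := Finset.mem_add.1 hs
    refine ⟨x - b, mem_sat.2 ⟨a, ha, ?_⟩, b, hb, by abel⟩
    have : x - b - a = x - (a + b) := by abel
    rwa [this]
  · rintro ⟨a, ha, b, hb, rfl⟩
    obtain ⟨s, hs, h⟩ := mem_sat.1 ha
    refine ⟨s + b, Finset.add_mem_add hs hb, ?_⟩
    have : a + b - (s + b) = a - s := by abel
    rwa [this]

lemma sat_sat (K : AddSubgroup G) (S : Finset G) : sat K (sat K S) = sat K S := by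
  apply Subset.antisymm _ (subset_sat _ _)
  intro x hx
  obtain ⟨y, hy, h⟩ := mem_sat.1 hx
  obtain ⟨s, hs, h2⟩ := mem_sat.1 hy
  refine mem_sat.2 ⟨s, hs, ?_⟩
  have : x - s = (x - y) + (y - s) := by abel
  rw [this]
  exact K.add_mem h h2

lemma sat_add' (K : AddSubgroup G) (S T : Finset G) : sat K (S + T) = S + sat K T := by
  rw [add_comm S T, sat_add, add_comm]

lemma sat_add_sat (K : AddSubgroup G) (S T : Finset G) :
    sat K S + sat K T = sat K (S + T) := by
  rw [← sat_add' , ← sat_add, sat_sat]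

lemma sat_neg (K : AddSubgroup G) (S : Finset G) : sat K (-S) = -sat K S := by
  ext x
  rw [mem_sat, Finset.mem_neg']
  rw [mem_sat]
  constructor
  · rintro ⟨s, hs, h⟩
    rw [Finset.mem_neg'] at hs
    refine ⟨-s, hs, ?_⟩
    have : -x - -s = -(x - s) := by abel
    rw [this]; exact K.neg_mem h
  · rintro ⟨s, hs, h⟩
    refine ⟨-s, by simpa using hs, ?_⟩
    have : x - -s = -(-x - s) := by abel
    rw [this]; exact K.neg_mem h

/-- `S` is a union of cosets of `K` -/
def Per (K : AddSubgroup G) (S : Finset G) : Prop := sat K S = S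

lemma per_iff {K : AddSubgroup G} {S : Finset G} : Per K S ↔ K ≤ stab S := by
  unfold Per
  constructor
  · intro h g hg x
    constructor
    · intro hx
      rw [← h]
      refine mem_sat.2 ⟨x + g, hx, ?_⟩
      have : x - (x + g) = -g := by abel
      rw [this]; exact K.neg_mem hg
    · intro hx
      rw [← h]
      refine mem_sat.2 ⟨x, hx, ?_⟩
      have : x + g - x = g := by abel
      rwa [this]
  · intro h
    apply Subset.antisymm _ (subset_sat _ _)
    intro x hx
    obtain ⟨s, hs, h2⟩ := mem_sat.1 hx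
    have := (mem_stab.1 (h h2) s).2 hs
    rwa [add_sub_cancel] at this

lemma sat_stab (S : Finset G) : sat (stab S) S = S := per_iff.2 le_rfl

lemma Per.mem_of_sub_mem {K : AddSubgroup G} {S : Finset G} (h : Per K S) {x y : G}
    (hx : x ∈ S) (hxy : y - x ∈ K) : y ∈ S := by
  rw [← h]; exact mem_sat.2 ⟨x, hx, hxy⟩

lemma per_sat (K : AddSubgroup G) (S : Finset G) : Per K (sat K S) := sat_sat K S

lemma Per.mono {K L : AddSubgroup G} {S : Finset G} (h : Per L S) (hKL : K ≤ L) : Per K S :=
  per_iff.2 (hKL.trans (per_iff.1 h))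

lemma Per.add_right {K : AddSubgroup G} {S : Finset G} (h : Per K S) (T : Finset G) :
    Per K (S + T) := by
  unfold Per at *
  rw [sat_add, h]

lemma Per.add_left {K : AddSubgroup G} {S : Finset G} (h : Per K S) (T : Finset G) :
    Per K (T + S) := by
  rw [add_comm]; exact h.add_right T

lemma Per.union {K : AddSubgroup G} {S T : Finset G} (h : Per K S) (h' : Per K T) :
    Per K (S ∪ T) := by
  unfold Per at *
  rw [sat_union, h, h']

lemma Per.compl {K : AddSubgroup G} {S T : Finset G} (h : Per K S) (h' : Per K T) :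
    Per K (T \ S) := by
  unfold Per
  apply Subset.antisymm _ (subset_sat _ _)
  intro x hx
  obtain ⟨s, hs, h2⟩ := mem_sat.1 hx
  rw [mem_sdiff] at hs ⊢
  refine ⟨h'.mem_of_sub_mem hs.1 h2, fun hxS => hs.2 (h.mem_of_sub_mem hxS ?_)⟩
  have : s - x = -(x - s) := by abel
  rw [this]; exact K.neg_mem h2

lemma per_bot (S : Finset G) : Per ⊥ S := sat_bot S

lemma stab_le_add (S T : Finset G) : stab S ≤ stab (S + T) :=
  per_iff.1 ((per_iff.2 le_rfl : Per (stab S) S).add_right T)

lemma stab_le_add' (S T : Finset G) : stab S ≤ stab (T + S) :=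
  per_iff.1 ((per_iff.2 le_rfl : Per (stab S) S).add_left T)

lemma stab_neg (S : Finset G) : stab (-S) = stab S := by
  have key : ∀ T : Finset G, stab T ≤ stab (-T) := by
    intro T
    rw [← per_iff]
    unfold Per
    rw [sat_neg, sat_stab]
  apply le_antisymm
  · simpa using key (-S)
  · exact key S

lemma cos_card (K : AddSubgroup G) (a : G) : (cos K a).card = Nat.card K := by
  classical
  rw [Nat.card_eq_fintype_card]
  rw [← Fintype.card_coe]
  apply Fintype.card_congr
  exact
    { toFun := fun x => ⟨x.1 - a, mem_cos.1 x.2⟩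
      invFun := fun k => ⟨k.1 + a, mem_cos.2 (by simp)⟩
      left_inv := by intro x; ext; simp
      right_inv := by intro x; ext; simp }

lemma card_pos' (K : AddSubgroup G) : 0 < Nat.card K := Nat.card_pos

lemma sat_singleton (K : AddSubgroup G) (a : G) : sat K {a} = cos K a := by
  ext x; simp [mem_sat, mem_cos]

lemma cos_subset_sat {K : AddSubgroup G} {S : Finset G} {a : G} (ha : a ∈ S) :
    cos K a ⊆ sat K S := by
  rw [← sat_singleton]; exact sat_mono (by simpa using ha)

lemma self_mem_cos (K : AddSubgroup G) (a : G) : a ∈ cos K a := mem_cos.2 (by simp)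

lemma Per.cos_subset {K : AddSubgroup G} {S : Finset G} (h : Per K S) {a : G} (ha : a ∈ S) :
    cos K a ⊆ S := by
  have := cos_subset_sat (K := K) ha
  rwa [h] at this

lemma cos_eq_of_mem {K : AddSubgroup G} {a b : G} (h : b ∈ cos K a) : cos K b = cos K a := by
  rw [mem_cos] at h
  ext x
  rw [mem_cos, mem_cos]
  constructor
  · intro hx
    have : x - a = (x - b) + (b - a) := by abel
    rw [this]; exact K.add_mem hx h
  · intro hx
    have : x - b = (x - a) - (b - a) := by abel
    rw [this]; exact K.sub_mem hx h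

lemma cos_disjoint {K : AddSubgroup G} {a b : G} (h : a - b ∉ K) :
    Disjoint (cos K a) (cos K b) := by
  rw [Finset.disjoint_left]
  intro x hx hy
  rw [mem_cos] at hx hy
  apply h
  have : a - b = (x - b) - (x - a) := by abel
  rw [this]; exact K.sub_mem hy hx

lemma per_cos (K : AddSubgroup G) (a : G) : Per K (cos K a) := by
  rw [← sat_singleton]; exact per_sat _ _

/-- number of cosets of `K` which meet `S` -/
noncomputable def cov (K : AddSubgroup G) (S : Finset G) : ℕ :=
  open Classical in (S.image (QuotientAddGroup.mk : G → G ⧸ K)).card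

lemma card_sat (K : AddSubgroup G) (S : Finset G) : (sat K S).card = Nat.card K * cov K S := by
  classical
  unfold cov
  have hmem : ∀ x ∈ sat K S, (QuotientAddGroup.mk x : G ⧸ K) ∈
      S.image (QuotientAddGroup.mk : G → G ⧸ K) := by
    intro x hx
    obtain ⟨s, hs, h⟩ := mem_sat.1 hx
    rw [mem_image]
    refine ⟨s, hs, ?_⟩
    rw [QuotientAddGroup.eq]
    have : -s + x = x - s := by abel
    rwa [this]
  rw [Finset.card_eq_sum_card_fiberwise hmem, mul_comm, ← smul_eq_mul]
  apply Finset.sum_eq_card_nsmul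
  intro q hq
  rw [mem_image] at hq
  obtain ⟨s, hs, rfl⟩ := hq
  rw [← cos_card K s]
  congr 1
  ext x
  rw [mem_filter, mem_cos, mem_sat]
  constructor
  · rintro ⟨-, h⟩
    have h' := h.symm
    rw [QuotientAddGroup.eq] at h'
    have : -s + x = x - s := by abel
    rwa [this] at h'
  · intro h
    refine ⟨⟨s, hs, h⟩, ?_⟩
    symm
    rw [QuotientAddGroup.eq]
    have : -s + x = x - s := by abel
    rwa [this]

lemma dvd_card_sat (K : AddSubgroup G) (S : Finset G) : Nat.card K ∣ (sat K S).card :=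
  ⟨_, card_sat K S⟩

lemma card_le_sat (K : AddSubgroup G) (S : Finset G) : S.card ≤ (sat K S).card :=
  card_le_card (subset_sat K S)

lemma Nonempty.sat_card {K : AddSubgroup G} {S : Finset G} (h : S.Nonempty) :
    Nat.card K ≤ (sat K S).card := by
  obtain ⟨a, ha⟩ := h
  rw [← cos_card K a]
  exact card_le_card (cos_subset_sat ha)

lemma disjoint_sat {K : AddSubgroup G} {S T : Finset G} (h : Disjoint S T) (hS : Per K S) :
    Disjoint S (sat K T) := by
  rw [Finset.disjoint_left]
  intro x hx hy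
  obtain ⟨t, ht, h2⟩ := mem_sat.1 hy
  have : t ∈ S := by
    apply hS.mem_of_sub_mem hx
    have : t - x = -(x - t) := by abel
    rw [this]; exact K.neg_mem h2
  exact (Finset.disjoint_left.1 h) this ht

lemma sat_nonempty {K : AddSubgroup G} {S : Finset G} (h : S.Nonempty) : (sat K S).Nonempty :=
  h.mono (subset_sat K S)

lemma card_lt_of_lt {H K : AddSubgroup G} (h : H < K) : Nat.card H < Nat.card K := by
  rw [← SetLike.coe_sort_coe, ← SetLike.coe_sort_coe]
  rw [Nat.card_coe_set_eq, Nat.card_coe_set_eq]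
  exact Set.ncard_lt_ncard (SetLike.coe_ssubset_coe.2 h) (Set.toFinite _)

lemma card_le_of_le' {H K : AddSubgroup G} (h : H ≤ K) : Nat.card H ≤ Nat.card K :=
  Nat.le_of_dvd (card_pos' K) (AddSubgroup.card_dvd_of_le h)

lemma card_bot' : Nat.card (⊥ : AddSubgroup G) = 1 := by simp

lemma one_lt_card_of_ne_bot {K : AddSubgroup G} (h : K ≠ ⊥) : 1 < Nat.card K := by
  have := card_lt_of_lt (bot_lt_iff_ne_bot.2 h)
  rwa [card_bot'] at this

lemma eq_bot_of_card {K : AddSubgroup G} (h : Nat.card K ≤ 1) : K = ⊥ := by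
  by_contra hne
  have := one_lt_card_of_ne_bot hne
  omega

end

end Pool.Agent.WSF
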