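import Pool.Agent.WSF.Main

/-!
# No strong near-period
-/

open Finset Pointwise

namespace Pool.Agent.WSF

universe u v

section
variable {G : Type u} [AddCommGroup G] [Fintype G] [DecidableEq G]

lemma le_F [IsAddCyclic G] {χ : G →+ ZMod 4} {m : ℕ} (hm : ∀ i, (fib χ i).card = 2 * m)
    (hm0 : 0 < m) {H : AddSubgroup G} (h : Nat.card H ∣ 2 * m) : H ≤ χ.ker := by
  have h1 := IsAddCyclic.card_nsmul_eq_zero_le (α := G) (n := 2 * m) (by omega)
  have h2 : fib χ 0 ⊆ univ.filter (fun a : G => (2 * m) • a = 0) := by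
    intro x hx
    rw [mem_filter]
    refine ⟨mem_univ _, ?_⟩
    have h3 : Nat.card χ.ker = 2 * m := by rw [card_ker_eq, hm]
    have h4 : (Nat.card χ.ker) • (⟨x, mem_fib.1 hx⟩ : χ.ker) = 0 := card_nsmul_eq_zero'
    rw [h3] at h4
    exact congrArg Subtype.val h4
  have h3 : fib χ 0 = univ.filter (fun a : G => (2 * m) • a = 0) := by
    apply eq_of_subset_of_card_le h2
    rw [hm]; exact h1
  intro x hx
  have h4 : (Nat.card H) • (⟨x, hx⟩ : H) = 0 := card_nsmul_eq_zero'
  have h5 : (Nat.card H) • x = 0 := congrArg Subtype.val h4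
  obtain ⟨k, hk⟩ := h
  have h6 : x ∈ fib χ 0 := by
    rw [h3, mem_filter]
    refine ⟨mem_univ _, ?_⟩
    rw [hk, mul_nsmul, h5, nsmul_zero]
  exact mem_fib.1 h6

/-- relations in the quotient in case of few holes -/
lemma rel4 {H : AddSubgroup G} [DecidableEq (G ⧸ H)] (hG : OneInv G) {A : Finset G} (hw : Wsf A)
    (h2 : ∀ x ∈ im H A, 2 ≤ (fc H A x).card)
    (hh : ∀ x ∈ im H A, ∀ y ∈ im H A, x ≠ y →
      Nat.card H + 2 ≤ (fc H A x).card + (fc H A y).card) :
    ∀ a ∈ im H A, ∀ b ∈ im H A, ∀ c ∈ im H A, a + b + c ∈ im H A → a = b ∧ b = c := by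
  have e2 : ∀ γ ∈ im H A, ∀ γ' ∈ im H A, γ ≠ γ' → γ + γ + γ' ∉ im H A := by
    intro γ h1 γ' h1' hne h
    have k1 := hh γ h1 γ' h1' hne
    by_cases h3 : 3 ≤ (fc H A γ).card
    · have := trD1 hG hw γ h1 γ' h1' _ h hne h3 rfl
      omega
    · have k2 := h2 γ h1
      have k3 := fc_card_le A γ'
      have k4 := trD2 hw γ h1 γ' h1' _ h hne k2 rfl
      have k5 := h2 _ h
      omega
  intro a ha b hb c hc h
  by_cases hab : a = b
  · subst hab
    refine ⟨rfl, ?_⟩
    by_contra hac
    exact e2 a ha c hc hac h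
  · exfalso
    by_cases hac : a = c
    · subst hac
      apply e2 a ha b hb hab
      have : a + a + b = a + b + a := by abel
      rwa [this]
    · by_cases hbc : b = c
      · subst hbc
        apply e2 b hb a ha (Ne.symm hab)
        have : b + b + a = a + b + b := by abel
        rwa [this]
      · have := tr3 hw ha hb hc h hab hac hbc
        have := hh a ha b hb hab
        omega

theorem step0 [IsAddCyclic G] {χ : G →+ ZMod 4} {m : ℕ} (hm : ∀ i, (fib χ i).card = 2 * m)
    (hm0 : 0 < m) (hdiv : ∀ d, d ∣ m → d % 4 = 1)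
    {A : Finset G} (hA : A.card = 2 * m + 2) (hw : Wsf A)
    (hP : (A.filter fun x => (red.comp χ) x = 0).Nonempty)
    (hR : (A.filter fun x => (red.comp χ) x = 1).Nonempty) :
    ∀ H : AddSubgroup G, H ≤ (red.comp χ).ker → 2 * m + Nat.card H < (sat H A).card := by
  intro H1 hH1
  by_contra hcon
  push Not at hcon
  set ε := red.comp χ with hε
  have hE : ∀ i, (fib ε i).card = 2 * (2 * m) := card_fib_red hm
  obtain ⟨H, ⟨hHE, hHA⟩, hmax⟩ := exists_max
    (p := fun H : AddSubgroup G => H ≤ ε.ker ∧ (sat H A).card ≤ 2 * m + Nat.card H)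
    ⟨H1, hH1, hcon⟩
  clear hH1 hcon H1
  classical
  haveI : Fintype (G ⧸ H) := Fintype.ofFinite _
  haveI : IsAddCyclic (G ⧸ H) := quot_cyclic H
  have hG : OneInv G := oneInv_of_cyclic
  have hQ : OneInv (G ⧸ H) := oneInv_of_cyclic
  set C := im H A with hC
  set h := Nat.card H with hh
  have hhpos : 0 < h := card_pos' H
  have hsum := sum_fc (H := H) A
  rw [← hC, hA] at hsum
  have hCc : (sat H A).card = h * C.card := card_sat_im A
  have hodd : m % 4 = 1 := hdiv m dvd_rfl
  have hfh := fc_card_le (H := H) A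
  rw [← hh] at hfh
  have H1 := fun (x : G ⧸ H) (hx : x ∈ C) => holes1 hfh hx
  have H2 := fun (x y : G ⧸ H) (hx : x ∈ C) (hy : y ∈ C) (hxy : x ≠ y) => holes2 hfh hx hy hxy
  rw [hsum] at H1 H2
  have hCh : C.card * h ≤ 2 * m + h := by rw [mul_comm, ← hCc]; exact hHA
  have f2 : ∀ x ∈ C, 2 ≤ (fc H A x).card := by
    intro x hx
    have := H1 x hx
    omega
  have ff : ∀ x ∈ C, ∀ y ∈ C, x ≠ y → h + 2 ≤ (fc H A x).card + (fc H A y).card := by
    intro x hx y hy hxy
    have := H2 x y hx hy hxy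
    omega
  have h4 := rel4 hG hw f2 ff
  rw [← hC] at h4
  -- the order of H
  have hdvd : h ∣ 2 * (2 * m) := by
    rw [← hE 0, ← card_ker_eq]
    exact AddSubgroup.card_dvd_of_le hHE
  have hne3 : ∀ γ ∈ C, ∀ γ' ∈ C, γ ≠ γ' → γ + γ + γ ≠ γ := by
    intro γ hγ γ' hγ' hne he
    have h0 : γ + γ = 0 := add_eq_right.1 he
    have := h4 γ hγ γ hγ γ' hγ' (by rw [h0, zero_add]; exact hγ')
    exact hne this.2
  have hmaxB : ∀ K : AddSubgroup (G ⧸ H), K ≠ ⊥ →
      K.comap (QuotientAddGroup.mk' H) ≤ ε.ker → 2 * m + h * Nat.card K < h * (sat K C).card := by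
    intro K hK hKE
    by_contra hcon
    push Not at hcon
    apply hmax _ (lt_comap hK)
    refine ⟨hKE, ?_⟩
    rw [sat_comap, card_comap]
    exact hcon
  by_cases h4h : 4 ∣ h
  · -- order divisible by four
    obtain ⟨h', hh'⟩ := h4h
    have hh'm : h' ∣ m := by
      obtain ⟨k, hk⟩ := hdvd
      refine ⟨k, ?_⟩
      have : 4 * m = 4 * (h' * k) := by
        calc 4 * m = 2 * (2 * m) := by ring
          _ = h * k := hk
          _ = 4 * (h' * k) := by rw [hh']; ring
      omega
    obtain ⟨M, hM⟩ := hh'm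
    have hM4 : M % 4 = 1 := hdiv M ⟨h', by rw [mul_comm]; exact hM⟩
    have hh'pos : 0 < h' := by omega
    -- size of C
    have hC2 : 2 * C.card = M + 1 := by
      have u1 : 2 * C.card ≤ M + 2 := by
        have : h' * (2 * (2 * C.card)) ≤ h' * (2 * (M + 2)) := by
          have e1 : h' * (2 * (2 * C.card)) = C.card * h := by rw [hh']; ring
          have e2 : h' * (2 * (M + 2)) = 2 * m + h := by rw [hh', hM]; ring
          rw [e1, e2]; exact hCh
        have := Nat.le_of_mul_le_mul_left this hh'pos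
        omega
      have u2 : M < 2 * C.card := by
        have k1 : A.card ≤ (sat H A).card := card_le_sat _ _
        rw [hA, hCc] at k1
        have : h' * (2 * M) < h' * (2 * (2 * C.card)) := by
          have e1 : h' * (2 * (2 * C.card)) = h * C.card := by rw [hh']; ring
          have e2 : h' * (2 * M) = 2 * m := by rw [hM]; ring
          rw [e1, e2]; omega
        have := Nat.lt_of_mul_lt_mul_left this
        omega
      omega
    have hCh' : C.card * h + 2 * h' = 2 * m + h := by
      have e1 : C.card * h = 2 * h' * (2 * C.card) := by rw [hh']; ring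
      rw [e1, hC2, hh', hM]; ring
    have hεQ : ∀ i, (fib (dn ε hHE) i).card = M := by
      intro i
      have h1 := fib_dn ε hHE i
      rw [hE, ← hh, hh', hM] at h1
      have : (4 * h') * M = (4 * h') * (fib (dn ε hHE) i).card := by
        rw [← h1]; ring
      exact (Nat.eq_of_mul_eq_mul_left (by omega) this).symm
    have hPQ : (C.filter fun x => (dn ε hHE) x = 0).Nonempty := by
      obtain ⟨x, hx⟩ := hP
      rw [mem_filter] at hx
      exact ⟨QuotientAddGroup.mk' H x, mem_filter.2 ⟨mem_im.2 ⟨x, hx.1, rfl⟩, hx.2⟩⟩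
    have hRQ : (C.filter fun x => (dn ε hHE) x = 1).Nonempty := by
      obtain ⟨x, hx⟩ := hR
      rw [mem_filter] at hx
      exact ⟨QuotientAddGroup.mk' H x, mem_filter.2 ⟨mem_im.2 ⟨x, hx.1, rfl⟩, hx.2⟩⟩
    have htwo : ∀ γ ∈ C, ∃ γ' ∈ C, γ ≠ γ' := by
      intro γ hγ
      obtain ⟨x, hx⟩ := hPQ
      obtain ⟨y, hy⟩ := hRQ
      rw [mem_filter] at hx hy
      by_cases hxγ : γ = x
      · refine ⟨y, hy.1, ?_⟩
        rintro rfl
        rw [← hxγ, hy.2] at hx
        exact absurd hx.2 (by decide)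
      · exact ⟨x, hx.1, hxγ⟩
    refine stepT1 (ε := dn ε hHE) hεQ hM4 hC2 hPQ hRQ ?_ ?_
    · intro a ha b hb c hc hd
      obtain ⟨rfl, rfl⟩ := h4 a ha b hb c hc hd
      obtain ⟨γ', hγ', hne⟩ := htwo a ha
      have h5 := hne3 a ha γ' hγ' hne
      have h6 := H2 _ _ ha hd (Ne.symm h5)
      have h7 := H1 _ ha
      have h8 := trU hw (γ := a) hd (by omega)
      rw [← hh] at h8
      omega
    · intro K hK hne
      have h1 := hmaxB K hne (comap_le_ker hK)
      have e1 : h * (2 * (sat K C).card) = 2 * (h * (sat K C).card) := by ring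
      have e2 : h * (M + 2 * Nat.card K) = 2 * (2 * m + h * Nat.card K) := by
        rw [hh', hM]; ring
      have : h * (M + 2 * Nat.card K) < h * (2 * (sat K C).card) := by rw [e1, e2]; omega
      exact Nat.lt_of_mul_lt_mul_left this
  · -- order not divisible by four
    have hdvd2 : h ∣ 2 * m := by
      rcases Nat.even_or_odd h with ⟨k, hk⟩ | hho
      · have hk2 : h = 2 * k := by omega
        have hko : ¬ 2 ∣ k := by
          intro ⟨l, hl⟩
          apply h4h
          exact ⟨l, by rw [hk2, hl]; ring⟩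
        rw [hk2]
        apply Nat.mul_dvd_mul_left
        rw [hk2] at hdvd
        have h1 : k ∣ 2 * m := Nat.dvd_of_mul_dvd_mul_left (by norm_num) hdvd
        exact Nat.Coprime.dvd_of_dvd_mul_left
          ((Nat.Prime.coprime_iff_not_dvd Nat.prime_two).2 hko).symm h1
      · exact Nat.Coprime.dvd_of_dvd_mul_left (Nat.coprime_two_left.2 hho).symm hdvd
    have hHF : H ≤ χ.ker := le_F hm hm0 hdvd2
    obtain ⟨N, hN⟩ := hdvd2
    -- size of C
    have hCN : C.card = N + 1 := by
      have u1 : C.card ≤ N + 1 := by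
        have : h * C.card ≤ h * (N + 1) := by
          have e2 : h * (N + 1) = 2 * m + h := by rw [hN]; ring
          rw [e2, mul_comm]; exact hCh
        exact Nat.le_of_mul_le_mul_left this hhpos
      have u2 : N < C.card := by
        have k1 : A.card ≤ (sat H A).card := card_le_sat _ _
        rw [hA, hCc] at k1
        have : h * N < h * C.card := by rw [← hN]; omega
        exact Nat.lt_of_mul_lt_mul_left this
      omega
    have hχQ : ∀ i, (fib (dn χ hHF) i).card = N := by
      intro i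
      have h1 := fib_dn χ hHF i
      rw [hm, ← hh, hN] at h1
      exact (Nat.eq_of_mul_eq_mul_left hhpos h1).symm
    have hPQ : (C.filter fun x => (red.comp (dn χ hHF)) x = 0).Nonempty := by
      obtain ⟨x, hx⟩ := hP
      rw [mem_filter] at hx
      exact ⟨QuotientAddGroup.mk' H x, mem_filter.2 ⟨mem_im.2 ⟨x, hx.1, rfl⟩, hx.2⟩⟩
    have hRQ : (C.filter fun x => (red.comp (dn χ hHF)) x = 1).Nonempty := by
      obtain ⟨x, hx⟩ := hR
      rw [mem_filter] at hx
      exact ⟨QuotientAddGroup.mk' H x, mem_filter.2 ⟨mem_im.2 ⟨x, hx.1, rfl⟩, hx.2⟩⟩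
    have htwo : ∀ γ ∈ C, ∃ γ' ∈ C, γ ≠ γ' := by
      intro γ hγ
      obtain ⟨x, hx⟩ := hPQ
      obtain ⟨y, hy⟩ := hRQ
      rw [mem_filter] at hx hy
      by_cases hxγ : γ = x
      · refine ⟨y, hy.1, ?_⟩
        rintro rfl
        rw [← hxγ, hy.2] at hx
        exact absurd hx.2 (by decide)
      · exact ⟨x, hx.1, hxγ⟩
    refine stepT2 hQ hχQ hCN hPQ hRQ h4 ?_ ?_ ?_
    · intro K hK hne
      have hKE : K.comap (QuotientAddGroup.mk' H) ≤ ε.ker := by
        intro x hx
        exact hK (show QuotientAddGroup.mk' H x ∈ K from hx)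
      have h1 := hmaxB K hne hKE
      have e2 : h * (N + Nat.card K) = 2 * m + h * Nat.card K := by
        rw [hN]; ring
      rw [← e2] at h1
      exact Nat.lt_of_mul_lt_mul_left h1
    · intro hNe
      rw [card_le_one]
      -- h is odd
      have hhm : h ∣ m := by
        obtain ⟨k, hk⟩ := hNe
        refine ⟨k, ?_⟩
        have : 2 * m = 2 * (h * k) := by rw [hN, hk]; ring
        omega
      have k4 := hdiv h hhm
      have hh1 : h ≠ 1 := by
        intro h1
        rw [h1] at hCh
        rw [hCN] at hCh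
        rw [h1] at hN
        have k1 : A.card ≤ (sat H A).card := card_le_sat _ _
        rw [hA] at k1
        omega
      have key : ∀ γ ∈ C.filter (fun a => a + a + a ∈ C), (fc H A γ).card ≤ 3 := by
        intro γ hγ
        rw [mem_filter] at hγ
        obtain ⟨γ', hγ', hne⟩ := htwo γ hγ.1
        have h5 := hne3 γ hγ.1 γ' hγ' hne
        by_contra hcon
        have h8 := trU hw (γ := γ) hγ.2 (by omega)
        have h9 := ff _ hγ.1 _ hγ.2 (Ne.symm h5)
        rw [← hh] at h8
        omega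
      intro x hx y hy
      by_contra hxy
      have k1 := key x hx
      have k2 := key y hy
      rw [mem_filter] at hx hy
      have k3 := ff x hx.1 y hy.1 hxy
      omega
    · intro hNo
      apply hdiv
      have : N ∣ 2 * m := ⟨h, by rw [hN, mul_comm]⟩
      exact Nat.Coprime.dvd_of_dvd_mul_left (Nat.coprime_two_left.2 hNo).symm this

end
end Pool.Agent.WSF
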