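import Pool.Agent.WSF.Step0

/-!
# All classes are met
-/

open Finset Pointwise

namespace Pool.Agent.WSF

universe u v

section
variable {G : Type u} [AddCommGroup G] [Fintype G] [DecidableEq G]

lemma oneInvQ [IsAddCyclic G] (K : AddSubgroup G) : OneInv (G ⧸ K) := by
  classical
  haveI : IsAddCyclic (G ⧸ K) := quot_cyclic K
  haveI : Fintype (G ⧸ K) := Fintype.ofFinite _
  exact oneInv_of_cyclic

lemma step1 {ε : G →+ ZMod 2} {m : ℕ} (hm : ∀ i, (fib ε i).card = 2 * (2 * m)) (hm0 : 0 < m)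
    {A : Finset G} (hA : A.card = 2 * m + 2) (hw : Wsf A) (i : ZMod 2) :
    (A.filter fun x => ε x = i).Nonempty := by
  by_contra hne
  rw [not_nonempty_iff_eq_empty] at hne
  have h01 : ∀ z w : ZMod 2, z ≠ w → z = w + 1 := by decide
  have hall : A ⊆ fib ε (i + 1) := by
    intro x hx
    rw [mem_fib]
    apply h01
    intro h
    have : x ∈ A.filter fun x => ε x = i := mem_filter.2 ⟨hx, h⟩
    rw [hne] at this
    exact absurd this (notMem_empty x)
  obtain ⟨a, ha, b, hb, hab⟩ := Finset.one_lt_card.1 (by omega : 1 < A.card)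
  set A' := ((A.erase a).erase b).image (fun x => a + b + x) with hA'
  have hA'c : A'.card = 2 * m := by
    rw [hA', card_image_of_injective _ (add_right_injective (a + b)),
      card_erase_of_mem (mem_erase.2 ⟨Ne.symm hab, hb⟩), card_erase_of_mem ha, hA]
    omega
  have hd : Disjoint A A' := by
    rw [Finset.disjoint_left]
    intro x hx hx'
    obtain ⟨y, hy, rfl⟩ := mem_image.1 hx'
    rw [mem_erase, mem_erase] at hy
    exact hw a ha b hb y hy.2.2 hab (Ne.symm hy.2.1) (Ne.symm hy.1) hx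
  have hs : A ∪ A' ⊆ fib ε (i + 1) := by
    apply union_subset hall
    intro x hx
    obtain ⟨y, hy, rfl⟩ := mem_image.1 hx
    rw [mem_erase, mem_erase] at hy
    rw [mem_fib, map_add, map_add, mem_fib.1 (hall ha), mem_fib.1 (hall hb),
      mem_fib.1 (hall hy.2.2)]
    have : ∀ z : ZMod 2, z + z + z = z := by decide
    exact this _
  have := card_le_card hs
  rw [card_union_of_disjoint hd, hm] at this
  omega

/-- the small odd part -/
lemma small [IsAddCyclic G] {χ : G →+ ZMod 4} {m : ℕ} (hm : ∀ i, (fib χ i).card = 2 * m)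
    (hm5 : 5 ≤ m) (hmo : Odd m) {A : Finset G} (hw : Wsf A)
    (n0 : (cl χ A 0).Nonempty) (n2 : (cl χ A 2).Nonempty)
    (huv : 2 * m ≤ (cl χ A 0).card + (cl χ A 2).card) : False := by
  have hG : OneInv G := oneInv_of_cyclic
  have rel : ∀ i j : ZMod 4, i ≠ j → ∀ a ∈ cl χ A i, ∀ b ∈ cl χ A i, a ≠ b → ∀ c ∈ cl χ A j,
      a + b + c ∉ A := by
    intro i j hij a ha b hb hab c hc
    rw [mem_cl] at ha hb hc
    apply hw a ha.1 b hb.1 c hc.1 hab
    · rintro rfl; exact hij (ha.2.symm.trans hc.2)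
    · rintro rfl; exact hij (hb.2.symm.trans hc.2)
  -- size at most m + 1
  have bd : ∀ i j : ZMod 4, i ≠ j → -i = i → (cl χ A j).Nonempty → (cl χ A i).card ≤ m + 1 := by
    intro i j hij hi ⟨y, hy⟩
    have h1 : ∀ x ∈ cl χ A i, -x ∈ cl χ A i → x + x = 0 := by
      intro x hx hnx
      by_contra h
      have hne : x ≠ -x := by
        intro h2
        apply h
        nth_rw 1 [h2]
        exact neg_add_cancel x
      apply rel i j hij x hx _ hnx hne y hy
      rw [add_neg_cancel, zero_add]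
      exact (mem_cl.1 hy).1
    have h2 : (cl χ A i ∩ -cl χ A i).card ≤ 2 := by
      have h3 := IsAddCyclic.card_nsmul_eq_zero_le (α := G) (n := 2) (by norm_num)
      refine (card_le_card ?_).trans h3
      intro x hx
      rw [mem_inter, Finset.mem_neg'] at hx
      rw [mem_filter, two_nsmul]
      exact ⟨mem_univ _, h1 x hx.1 hx.2⟩
    have h3 := card_union_add_card_inter (cl χ A i) (-cl χ A i)
    rw [card_neg] at h3
    have h4 : (cl χ A i ∪ -cl χ A i).card ≤ 2 * m := by
      rw [← hm i]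
      apply card_le_card
      apply union_subset (cl_fib χ A i)
      have := neg_subset_fib (cl_fib χ A i)
      rwa [hi] at this
    omega
  have b0 := bd 0 2 (by decide) (by decide) n2
  have b2 := bd 2 0 (by decide) (by decide) n0
  -- Kneser
  set X := cl χ A 0 with hX
  set Y := cl χ A 2 with hY
  have hXf : X ⊆ fib χ 0 := cl_fib χ A 0
  have hYf : Y ⊆ fib χ 2 := cl_fib χ A 2
  have hd : Disjoint (Y + -Y) (rs2 X) := by
    rw [Finset.disjoint_left]
    intro x hx hy
    obtain ⟨c, hc, d, hd, hcd⟩ := Finset.mem_add.1 hx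
    rw [Finset.mem_neg'] at hd
    obtain ⟨a, ha, b, hb, hab, he⟩ := mem_rs2.1 hy
    apply rel 0 2 (by decide) a ha b hb hab (-d) hd
    have : a + b + -d = c := by rw [he, ← hcd]; abel
    rw [this]; exact (mem_cl.1 hc).1
  have hrX : rs2 X ⊆ fib χ 0 := by
    refine (rs2_subset X).trans ?_
    have := add_subset_fib hXf hXf
    rwa [add_zero] at this
  have hYY : Y + -Y ⊆ fib χ 0 := by
    have := add_subset_fib hYf (neg_subset_fib hYf)
    rwa [add_neg_cancel] at this
  have f := two_sets n2 n2.neg hYY hrX hd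
  rw [card_sat_neg, hm] at f
  set K := stab (Y + -Y) with hK
  have hr := rs2_sat_card K (oneInvQ K) (F := X) (by omega)
  have hKd : Nat.card K ∣ 2 * m := by
    rw [← hm 0, ← card_ker_eq]
    exact AddSubgroup.card_dvd_of_le f.1
  have k1 := card_le_sat K Y
  have k2 := card_le_sat K X
  have k3 := f.2
  have k4 := Nonempty.sat_card (K := K) n2
  have k5 := Nonempty.sat_card (K := K) n0
  obtain ⟨t, ht⟩ := hKd
  have hKm : Nat.card K = m := by
    have ht0 : t ≠ 0 := by
      rintro rfl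
      omega
    have ht1 : t ≠ 1 := by
      rintro rfl
      omega
    have ht3 : t < 3 := by
      by_contra hcon
      push Not at hcon
      have : Nat.card K * 3 ≤ 2 * m := by rw [ht]; exact Nat.mul_le_mul_left _ hcon
      omega
    have : t = 2 := by omega
    rw [this] at ht
    omega
  -- X is a coset of K
  have hXc : X.card = m := by omega
  have hYc : Y.card = m := by omega
  have hsX : (sat K X).card = m := by omega
  have hsY : (sat K Y).card = m := by omega
  have hYper : Per K Y :=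
    (eq_of_subset_of_card_le (subset_sat K Y) (by rw [hsY, hYc])).symm
  obtain ⟨a, ha, b, hb, hab⟩ := Finset.one_lt_card.1 (by omega : 1 < X.card)
  have hba : b - a ∈ K := by
    have h1 : cos K a = sat K X := by
      apply eq_of_subset_of_card_le (cos_subset_sat ha)
      rw [cos_card, hsX, hKm]
    rw [← mem_cos, h1]
    exact subset_sat K X hb
  have haa : a + a ∈ K := by
    have h1 := IsAddCyclic.card_nsmul_eq_zero_le (α := G) (n := m) (by omega)
    have h2 : cos K 0 ⊆ univ.filter (fun a : G => m • a = 0) := by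
      intro x hx
      rw [mem_cos, sub_zero] at hx
      rw [mem_filter]
      refine ⟨mem_univ _, ?_⟩
      have h4 : (Nat.card K) • (⟨x, hx⟩ : K) = 0 := card_nsmul_eq_zero'
      rw [hKm] at h4
      exact congrArg Subtype.val h4
    have h3 : cos K 0 = univ.filter (fun a : G => m • a = 0) := by
      apply eq_of_subset_of_card_le h2
      rw [cos_card, hKm]; exact h1
    have h4 : a + a ∈ cos K 0 := by
      rw [h3, mem_filter]
      refine ⟨mem_univ _, ?_⟩
      have h5 : Nat.card χ.ker = 2 * m := by rw [card_ker_eq, hm]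
      have h6 : (Nat.card χ.ker) • (⟨a, (mem_fib.1 (hXf ha))⟩ : χ.ker) = 0 :=
        card_nsmul_eq_zero'
      rw [h5] at h6
      have h7 : (2 * m) • a = 0 := congrArg Subtype.val h6
      rw [← two_nsmul, ← mul_nsmul]
      exact h7
    rw [mem_cos, sub_zero] at h4
    exact h4
  obtain ⟨c, hc⟩ := n2
  apply rel 0 2 (by decide) a ha b hb hab c hc
  have : a + b + c ∈ Y := by
    apply hYper.mem_of_sub_mem hc
    have : a + b + c - c = (a + a) + (b - a) := by abel
    rw [this]; exact K.add_mem haa hba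
  exact (mem_cl.1 this).1

theorem step2 [IsAddCyclic G] {χ : G →+ ZMod 4} {m : ℕ} (hm : ∀ i, (fib χ i).card = 2 * m)
    (hm5 : 5 ≤ m) (hmo : Odd m) {A : Finset G} (hA : A.card = 2 * m + 2) (hw : Wsf A)
    (hP : (A.filter fun x => (red.comp χ) x = 0).Nonempty)
    (hR : (A.filter fun x => (red.comp χ) x = 1).Nonempty)
    (hS : ∀ H : AddSubgroup G, H ≤ (red.comp χ).ker → 2 * m + Nat.card H < (sat H A).card) :
    ∀ i, (cl χ A i).Nonempty := by
  obtain ⟨hcard, hsat⟩ := split_cl χ A
  have hFE : χ.ker ≤ (red.comp χ).ker := by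
    intro x hx
    have : χ x = 0 := hx
    show red (χ x) = 0
    rw [this, map_zero]
  have hPc : (cl χ A 0).Nonempty ∨ (cl χ A 2).Nonempty := by
    obtain ⟨x, hx⟩ := hP
    rw [mem_filter] at hx
    rcases (red_zero_iff _).1 hx.2 with h | h
    · left; exact ⟨x, mem_cl.2 ⟨hx.1, h⟩⟩
    · right; exact ⟨x, mem_cl.2 ⟨hx.1, h⟩⟩
  have hRc : (cl χ A 1).Nonempty ∨ (cl χ A 3).Nonempty := by
    obtain ⟨x, hx⟩ := hR
    rw [mem_filter] at hx
    rcases (red_one_iff _).1 hx.2 with h | h
    · left; exact ⟨x, mem_cl.2 ⟨hx.1, h⟩⟩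
    · right; exact ⟨x, mem_cl.2 ⟨hx.1, h⟩⟩
  have hsle : ∀ i, (sat χ.ker (cl χ A i)).card ≤ 2 * m := by
    intro i
    rw [← hm i]
    exact card_le_card (sat_subset_fib le_rfl (cl_fib χ A i))
  have hempty : ∀ i, ¬ (cl χ A i).Nonempty → ∀ K : AddSubgroup G, (sat K (cl χ A i)).card = 0 := by
    intro i hi K
    rw [not_nonempty_iff_eq_empty] at hi
    rw [hi, card_eq_zero]
    ext x
    simp [mem_sat]
  have hSF := hS χ.ker hFE
  rw [card_ker_eq, hm, hsat _ le_rfl] at hSF
  have hempty0 : ∀ i, ¬ (cl χ A i).Nonempty → (cl χ A i).card = 0 := by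
    intro i hi
    rw [not_nonempty_iff_eq_empty] at hi
    rw [hi, card_empty]
  have s0 := hsle 0
  have s1 := hsle 1
  have s2 := hsle 2
  have s3 := hsle 3
  -- at most one class missing
  have two : ∀ i j : ZMod 4, i ≠ j → (cl χ A i).Nonempty ∨ (cl χ A j).Nonempty := by
    intro i j hij
    by_contra hcon
    push Not at hcon
    have e1 := hempty i (by rw [hcon.1]; exact not_nonempty_empty) χ.ker
    have e2 := hempty j (by rw [hcon.2]; exact not_nonempty_empty) χ.ker
    have h4 : ∀ z : ZMod 4, z = 0 ∨ z = 1 ∨ z = 2 ∨ z = 3 := by decide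
    rcases h4 i with rfl | rfl | rfl | rfl <;> rcases h4 j with rfl | rfl | rfl | rfl <;>
      first
      | exact absurd rfl hij
      | omega
  have rel : ∀ i j k : ZMod 4, i ≠ j → i ≠ k → j ≠ k → ∀ a ∈ cl χ A i, ∀ b ∈ cl χ A j,
      ∀ c ∈ cl χ A k, a + b + c ∉ A := by
    intro i j k hij hik hjk a ha b hb c hc
    rw [mem_cl] at ha hb hc
    apply hw a ha.1 b hb.1 c hc.1
    · rintro rfl; exact hij (ha.2.symm.trans hb.2)
    · rintro rfl; exact hik (ha.2.symm.trans hc.2)
    · rintro rfl; exact hjk (hb.2.symm.trans hc.2)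
  -- an even class missing
  have even : ∀ i j : ZMod 4, i = 0 ∧ j = 2 ∨ i = 2 ∧ j = 0 → (cl χ A i).Nonempty := by
    intro i j hij
    by_contra hi
    have hijne : i ≠ j := by rcases hij with ⟨rfl, rfl⟩ | ⟨rfl, rfl⟩ <;> decide
    have n1 : (cl χ A 1).Nonempty := (two i 1 (by rcases hij with ⟨rfl, rfl⟩ | ⟨rfl, rfl⟩ <;> decide)).resolve_left hi
    have n3 : (cl χ A 3).Nonempty := (two i 3 (by rcases hij with ⟨rfl, rfl⟩ | ⟨rfl, rfl⟩ <;> decide)).resolve_left hi
    have nj : (cl χ A j).Nonempty := (two i j hijne).resolve_left hi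
    have j1 : (1 : ZMod 4) ≠ j := by rcases hij with ⟨rfl, rfl⟩ | ⟨rfl, rfl⟩ <;> decide
    have j3 : (3 : ZMod 4) ≠ j := by rcases hij with ⟨rfl, rfl⟩ | ⟨rfl, rfl⟩ <;> decide
    have f := four n1 n3 nj (χ := χ) (i := j) (D := cl χ A j) (by
      have := add_subset_fib (add_subset_fib (cl_fib χ A 1) (cl_fib χ A 3)) (cl_fib χ A j)
      have e : (1 : ZMod 4) + 3 + j = j := by
        have : (1 : ZMod 4) + 3 = 0 := by decide
        rw [this, zero_add]
      rwa [e] at this) (cl_fib χ A j)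
      (fun a ha b hb c hc h => rel 1 3 j (by decide) j1 j3 a ha b hb c hc (mem_cl.1 h).1)
    set K := stab (cl χ A 1 + cl χ A 3 + cl χ A j) with hK
    rw [hm] at f
    have h1 := hS K (f.1.trans hFE)
    rw [hsat K f.1] at h1
    have h2 := hempty i hi K
    have h3 := Nonempty.sat_card (K := K) nj
    have h4 := f.2
    rcases hij with ⟨rfl, rfl⟩ | ⟨rfl, rfl⟩ <;> omega
  have n0 := even 0 2 (Or.inl ⟨rfl, rfl⟩)
  have n2 := even 2 0 (Or.inr ⟨rfl, rfl⟩)
  -- an odd class missing
  have odd : ∀ i j : ZMod 4, i = 1 ∧ j = 3 ∨ i = 3 ∧ j = 1 → (cl χ A i).Nonempty := by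
    intro i j hij
    by_contra hi
    have hijne : i ≠ j := by rcases hij with ⟨rfl, rfl⟩ | ⟨rfl, rfl⟩ <;> decide
    have nj : (cl χ A j).Nonempty := (two i j hijne).resolve_left hi
    have jj : j + j = 2 := by rcases hij with ⟨rfl, rfl⟩ | ⟨rfl, rfl⟩ <;> decide
    have j0 : j ≠ 0 := by rcases hij with ⟨rfl, rfl⟩ | ⟨rfl, rfl⟩ <;> decide
    have hi0 := hempty0 i hi
    by_cases hw3 : 3 ≤ (cl χ A j).card
    · have hd : Disjoint (cl χ A 0 + -cl χ A 2) (rs2 (cl χ A j)) := by
        rw [Finset.disjoint_left]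
        intro x hx hy
        obtain ⟨c, hc, d, hd, hcd⟩ := Finset.mem_add.1 hx
        rw [Finset.mem_neg'] at hd
        obtain ⟨a, ha, b, hb, hab, he⟩ := mem_rs2.1 hy
        rw [mem_cl] at ha hb hc hd
        have j2 : j ≠ 2 := by rcases hij with ⟨rfl, rfl⟩ | ⟨rfl, rfl⟩ <;> decide
        apply hw a ha.1 b hb.1 (-d) hd.1 hab
        · rintro rfl; exact j2 (ha.2.symm.trans hd.2)
        · rintro rfl; exact j2 (hb.2.symm.trans hd.2)
        · have : a + b + -d = c := by rw [he, ← hcd]; abel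
          rw [this]; exact hc.1
      have f := two_sets n0 n2.neg (χ := χ) (i := 2) (D := rs2 (cl χ A j)) (by
        have := add_subset_fib (cl_fib χ A 0) (neg_subset_fib (cl_fib χ A 2))
        have e : (0 : ZMod 4) + -2 = 2 := by decide
        rwa [e] at this) (by
        refine (rs2_subset _).trans ?_
        have := add_subset_fib (cl_fib χ A j) (cl_fib χ A j)
        rwa [jj] at this) hd
      set K := stab (cl χ A 0 + -cl χ A 2) with hK
      have hr := rs2_sat_card K (oneInvQ K) hw3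
      rw [hm, card_sat_neg] at f
      have h1 := hS K (f.1.trans hFE)
      rw [hsat K f.1] at h1
      have h2 := hempty i hi K
      have h4 := f.2
      rcases hij with ⟨rfl, rfl⟩ | ⟨rfl, rfl⟩ <;> omega
    · apply small hm hm5 hmo hw n0 n2
      rcases hij with ⟨rfl, rfl⟩ | ⟨rfl, rfl⟩ <;> omega
  have n1 := odd 1 3 (Or.inl ⟨rfl, rfl⟩)
  have n3 := odd 3 1 (Or.inr ⟨rfl, rfl⟩)
  intro i
  have h4 : ∀ z : ZMod 4, z = 0 ∨ z = 1 ∨ z = 2 ∨ z = 3 := by decide
  rcases h4 i with rfl | rfl | rfl | rfl <;> assumption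

end
end Pool.Agent.WSF
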