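import Pool.Agent.WSF.Step12

/-!
# The upper bound
-/

open Finset Pointwise

namespace Pool.Agent.WSF

universe u v

section
variable {G : Type u} [AddCommGroup G] [Fintype G] [DecidableEq G]

theorem upper [IsAddCyclic G] {χ : G →+ ZMod 4} {m : ℕ} (hm : ∀ i, (fib χ i).card = 2 * m)
    (hm5 : 5 ≤ m) (hdiv : ∀ d, d ∣ m → d % 4 = 1)
    {A : Finset G} (hA : A.card = 2 * m + 2) (hw : Wsf A) : False := by
  have hm0 : 0 < m := by omega
  have hmo : Odd m := by
    rw [Nat.odd_iff]
    have := hdiv m dvd_rfl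
    omega
  have hE : ∀ i, (fib (red.comp χ) i).card = 2 * (2 * m) := card_fib_red hm
  have hP := step1 hE hm0 hA hw 0
  have hR := step1 hE hm0 hA hw 1
  have hS := step0 hm hm0 hdiv hA hw hP hR
  have hcl := step2 hm hm5 hmo hA hw hP hR hS
  obtain ⟨H, ⟨hHF, hHA⟩, hmax⟩ := exists_max
    (p := fun H : AddSubgroup G => H ≤ χ.ker ∧ (sat H A).card ≤ 2 * m + 2 * Nat.card H)
    ⟨⊥, bot_le, by rw [sat_bot, hA, card_bot']⟩
  have hFE : χ.ker ≤ (red.comp χ).ker := by
    intro x hx
    have : χ x = 0 := hx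
    show red (χ x) = 0
    rw [this, map_zero]
  classical
  haveI : Fintype (G ⧸ H) := Fintype.ofFinite _
  haveI : IsAddCyclic (G ⧸ H) := quot_cyclic H
  have hG : OneInv G := oneInv_of_cyclic
  have hQ : OneInv (G ⧸ H) := oneInv_of_cyclic
  set C := im H A with hC
  set h := Nat.card H with hh
  have hhpos : 0 < h := card_pos' H
  have hsum := sum_fc (H := H) A
  rw [← hC, hA] at hsum
  have hCc : (sat H A).card = h * C.card := card_sat_im A
  have hfh := fc_card_le (H := H) A
  rw [← hh] at hfh
  have hdvd : h ∣ 2 * m := by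
    rw [← hm 0, ← card_ker_eq]
    exact AddSubgroup.card_dvd_of_le hHF
  obtain ⟨N, hN⟩ := hdvd
  have hCN : C.card = N + 2 := by
    have u1 : C.card ≤ N + 2 := by
      have : h * C.card ≤ h * (N + 2) := by
        have e2 : h * (N + 2) = 2 * m + 2 * h := by rw [hN]; ring
        rw [e2, ← hCc]; exact hHA
      exact Nat.le_of_mul_le_mul_left this hhpos
    have u2 : N + 1 < C.card := by
      have k1 := hS H (hHF.trans hFE)
      rw [hCc] at k1
      have : h * (N + 1) < h * C.card := by
        have e2 : h * (N + 1) = 2 * m + h := by rw [hN]; ring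
        rw [e2]; exact k1
      exact Nat.lt_of_mul_lt_mul_left this
    omega
  have hsum' : ∑ q ∈ C, (fc H A q).card = h * N + 2 := by rw [hsum, hN]
  have hχQ : ∀ i, (fib (dn χ hHF) i).card = N := by
    intro i
    have h1 := fib_dn χ hHF i
    rw [hm, ← hh, hN] at h1
    exact (Nat.eq_of_mul_eq_mul_left hhpos h1).symm
  have hne : ∀ i, (cl (dn χ hHF) C i).Nonempty := by
    intro i
    obtain ⟨x, hx⟩ := hcl i
    rw [mem_cl] at hx
    exact ⟨QuotientAddGroup.mk' H x, mem_cl.2 ⟨mem_im.2 ⟨x, hx.1, rfl⟩, hx.2⟩⟩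
  -- N ≥ 2
  have hN2 : 2 ≤ N := by
    obtain ⟨hcard, -⟩ := split_cl (dn χ hHF) C
    have n0 := (hne 0).card_pos
    have n1 := (hne 1).card_pos
    have n2 := (hne 2).card_pos
    have n3 := (hne 3).card_pos
    omega
  have hholes := fun (S : Finset (G ⧸ H)) (hS : S ⊆ C) => holes hCN hfh hsum' hS
  have hfree : ∀ a ∈ C, ∀ b ∈ C, ∀ c ∈ C, a ≠ b → a ≠ c → b ≠ c → a + b + c ∉ C := by
    intro a ha b hb c hc hab hac hbc hd
    have t1 := tr3 hw ha hb hc hd hab hac hbc
    rw [← hh] at t1
    by_cases hda : a + b + c = a ∨ a + b + c = b ∨ a + b + c = c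
    · -- two opposite cosets
      obtain ⟨x, hx, y, hy, hxy, hxy0⟩ : ∃ x ∈ C, ∃ y ∈ C, x ≠ y ∧ x + y = 0 := by
        rcases hda with h1 | h1 | h1
        · refine ⟨b, hb, c, hc, hbc, ?_⟩
          rw [add_assoc] at h1
          exact add_eq_left.1 h1
        · refine ⟨a, ha, c, hc, hac, ?_⟩
          have : a + b + c = a + c + b := by abel
          rw [this] at h1
          exact add_eq_right.1 h1
        · exact ⟨a, ha, b, hb, hab, add_eq_right.1 h1⟩
      have key : ∀ z ∈ (C.erase x).erase y, 2 * (fc H A z).card ≤ h ∧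
          (fc H A x).card + (fc H A y).card ≤ h := by
        intro z hz
        rw [mem_erase, mem_erase] at hz
        have he : x + y + z = z := by rw [hxy0, zero_add]
        have := tr3 hw hx hy hz.2.2 (by rw [he]; exact hz.2.2) hxy (Ne.symm hz.2.1)
          (Ne.symm hz.1)
        rw [he, ← hh] at this
        omega
      have hcardE : ((C.erase x).erase y).card = N := by
        rw [card_erase_of_mem (mem_erase.2 ⟨Ne.symm hxy, hy⟩), card_erase_of_mem hx, hCN]
        omega
      have h1 : ∑ z ∈ (C.erase x).erase y, 2 * (fc H A z).card ≤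
          ((C.erase x).erase y).card * h := by
        rw [← smul_eq_mul (b := h)]
        exact Finset.sum_le_card_nsmul _ _ _ (fun z hz => (key z hz).1)
      rw [← Finset.mul_sum, hcardE] at h1
      have h2 := Finset.add_sum_erase C (fun q => (fc H A q).card) hx
      have h3 := Finset.add_sum_erase (C.erase x) (fun q => (fc H A q).card)
        (mem_erase.2 ⟨Ne.symm hxy, hy⟩)
      rw [hsum'] at h2
      obtain ⟨z, hz⟩ := card_pos.1 (by omega : 0 < ((C.erase x).erase y).card)
      have h4 := (key z hz).2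
      have h5 : 2 * (h * N + 2) ≤ 2 * h + N * h := by omega
      nlinarith
    · push Not at hda
      have hS : ({a, b, c, a + b + c} : Finset (G ⧸ H)) ⊆ C := by
        intro z hz
        simp only [mem_insert, mem_singleton] at hz
        rcases hz with rfl | rfl | rfl | rfl <;> assumption
      have hh1 := hholes _ hS
      have hx' : a ∉ ({b, c, a + b + c} : Finset (G ⧸ H)) := by
        simp only [mem_insert, mem_singleton, not_or]
        exact ⟨hab, hac, Ne.symm hda.1⟩
      have hy' : b ∉ ({c, a + b + c} : Finset (G ⧸ H)) := by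
        simp only [mem_insert, mem_singleton, not_or]
        exact ⟨hbc, Ne.symm hda.2.1⟩
      have hz' : c ∉ ({a + b + c} : Finset (G ⧸ H)) := by
        rw [mem_singleton]
        exact Ne.symm hda.2.2
      rw [card_insert_of_notMem hx', card_insert_of_notMem hy', card_insert_of_notMem hz',
        card_singleton, sum_insert hx', sum_insert hy', sum_insert hz', sum_singleton] at hh1
      omega
  have hB : ∀ K : AddSubgroup (G ⧸ H), K ≤ (dn χ hHF).ker → K ≠ ⊥ →
      N + 2 * Nat.card K < (sat K C).card := by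
    intro K hK hKne
    by_contra hcon
    push Not at hcon
    apply hmax _ (lt_comap hKne)
    refine ⟨comap_le_ker hK, ?_⟩
    rw [sat_comap, card_comap, ← hC, ← hh]
    calc h * (sat K C).card ≤ h * (N + 2 * Nat.card K) := Nat.mul_le_mul_left _ hcon
      _ = 2 * m + 2 * (h * Nat.card K) := by rw [hN]; ring
  have hB0 : ∀ K : AddSubgroup (G ⧸ H), K ≤ (red.comp (dn χ hHF)).ker →
      N + Nat.card K < (sat K C).card := by
    intro K hK
    have hKE : K.comap (QuotientAddGroup.mk' H) ≤ (red.comp χ).ker := by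
      intro x hx
      exact hK (show QuotientAddGroup.mk' H x ∈ K from hx)
    have h1 := hS _ hKE
    rw [sat_comap, card_comap, ← hC, ← hh] at h1
    have e2 : h * (N + Nat.card K) = 2 * m + h * Nat.card K := by
      rw [hN]; ring
    rw [← e2] at h1
    exact Nat.lt_of_mul_lt_mul_left h1
  obtain ⟨hNodd, -⟩ := stepC hQ hχQ hCN hne hfree hB
  have hN3 : 3 ≤ N := by
    obtain ⟨t, ht⟩ := hNodd
    omega
  have hh2 : Odd N → 2 ≤ h := by
    intro hNo
    by_contra hcon
    have h1 : h = 1 := by omega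
    rw [h1, one_mul] at hN
    rw [← hN] at hNo
    exact (Nat.not_odd_iff_even.2 (even_two_mul m)) hNo
  refine stepD (f := fun q => (fc H A q).card) hQ oneInvQ hχQ hN3 hh2 hCN hne
    (fun x hx => fc_pos hx) hfh hsum' hfree hB hB0 (trD1 hG hw) (trD2 hw) ?_
  intro h2
  exact trD3 hG hw h2

end
end Pool.Agent.WSF
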