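import Pool.Agent.WSF.Final

/-!
# Case of a strong near-period: contradiction in the quotient
-/

open Finset Pointwise

namespace Pool.Agent.WSF

universe u v

section
variable {Q : Type u} [AddCommGroup Q] [Fintype Q] [DecidableEq Q]
variable {R : Type v} [AddCommGroup R] [DecidableEq R]

lemma even_of_inv {S : Finset Q} (g : Q → Q) (h1 : ∀ x ∈ S, g x ∈ S) (h2 : ∀ x, g (g x) = x)
    (h3 : ∀ x ∈ S, g x ≠ x) : Even S.card := by
  have h4 : ∑ x ∈ S, (1 : ZMod 2) = 0 := by
    apply Finset.sum_involution (fun a _ => g a)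
    · intro a ha; decide
    · intro a ha _; exact h3 a ha
    · intro a ha; exact h1 a ha
    · intro a ha; exact h2 a
  rw [Finset.sum_const, nsmul_eq_mul, mul_one] at h4
  rw [← ZMod.natCast_eq_zero_iff_even]
  exact h4

lemma no_inv {χ : Q →+ R} (hodd : Odd (fib χ 0).card) {x : Q} (hx : χ x = 0)
    (h2 : x + x = 0) : x = 0 := by
  by_contra hne
  have : Even (fib χ 0).card := by
    apply even_of_inv (fun y => y + x)
    · intro y hy
      rw [mem_fib] at hy ⊢
      rw [map_add, hy, hx, add_zero]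
    · intro y
      rw [add_assoc, h2, add_zero]
    · intro y _ h
      rw [add_eq_left] at h
      exact hne h
  exact (Nat.not_even_iff_odd.2 hodd) this

lemma aper {χ : Q →+ R} {e : ℕ} (he : ∀ i, (fib χ i).card = e) {X Y : Finset Q} {i j : R}
    (hi : i + i = 0) (hX : X ⊆ fib χ i) (hY : Y ⊆ fib χ j) (hXn : X.Nonempty)
    (hYn : Y.Nonempty) (hd : ∀ a ∈ X, ∀ b ∈ X, ∀ c ∈ Y, a + b + c ∉ Y)
    (hB : ∀ K : AddSubgroup Q, K ≤ χ.ker → K ≠ ⊥ →
      e + 2 * Nat.card K < 2 * (sat K X).card + 2 * (sat K Y).card) :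
    stab (X + X) = ⊥ ∧ stab (Y + -Y) = ⊥ := by
  constructor
  · have s1 : X + X + Y ⊆ fib χ j := by
      have := add_subset_fib (add_subset_fib hX hX) hY
      rwa [hi, zero_add] at this
    have f := four hXn hXn hYn s1 hY hd
    rw [he] at f
    have hK : stab (X + X + Y) = ⊥ := by
      by_contra hne
      have := hB _ f.1 hne
      have := f.2
      omega
    exact le_bot_iff.1 (by rw [← hK]; exact stab_le_add _ _)
  · have hneg : -i = i := neg_eq_of_add_eq_zero_left hi
    have s2 : Y + -Y + -X ⊆ fib χ i := by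
      have := add_subset_fib (add_subset_fib hY (neg_subset_fib hY)) (neg_subset_fib hX)
      rwa [add_neg_cancel, zero_add, hneg] at this
    have f := four hYn hYn.neg hXn.neg s2 hX (by
      intro a ha b hb c hc h
      rw [Finset.mem_neg'] at hb hc
      apply hd _ h _ hc _ hb
      have : a + b + c + -c + -b = a := by abel
      rwa [this])
    rw [he, card_sat_neg, card_sat_neg] at f
    have hK : stab (Y + -Y + -X) = ⊥ := by
      by_contra hne
      have := hB _ f.1 hne
      have := f.2
      omega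
    exact le_bot_iff.1 (by rw [← hK]; exact stab_le_add _ _)

/-- split along the parity -/
lemma split_par {ε : Q →+ ZMod 2} (C : Finset Q) :
    C.card = (C.filter fun x => ε x = 0).card + (C.filter fun x => ε x = 1).card ∧
    ∀ K : AddSubgroup Q, K ≤ ε.ker → (sat K C).card =
      (sat K (C.filter fun x => ε x = 0)).card + (sat K (C.filter fun x => ε x = 1)).card := by
  have h01 : ∀ z : ZMod 2, z = 0 ∨ z = 1 := by decide
  have hun : C = (C.filter fun x => ε x = 0) ∪ (C.filter fun x => ε x = 1) := by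
    ext x
    rw [mem_union, mem_filter, mem_filter]
    constructor
    · intro hx
      rcases h01 (ε x) with h | h
      · left; exact ⟨hx, h⟩
      · right; exact ⟨hx, h⟩
    · rintro (h | h)
      · exact h.1
      · exact h.1
  have hsub : ∀ i : ZMod 2, (C.filter fun x => ε x = i) ⊆ fib ε i := by
    intro i x hx
    exact mem_fib.2 (mem_filter.1 hx).2
  constructor
  · conv_lhs => rw [hun]
    apply card_union_of_disjoint
    rw [Finset.disjoint_left]
    intro x hx hy
    have h1 := (mem_filter.1 hx).2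
    have h2 := (mem_filter.1 hy).2
    rw [h1] at h2
    exact absurd h2 (by decide)
  · intro K hK
    conv_lhs => rw [hun]
    rw [sat_union]
    apply card_union_of_disjoint
    exact sat_disjoint_of_fib hK (hsub 0) (hsub 1) (by decide)

/-- quotient of order `2 M`, `M ≡ 1 mod 4` -/
theorem stepT1 {ε : Q →+ ZMod 2} {M : ℕ} (hM : ∀ i, (fib ε i).card = M) (hM4 : M % 4 = 1)
    {C : Finset Q} (hC : 2 * C.card = M + 1)
    (hP : (C.filter fun x => ε x = 0).Nonempty) (hR : (C.filter fun x => ε x = 1).Nonempty)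
    (hfree : ∀ a ∈ C, ∀ b ∈ C, ∀ c ∈ C, a + b + c ∉ C)
    (hB : ∀ K : AddSubgroup Q, K ≤ ε.ker → K ≠ ⊥ → M + 2 * Nat.card K < 2 * (sat K C).card) :
    False := by
  obtain ⟨hcard, hsat⟩ := split_par (ε := ε) C
  set P := C.filter fun x => ε x = 0 with hPdef
  set R := C.filter fun x => ε x = 1 with hRdef
  have hPs : P ⊆ fib ε 0 := fun x hx => mem_fib.2 (mem_filter.1 hx).2
  have hRs : R ⊆ fib ε 1 := fun x hx => mem_fib.2 (mem_filter.1 hx).2
  have hPC : P ⊆ C := filter_subset _ _
  have hRC : R ⊆ C := filter_subset _ _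
  have h11 : (1 : ZMod 2) + 1 = 0 := by decide
  have a1 := aper hM (i := 0) (j := 1) (by simp) hPs hRs hP hR
    (fun a ha b hb c hc h => hfree a (hPC ha) b (hPC hb) c (hRC hc) (hRC h)) (by
      intro K hK hne
      have h1 := hB K hK hne
      have h2 := hsat K hK
      omega)
  have a2 := aper hM (i := 1) (j := 0) h11 hRs hPs hR hP
    (fun a ha b hb c hc h => hfree a (hRC ha) b (hRC hb) c (hPC hc) (hPC h)) (by
      intro K hK hne
      have h1 := hB K hK hne
      have h2 := hsat K hK
      omega)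
  have key : ∀ (X : Finset Q) (i : ZMod 2), X ⊆ C → X ⊆ fib ε i → X.Nonempty →
      stab (X + X) = ⊥ → stab (X + -X) = ⊥ → 4 * X.card ≤ M + 2 := by
    intro X i hXC hXf hXn s1 s2
    have k1 := kneser_bot hXn hXn s1
    have k2 := kneser_bot hXn hXn.neg s2
    rw [card_neg] at k2
    have hii : ∀ i : ZMod 2, i + i = 0 := by decide
    have hii' : ∀ i : ZMod 2, i + -i = 0 := by decide
    have hd : Disjoint (X + X) (X + -X) := by
      rw [Finset.disjoint_left]
      intro x hx hy
      obtain ⟨a, ha, b, hb, rfl⟩ := Finset.mem_add.1 hx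
      obtain ⟨c, hc, d, hd, hcd⟩ := Finset.mem_add.1 hy
      rw [Finset.mem_neg'] at hd
      apply hfree a (hXC ha) b (hXC hb) (-d) (hXC hd)
      rw [← hcd]
      have : c + d + -d = c := by abel
      rw [this]; exact hXC hc
    have h1 : (X + X) ∪ (X + -X) ⊆ fib ε 0 := by
      apply union_subset
      · have := add_subset_fib hXf hXf
        rwa [hii] at this
      · have := add_subset_fib hXf (neg_subset_fib hXf)
        rwa [hii'] at this
    have h2 := card_le_card h1
    rw [card_union_of_disjoint hd, hM] at h2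
    omega
  have kP := key P 0 hPC hPs hP a1.1 a2.2
  have kR := key R 1 hRC hRs hR a2.1 a1.2
  omega

lemma pig {Λ X : Finset Q} {τ : Q} (hτ : τ + τ = 0) (hXΛ : X ⊆ Λ) (hΛ : ∀ x ∈ Λ, x + τ ∈ Λ)
    (hX : ∀ x ∈ X, x + τ ∉ X) (g : Q ≃ Q) (hg : ∀ x, g (x + τ) = g x + τ)
    (hgΛ : ∀ x ∈ Λ, g.symm x ∈ Λ) :
    4 * X.card ≤ Λ.card + 2 * ((X.filter fun a => g a ∈ X).card +
      (X.filter fun a => g a + τ ∈ X).card) := by
  have two : ∀ y : Q, y + τ + τ = y := by intro y; rw [add_assoc, hτ, add_zero]
  set Xh := X ∪ X.image (fun y => y + τ) with hXh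
  have hdis : Disjoint X (X.image (fun y => y + τ)) := by
    rw [Finset.disjoint_left]
    intro x hx hx2
    obtain ⟨y, hy, rfl⟩ := mem_image.1 hx2
    exact hX y hy hx
  have hXhc : Xh.card = 2 * X.card := by
    rw [hXh, card_union_of_disjoint hdis, card_image_of_injective _ (add_left_injective τ)]
    ring
  have mXh : ∀ y, y ∈ Xh ↔ y ∈ X ∨ y + τ ∈ X := by
    intro y
    rw [hXh, mem_union, mem_image]
    constructor
    · rintro (h | ⟨z, hz, rfl⟩)
      · left; exact h
      · right; rw [two]; exact hz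
    · rintro (h | h)
      · left; exact h
      · right; exact ⟨y + τ, h, two y⟩
  have hXhΛ : Xh ⊆ Λ := by
    intro y hy
    rcases (mXh y).1 hy with h | h
    · exact hXΛ h
    · have := hΛ _ (hXΛ h)
      rwa [two] at this
  have hXhτ : ∀ y, y + τ ∈ Xh ↔ y ∈ Xh := by
    intro y
    rw [mXh, mXh, two, or_comm]
  set W := Xh.image g.symm with hW
  have hWc : W.card = 2 * X.card := by
    rw [hW, card_image_of_injective _ g.symm.injective, hXhc]
  have mW : ∀ y, y ∈ W ↔ g y ∈ Xh := by
    intro y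
    rw [hW, mem_image]
    constructor
    · rintro ⟨z, hz, rfl⟩
      rwa [Equiv.apply_symm_apply]
    · intro h
      exact ⟨g y, h, by simp⟩
  have hWΛ : W ⊆ Λ := by
    intro y hy
    obtain ⟨z, hz, rfl⟩ := mem_image.1 hy
    exact hgΛ z (hXhΛ hz)
  have h1 := card_union_add_card_inter Xh W
  have h2 : (Xh ∪ W).card ≤ Λ.card := card_le_card (union_subset hXhΛ hWΛ)
  have h3 : (Xh ∩ W).card ≤ 2 * (X ∩ W).card := by
    have : Xh ∩ W ⊆ (X ∩ W) ∪ (X ∩ W).image (fun y => y + τ) := by
      intro y hy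
      rw [mem_inter] at hy
      rcases (mXh y).1 hy.1 with h | h
      · exact mem_union_left _ (mem_inter.2 ⟨h, hy.2⟩)
      · apply mem_union_right
        refine mem_image.2 ⟨y + τ, mem_inter.2 ⟨h, ?_⟩, two y⟩
        rw [mW, hg, hXhτ]
        exact (mW y).1 hy.2
    have h4 := card_le_card this
    have h5 := card_union_le (X ∩ W) ((X ∩ W).image (fun y => y + τ))
    have h6 : ((X ∩ W).image (fun y => y + τ)).card ≤ (X ∩ W).card := card_image_le
    omega
  have h7 : (X ∩ W).card ≤ (X.filter fun a => g a ∈ X).card +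
      (X.filter fun a => g a + τ ∈ X).card := by
    refine (card_le_card ?_).trans (card_union_le _ _)
    intro y hy
    rw [mem_inter, mW, mXh] at hy
    rw [mem_union, mem_filter, mem_filter]
    rcases hy.2 with h | h
    · left; exact ⟨hy.1, h⟩
    · right; exact ⟨hy.1, h⟩
  omega

end
end Pool.Agent.WSF
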