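import Pool.Agent.WSF.StepT2

/-!
# Case of a weak near-period in the four class system
-/

open Finset Pointwise

namespace Pool.Agent.WSF

universe u v

section
variable {Q : Type u} [AddCommGroup Q] [Fintype Q] [DecidableEq Q]

/-- class `i` of `C` -/
def cl (χ : Q →+ ZMod 4) (C : Finset Q) (i : ZMod 4) : Finset Q := C.filter fun x => χ x = i

lemma mem_cl {χ : Q →+ ZMod 4} {C : Finset Q} {i : ZMod 4} {x : Q} :
    x ∈ cl χ C i ↔ x ∈ C ∧ χ x = i := by simp [cl]

lemma cl_subset (χ : Q →+ ZMod 4) (C : Finset Q) (i : ZMod 4) : cl χ C i ⊆ C :=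
  filter_subset _ _

lemma cl_fib (χ : Q →+ ZMod 4) (C : Finset Q) (i : ZMod 4) : cl χ C i ⊆ fib χ i :=
  fun _ hx => mem_fib.2 (mem_cl.1 hx).2

lemma split_cl (χ : Q →+ ZMod 4) (C : Finset Q) :
    C.card = (cl χ C 0).card + (cl χ C 1).card + (cl χ C 2).card + (cl χ C 3).card ∧
    ∀ K : AddSubgroup Q, K ≤ χ.ker → (sat K C).card =
      (sat K (cl χ C 0)).card + (sat K (cl χ C 1)).card + (sat K (cl χ C 2)).card +
        (sat K (cl χ C 3)).card := by
  have h4 : ∀ z : ZMod 4, z = 0 ∨ z = 1 ∨ z = 2 ∨ z = 3 := by decide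
  have key : ∀ K : AddSubgroup Q, K ≤ χ.ker → (sat K C).card =
      (sat K (cl χ C 0)).card + (sat K (cl χ C 1)).card + (sat K (cl χ C 2)).card +
        (sat K (cl χ C 3)).card := by
    intro K hK
    have hun : C = ((cl χ C 0 ∪ cl χ C 1) ∪ cl χ C 2) ∪ cl χ C 3 := by
      ext x
      simp only [mem_union, mem_cl]
      have := h4 (χ x)
      tauto
    have d01 := sat_disjoint_of_fib hK (cl_fib χ C 0) (cl_fib χ C 1) (by decide)
    have d02 := sat_disjoint_of_fib hK (cl_fib χ C 0) (cl_fib χ C 2) (by decide)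
    have d12 := sat_disjoint_of_fib hK (cl_fib χ C 1) (cl_fib χ C 2) (by decide)
    have d03 := sat_disjoint_of_fib hK (cl_fib χ C 0) (cl_fib χ C 3) (by decide)
    have d13 := sat_disjoint_of_fib hK (cl_fib χ C 1) (cl_fib χ C 3) (by decide)
    have d23 := sat_disjoint_of_fib hK (cl_fib χ C 2) (cl_fib χ C 3) (by decide)
    conv_lhs => rw [hun]
    rw [sat_union, sat_union, sat_union, card_union_of_disjoint, card_union_of_disjoint,
      card_union_of_disjoint d01]
    · rw [disjoint_union_left]; exact ⟨d02, d12⟩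
    · rw [disjoint_union_left, disjoint_union_left]; exact ⟨⟨d03, d13⟩, d23⟩
  refine ⟨?_, key⟩
  have := key ⊥ bot_le
  simpa only [sat_bot] using this

/-- the mixed coset argument -/
lemma mixC {χ : Q →+ ZMod 4} {N : ℕ} {i j : ZMod 4} (hN : ∀ i, (fib χ i).card = N)
    {A B C1 C3 X Y : Finset Q} (hX : X = A + B) (hY : Y = C1 + -C3)
    (hcov : X ∪ Y = fib χ i) (hd : Disjoint X Y) (hAn : A.Nonempty) (h1n : C1.Nonempty)
    (h3n : C3.Nonempty) (hXs : stab X = ⊥) (hA : A ⊆ fib χ j)
    (hsum : A + C1 + C3 ⊆ fib χ j) (hrel : ∀ a ∈ A, ∀ b ∈ C1, ∀ c ∈ C3, a + b + c ∉ A)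
    (hcard : A.card + B.card + C1.card + C3.card = N + 2) : A.card ≤ B.card := by
  by_contra hcon
  push Not at hcon
  have f := four hAn h1n h3n hsum hA hrel
  set K := stab (A + C1 + C3) with hK
  rw [hN] at f
  by_cases hper : Per K X
  · have hKb : K = ⊥ := by
      rw [← le_bot_iff, ← hXs]; exact per_iff.1 hper
    have f2 := f.2
    rw [hKb, card_bot'] at f2
    simp only [sat_bot] at f2
    omega
  · obtain ⟨x, hx, z, hz, hzx⟩ := not_per hper
    have hxf : x ∈ fib χ i := by rw [← hcov]; exact mem_union_left _ hx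
    have hκ : cos K x ⊆ fib χ i := by
      rw [← sat_singleton]
      exact sat_subset_fib f.1 (by simpa using hxf)
    have hz0 : z ∈ fib χ i := hκ (mem_cos.2 hzx)
    have hz1 : z ∈ Y := by
      rw [← hcov, mem_union] at hz0
      exact hz0.resolve_left hz
    have hcount : (cos K x ∩ X).card + (cos K x ∩ Y).card ≤ Nat.card K := by
      rw [← cos_card K x, ← card_union_of_disjoint]
      · apply card_le_card
        exact union_subset inter_subset_left inter_subset_left
      · exact disjoint_of_subset_left inter_subset_right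
          (disjoint_of_subset_right inter_subset_right hd)
    have hx' := hx
    rw [hX] at hx'
    obtain ⟨u, hu, v, hv, huv⟩ := Finset.mem_add.1 hx'
    have a1 : (A ∩ cos K u).card ≤ (cos K x ∩ X).card := by
      apply card_le_card_of_injOn (fun y => y + v)
      · intro y hy
        have hy' := mem_inter.1 hy
        have h2 := mem_cos.1 hy'.2
        refine mem_inter.2 ⟨mem_cos.2 ?_, ?_⟩
        · have : y + v - x = y - u := by rw [← huv]; abel
          rw [this]; exact h2
        · rw [hX]; exact add_mem_add hy'.1 hv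
      · intro y _ y' _ h
        exact add_right_cancel h
    have hz1' := hz1
    rw [hY] at hz1'
    obtain ⟨u', hu', v', hv', hz2⟩ := Finset.mem_add.1 hz1'
    have hv'' := hv'
    rw [Finset.mem_neg'] at hv''
    have a2 : (C1 ∩ cos K u').card ≤ (cos K x ∩ Y).card := by
      apply card_le_card_of_injOn (fun y => y + v')
      · intro y hy
        have hy' := mem_inter.1 hy
        have h2 := mem_cos.1 hy'.2
        refine mem_inter.2 ⟨mem_cos.2 ?_, ?_⟩
        · have : y + v' - x = (z - x) + (y - u') := by rw [← hz2]; abel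
          rw [this]; exact K.add_mem hzx h2
        · rw [hY]; exact add_mem_add hy'.1 hv'
      · intro y _ y' _ h
        exact add_right_cancel h
    have a3 : (C3 ∩ cos K (-v')).card ≤ (cos K x ∩ Y).card := by
      apply card_le_card_of_injOn (fun y => u' - y)
      · intro y hy
        have hy' := mem_inter.1 hy
        have h2 := mem_cos.1 hy'.2
        refine mem_inter.2 ⟨mem_cos.2 ?_, ?_⟩
        · have : u' - y - x = (z - x) - (y - -v') := by rw [← hz2]; abel
          rw [this]; exact K.sub_mem hzx h2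
        · rw [hY]
          show u' - y ∈ C1 + -C3
          rw [sub_eq_add_neg]; exact add_mem_add hu' (by simpa using hy'.1)
      · intro y _ y' _ h
        exact sub_right_inj.1 h
    have h1 := hole K hu
    have h2 := hole K hu'
    have h3 := hole K hv''
    have f2 := f.2
    omega

theorem stepC (hOne : OneInv Q) {χ : Q →+ ZMod 4} {N : ℕ} (hN : ∀ i, (fib χ i).card = N)
    {C : Finset Q} (hC : C.card = N + 2) (hne : ∀ i, (cl χ C i).Nonempty)
    (hfree : ∀ a ∈ C, ∀ b ∈ C, ∀ c ∈ C, a ≠ b → a ≠ c → b ≠ c → a + b + c ∉ C)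
    (hB : ∀ K : AddSubgroup Q, K ≤ χ.ker → K ≠ ⊥ → N + 2 * Nat.card K < (sat K C).card) :
    Odd N ∧ ∃ u ∈ C, ∃ v ∈ C, χ u = 0 ∧ χ v = 2 ∧ (u + v) + (u + v) = 0 := by
  obtain ⟨hcard, hsat⟩ := split_cl χ C
  have hsub := fun i => cl_subset χ C i
  have hf := fun i => cl_fib χ C i
  -- distinct classes
  have rel : ∀ i j k : ZMod 4, i ≠ j → i ≠ k → j ≠ k → ∀ a ∈ cl χ C i, ∀ b ∈ cl χ C j,
      ∀ c ∈ cl χ C k, a + b + c ∉ C := by
    intro i j k hij hik hjk a ha b hb c hc
    rw [mem_cl] at ha hb hc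
    apply hfree a ha.1 b hb.1 c hc.1
    · rintro rfl; exact hij (ha.2.symm.trans hb.2)
    · rintro rfl; exact hik (ha.2.symm.trans hc.2)
    · rintro rfl; exact hjk (hb.2.symm.trans hc.2)
  set C0 := cl χ C 0 with hC0
  set C1 := cl χ C 1 with hC1
  set C2 := cl χ C 2 with hC2
  set C3 := cl χ C 3 with hC3
  have n0 := hne 0
  have n1 := hne 1
  have n2 := hne 2
  have n3 := hne 3
  rw [← hC0] at n0
  rw [← hC1] at n1
  rw [← hC2] at n2
  rw [← hC3] at n3
  have s0 : C0 ⊆ fib χ 0 := hf 0
  have s1 : C1 ⊆ fib χ 1 := hf 1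
  have s2 : C2 ⊆ fib χ 2 := hf 2
  have s3 : C3 ⊆ fib χ 3 := hf 3
  have c0 : C0 ⊆ C := hsub 0
  have c1 : C1 ⊆ C := hsub 1
  have c2 : C2 ⊆ C := hsub 2
  have c3 : C3 ⊆ C := hsub 3
  -- X is aperiodic
  have hXs : stab (C0 + C2) = ⊥ := by
    have f := four n0 n2 n3 (χ := χ) (i := 1) (D := C1) (by
      have := add_subset_fib (add_subset_fib s0 s2) s3
      have e : (0 : ZMod 4) + 2 + 3 = 1 := by decide
      rwa [e] at this) s1 (fun a ha b hb c hc h =>
        rel 0 2 3 (by decide) (by decide) (by decide) a ha b hb c hc (c1 h))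
    have hK : stab (C0 + C2 + C3) = ⊥ := by
      by_contra hne'
      have h1 := hB _ f.1 hne'
      have h2 := hsat _ f.1
      have h3 := f.2
      rw [hN] at h3
      omega
    exact le_bot_iff.1 (by rw [← hK]; exact stab_le_add _ _)
  have hYs : stab (C1 + -C3) = ⊥ := by
    have f := four n1 n3.neg n2.neg (χ := χ) (i := 0) (D := C0) (by
      have := add_subset_fib (add_subset_fib s1 (neg_subset_fib s3)) (neg_subset_fib s2)
      have e : (1 : ZMod 4) + -3 + -2 = 0 := by decide
      rwa [e] at this) s0 (fun a ha b hb c hc h => by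
        rw [Finset.mem_neg'] at hb hc
        apply rel 0 2 3 (by decide) (by decide) (by decide) _ h (-c) hc (-b) hb
        have : a + b + c + -c + -b = a := by abel
        rw [this]; exact c1 ha)
    have hK : stab (C1 + -C3 + -C2) = ⊥ := by
      by_contra hne'
      have h1 := hB _ f.1 hne'
      have h2 := hsat _ f.1
      have h3 := f.2
      rw [hN, card_sat_neg, card_sat_neg] at h3
      omega
    exact le_bot_iff.1 (by rw [← hK]; exact stab_le_add _ _)
  have k1 := kneser_bot n0 n2 hXs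
  have k2 := kneser_bot n1 n3.neg hYs
  rw [card_neg] at k2
  have hXf : C0 + C2 ⊆ fib χ 2 := by
    have := add_subset_fib s0 s2
    rwa [zero_add] at this
  have hYf : C1 + -C3 ⊆ fib χ 2 := by
    have := add_subset_fib s1 (neg_subset_fib s3)
    have e : (1 : ZMod 4) + -3 = 2 := by decide
    rwa [e] at this
  have hd : Disjoint (C0 + C2) (C1 + -C3) := by
    rw [Finset.disjoint_left]
    intro x hx hy
    obtain ⟨a, ha, b, hb, rfl⟩ := Finset.mem_add.1 hx
    obtain ⟨c, hc, d, hd, hcd⟩ := Finset.mem_add.1 hy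
    rw [Finset.mem_neg'] at hd
    apply rel 0 2 3 (by decide) (by decide) (by decide) a ha b hb (-d) hd
    rw [← hcd]
    have : c + d + -d = c := by abel
    rw [this]; exact c1 hc
  have hd' : ∀ x ∈ C0 + C2, -x ∉ C1 + -C3 := by
    intro x hx hy
    obtain ⟨a, ha, b, hb, rfl⟩ := Finset.mem_add.1 hx
    obtain ⟨c, hc, d, hd, hcd⟩ := Finset.mem_add.1 hy
    rw [Finset.mem_neg'] at hd
    apply rel 0 2 1 (by decide) (by decide) (by decide) a ha b hb c hc
    have : a + b + c = -d := by
      have e : a + b = -(c + d) := by rw [hcd, neg_neg]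
      rw [e]; abel
    rw [this]; exact c3 hd
  have hle : (C0 + C2).card + (C1 + -C3).card ≤ N := by
    rw [← card_union_of_disjoint hd, ← hN 2]
    exact card_le_card (union_subset hXf hYf)
  have hcov : (C0 + C2) ∪ (C1 + -C3) = fib χ 2 := by
    apply eq_of_subset_of_card_le (union_subset hXf hYf)
    rw [card_union_of_disjoint hd, hN]; omega
  have hXc : (C0 + C2).card + 1 = C0.card + C2.card := by omega
  -- c0 = c2
  have le1 : C0.card ≤ C2.card := by
    apply mixC hN rfl rfl hcov hd n0 n1 n3 hXs s0 _ _ (by omega)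
    · have := add_subset_fib (add_subset_fib s0 s1) s3
      have e : (0 : ZMod 4) + 1 + 3 = 0 := by decide
      rwa [e] at this
    · intro a ha b hb c hc h
      exact rel 0 1 3 (by decide) (by decide) (by decide) a ha b hb c hc (c0 h)
  have le2 : C2.card ≤ C0.card := by
    have hcov' : (C2 + C0) ∪ (C1 + -C3) = fib χ 2 := by rw [add_comm C2 C0]; exact hcov
    have hd2 : Disjoint (C2 + C0) (C1 + -C3) := by rw [add_comm C2 C0]; exact hd
    have hXs2 : stab (C2 + C0) = ⊥ := by rw [add_comm C2 C0]; exact hXs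
    apply mixC hN rfl rfl hcov' hd2 n2 n1 n3 hXs2 s2 _ _ (by omega)
    · have := add_subset_fib (add_subset_fib s2 s1) s3
      have e : (2 : ZMod 4) + 1 + 3 = 2 := by decide
      rwa [e] at this
    · intro a ha b hb c hc h
      exact rel 2 1 3 (by decide) (by decide) (by decide) a ha b hb c hc (c2 h)
  -- symmetry
  have hsym : ∀ x ∈ C0 + C2, -x ∈ C0 + C2 := by
    intro x hx
    have h1 : -x ∈ fib χ 2 := by
      have h2 := mem_fib.1 (hXf hx)
      rw [mem_fib, map_neg, h2]; decide
    rw [← hcov, mem_union] at h1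
    exact h1.resolve_right (hd' x hx)
  have hnotev : ¬ Even (C0 + C2).card := by
    rw [Nat.not_even_iff_odd]
    exact ⟨C0.card - 1, by have := n0.card_pos; omega⟩
  obtain ⟨x, hx, hxx⟩ : ∃ x ∈ C0 + C2, -x = x := by
    by_contra hall
    push Not at hall
    exact hnotev (even_of_symm hsym hall)
  have hxx2 : x + x = 0 := by nth_rw 1 [← hxx]; exact neg_add_cancel x
  have hxχ := mem_fib.1 (hXf hx)
  have hx0 : x ≠ 0 := by
    rintro rfl
    rw [map_zero] at hxχ
    exact absurd hxχ (by decide)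
  refine ⟨?_, ?_⟩
  · rw [← Nat.not_even_iff_odd]
    intro hev
    -- an involution in the kernel
    have h1 : (2 : ℕ) ∣ Nat.card χ.ker := by
      rw [card_ker_eq, hN]; exact hev.two_dvd
    haveI : Fact (Nat.Prime 2) := ⟨Nat.prime_two⟩
    obtain ⟨y, hy⟩ := exists_prime_addOrderOf_dvd_card' 2 h1
    have h2 := addOrderOf_nsmul_eq_zero y
    rw [hy, two_nsmul] at h2
    have h3 : y.1 + y.1 = 0 := congrArg Subtype.val h2
    have h4 : y.1 ≠ 0 := by
      intro h0
      have : y = 0 := Subtype.ext h0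
      rw [this, addOrderOf_zero] at hy
      norm_num at hy
    have h5 := hOne x y.1 hxx2 h3 hx0 h4
    have h6 : χ y.1 = 0 := y.2
    rw [← h5, hxχ] at h6
    exact absurd h6 (by decide)
  · obtain ⟨u, hu, v, hv, rfl⟩ := Finset.mem_add.1 hx
    exact ⟨u, c0 hu, v, c2 hv, (mem_cl.1 hu).2, (mem_cl.1 hv).2, hxx2⟩

end
end Pool.Agent.WSF
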