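import Pool.Agent.WSF.StepC

/-!
# Weak near-period: the final counting
-/

open Finset Pointwise

namespace Pool.Agent.WSF

universe u v

section
variable {Q : Type u} [AddCommGroup Q] [Fintype Q] [DecidableEq Q]

/-- the subgroup generated by an involution -/
def pairSub (v : Q) (h : v + v = 0) : AddSubgroup Q where
  carrier := {x | x = 0 ∨ x = v}
  zero_mem' := Or.inl rfl
  add_mem' := by
    rintro a b (rfl | rfl) (rfl | rfl)
    · left; simp
    · right; simp
    · right; simp
    · left; exact h
  neg_mem' := by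
    rintro a (rfl | rfl)
    · left; simp
    · right; exact neg_eq_of_add_eq_zero_left h

lemma mem_pairSub {v : Q} {h : v + v = 0} {x : Q} : x ∈ pairSub v h ↔ x = 0 ∨ x = v := Iff.rfl

lemma card_four {χ : Q →+ ZMod 4} {N : ℕ} (hN : ∀ i, (fib χ i).card = N) (h0 : 0 < N) :
    Fintype.card Q = 4 * N := by
  have hs : Function.Surjective χ := by
    intro i
    obtain ⟨x, hx⟩ := card_pos.1 (by rw [hN i]; exact h0)
    exact ⟨x, mem_fib.1 hx⟩
  have := card_fib_mul hs 0
  rw [hN, ZMod.card] at this
  omega

lemma notauD (hOneQ : ∀ K : AddSubgroup Q, OneInv (Q ⧸ K))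
    {χ : Q →+ ZMod 4} {N : ℕ} (hN : ∀ i, (fib χ i).card = N) (hN3 : 3 ≤ N) (hodd : Odd N)
    {C : Finset Q} (hC : C.card = N + 2)
    (hfree : ∀ a ∈ C, ∀ b ∈ C, ∀ c ∈ C, a ≠ b → a ≠ c → b ≠ c → a + b + c ∉ C)
    {u v : Q} (hu : u ∈ C) (hv : v ∈ C) (hχu : χ u = 0) (hχv : χ v = 2)
    (huv : (u + v) + (u + v) = 0) : ∀ x ∈ C, x + (u + v) ∉ C := by
  have hne : u ≠ v := by
    rintro rfl
    rw [hχu] at hχv
    exact absurd hχv (by decide)
  have hτ0 : u + v ≠ 0 := by
    intro h
    have : χ (u + v) = 0 := by rw [h, map_zero]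
    rw [map_add, hχu, hχv] at this
    exact absurd this (by decide)
  have key : ∀ x ∈ C, x + (u + v) ∈ C → x = u ∨ x = v := by
    intro x hx h
    by_contra hcon
    push Not at hcon
    apply hfree u hu v hv x hx hne (Ne.symm hcon.1) (Ne.symm hcon.2)
    have : u + v + x = x + (u + v) := by abel
    rwa [this]
  intro x hx h
  have h1 := key x hx h
  have h2 := key _ h (by
    have : x + (u + v) + (u + v) = x + ((u + v) + (u + v)) := by abel
    rw [this, huv, add_zero]; exact hx)
  have huu : u + u = 0 := by
    rcases h1 with rfl | rfl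
    · rcases h2 with h2 | h2
      · exact absurd (add_eq_left.1 h2) hτ0
      · have : x + (x + v) = (x + x) + v := by abel
        rw [this] at h2
        exact add_eq_right.1 h2
    · rcases h2 with h2 | h2
      · have h3 : x + (u + x) = (x + x) + u := by abel
        rw [h3] at h2
        have h4 : x + x = 0 := add_eq_right.1 h2
        have h5 : (u + x) + (u + x) = (u + u) + (x + x) := by abel
        rw [huv, h4, add_zero] at h5
        exact h5.symm
      · exact absurd (add_eq_left.1 h2) hτ0
  have hu0 : u = 0 := no_inv (by rw [hN]; exact hodd) hχu huu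
  subst hu0
  rw [zero_add] at huv hτ0 h h2
  clear h h1 h2 hx
  have hK2 : ∀ x ∈ C, x + v ∈ C → x = 0 ∨ x = v := by
    intro x hx h
    exact key x hx (by rwa [zero_add])
  -- the subgroup {0, v}
  set K := pairSub v huv with hK
  have mK : ∀ k, k ∈ K ↔ k = 0 ∨ k = v := fun k => mem_pairSub
  set W := (C.erase 0).erase v with hW
  have mW : ∀ y, y ∈ W ↔ y ≠ v ∧ y ≠ 0 ∧ y ∈ C := by
    intro y; rw [hW, mem_erase, mem_erase]
  have hWc : W.card = N := by
    rw [hW, card_erase_of_mem (mem_erase.2 ⟨hτ0, hv⟩), card_erase_of_mem hu, hC]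
    omega
  have hWv : ∀ y ∈ W, y + v ∉ W := by
    intro y hy h
    rw [mW] at hy h
    rcases hK2 y hy.2.2 h.2.2 with h1 | h1
    · exact hy.2.1 h1
    · exact hy.1 h1
  have hsW : 2 * N ≤ (sat K W).card := by
    have hd : Disjoint W (W.image (fun y => y + v)) := by
      rw [Finset.disjoint_left]
      intro y hy h
      obtain ⟨z, hz, rfl⟩ := mem_image.1 h
      exact hWv z hz hy
    have h1 : W ∪ W.image (fun y => y + v) ⊆ sat K W := by
      apply union_subset (subset_sat _ _)
      intro y hy
      obtain ⟨z, hz, rfl⟩ := mem_image.1 hy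
      refine mem_sat.2 ⟨z, hz, ?_⟩
      have : z + v - z = v := by abel
      rw [this, mK]; right; rfl
    have h2 := card_le_card h1
    rw [card_union_of_disjoint hd, card_image_of_injective _ (add_left_injective v), hWc] at h2
    omega
  have hrs := rs2_sat_card K (hOneQ K) (F := W) (by omega)
  have hdC : Disjoint (sat K (rs2 W)) C := by
    rw [Finset.disjoint_left]
    intro y hy hyC
    obtain ⟨s, hs, hys⟩ := mem_sat.1 hy
    obtain ⟨a, ha, b, hb, hab, rfl⟩ := mem_rs2.1 hs
    rw [mW] at ha hb
    rcases (mK _).1 hys with h | h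
    · apply hfree a ha.2.2 b hb.2.2 0 hu hab ha.2.1 hb.2.1
      rw [sub_eq_zero] at h
      rw [add_zero, ← h]; exact hyC
    · apply hfree a ha.2.2 b hb.2.2 v hv hab ha.1 hb.1
      rw [← h]
      have : a + b + (y - (a + b)) = y := by abel
      rw [this]; exact hyC
  have hdC2 := disjoint_sat hdC (per_sat K (rs2 W))
  have hsC : (sat K W).card + 2 ≤ (sat K C).card := by
    have hd : Disjoint (sat K W) {0, v} := by
      rw [Finset.disjoint_left]
      intro y hy h
      obtain ⟨s, hs, hys⟩ := mem_sat.1 hy
      rw [mW] at hs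
      have hyK : y ∈ K := by
        rw [mK]
        simpa using h
      have : s ∈ K := by
        have e : s = y - (y - s) := by abel
        rw [e]; exact K.sub_mem hyK hys
      rcases (mK _).1 this with h | h
      · exact hs.2.1 h
      · exact hs.1 h
    have h1 : sat K W ∪ {0, v} ⊆ sat K C := by
      apply union_subset
      · apply sat_mono
        intro y hy
        exact ((mW y).1 hy).2.2
      · intro y hy
        apply subset_sat
        simp only [mem_insert, mem_singleton] at hy
        rcases hy with rfl | rfl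
        · exact hu
        · exact hv
    have h2 := card_le_card h1
    rwa [card_union_of_disjoint hd, card_pair (Ne.symm hτ0)] at h2
  have h3 : (sat K (rs2 W)).card + (sat K C).card ≤ Fintype.card Q := by
    rw [← card_union_of_disjoint hdC2]
    exact card_le_univ _
  rw [card_four hN (by omega)] at h3
  omega

/-- (L1): two different doubles -/
lemma L1 (hOne : OneInv Q) {χ : Q →+ ZMod 4} {N : ℕ} (hN : ∀ i, (fib χ i).card = N)
    (hodd : Odd N) {C : Finset Q} (hC : C.card = N + 2)
    (hfree : ∀ a ∈ C, ∀ b ∈ C, ∀ c ∈ C, a ≠ b → a ≠ c → b ≠ c → a + b + c ∉ C)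
    {τ : Q} (hτ2 : τ + τ = 0) (hχτ : χ τ = 2) (hτ : ∀ x ∈ C, x + τ ∉ C)
    (hB : ∀ K : AddSubgroup Q, K ≤ χ.ker → K ≠ ⊥ → N + 2 * Nat.card K < (sat K C).card)
    (hB0 : ∀ K : AddSubgroup Q, K ≤ (red.comp χ).ker → N + Nat.card K < (sat K C).card)
    {X Y : Finset Q} {i j : ZMod 2} (hij : i ≠ j) (hXC : X ⊆ C) (hYC : Y ⊆ C)
    (hX : X ⊆ fib (red.comp χ) i) (hY : Y ⊆ fib (red.comp χ) j) (hX2 : 2 ≤ X.card)
    (hYn : Y.Nonempty) (hXY : X.card + Y.card = C.card)
    (hsat : ∀ K : AddSubgroup Q, K ≤ (red.comp χ).ker →
      (sat K C).card = (sat K X).card + (sat K Y).card) :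
    ∃ γ₁ ∈ X, ∃ γ₂ ∈ X, γ₁ + γ₁ ≠ γ₂ + γ₂ ∧ (∃ a ∈ Y, γ₁ + γ₁ + a ∈ Y) ∧
      (∃ a ∈ Y, γ₂ + γ₂ + a ∈ Y) := by
  by_contra hcon
  set ε := red.comp χ with hε
  have hE : ∀ i, (fib ε i).card = 2 * N := card_fib_red hN
  have hii : ∀ i : ZMod 2, i + i = 0 := by decide
  have hXn : X.Nonempty := card_pos.1 (by omega)
  have hXYne : ∀ x ∈ X, ∀ y ∈ Y, x ≠ y := by
    rintro x hx y hy rfl
    exact hij ((mem_fib.1 (hX hx)).symm.trans (mem_fib.1 (hY hy)))
  have hdist : ∀ a ∈ X, ∀ b ∈ X, a ≠ b → ∀ c ∈ Y, a + b + c ∉ Y := by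
    intro a ha b hb hab c hc h
    exact hfree a (hXC ha) b (hXC hb) c (hYC hc) hab (hXYne a ha c hc) (hXYne b hb c hc) (hYC h)
  have sumf : ∀ S : Finset Q, S ⊆ X → S + S + Y ⊆ fib ε j := by
    intro S hS
    have := add_subset_fib (add_subset_fib (hS.trans hX) (hS.trans hX)) hY
    rwa [hii, zero_add] at this
  by_cases hex : ∃ γ ∈ X, ∃ a ∈ Y, γ + γ + a ∈ Y
  · obtain ⟨γ, hγ, a0, ha0, hγa⟩ := hex
    have huniq : ∀ x ∈ X, (∃ a ∈ Y, x + x + a ∈ Y) → x = γ := by
      intro x hx hxa
      by_contra hne
      have h1 : x + x = γ + γ := by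
        by_contra h2
        exact hcon ⟨x, hx, γ, hγ, h2, hxa, ⟨a0, ha0, hγa⟩⟩
      have h2 : (x - γ) + (x - γ) = 0 := by
        have : (x - γ) + (x - γ) = (x + x) - (γ + γ) := by abel
        rw [this, h1, sub_self]
      have hτ0 : τ ≠ 0 := by
        rintro rfl
        rw [map_zero] at hχτ
        exact absurd hχτ (by decide)
      have h3 := hOne _ _ h2 hτ2 (sub_ne_zero.2 hne) hτ0
      apply hτ γ (hXC hγ)
      rw [← h3]
      have : γ + (x - γ) = x := by abel
      rw [this]; exact hXC hx
    set X' := X.erase γ with hX'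
    have hX'X : X' ⊆ X := erase_subset _ _
    have hX'c : X'.card + 1 = X.card := by
      rw [hX', card_erase_of_mem hγ]; omega
    have hX'n : X'.Nonempty := card_pos.1 (by omega)
    have hd : ∀ a ∈ X', ∀ b ∈ X', ∀ c ∈ Y, a + b + c ∉ Y := by
      intro a ha b hb c hc h
      by_cases hab : a = b
      · subst hab
        exact (mem_erase.1 ha).1 (huniq a (hX'X ha) ⟨c, hc, h⟩)
      · exact hdist a (hX'X ha) b (hX'X hb) hab c hc h
    have f := four hX'n hX'n hYn (sumf X' hX'X) hY hd
    rw [hE] at f
    set K := stab (X' + X' + Y) with hK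
    have hXX' : (sat K X).card ≤ (sat K X').card + Nat.card K := by
      have : X ⊆ X' ∪ {γ} := by
        intro x hx
        rw [mem_union, hX', mem_erase, mem_singleton]
        by_cases h : x = γ
        · right; exact h
        · left; exact ⟨h, hx⟩
      have h2 := card_le_card (sat_mono (K := K) this)
      rw [sat_union, sat_singleton] at h2
      have h3 := card_union_le (sat K X') (cos K γ)
      rw [cos_card] at h3
      omega
    have hsC := hsat K f.1
    by_cases hKχ : K ≤ χ.ker
    · have hKb : K = ⊥ := by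
        by_contra hne
        have h1 := hB K hKχ hne
        have h2 := f.2
        omega
      -- equality everywhere
      have k3 := kneser3 hX'n hX'n hYn
      rw [← hK, hKb, sat_bot, sat_bot, card_bot'] at k3
      have hZd : Disjoint (X' + X' + Y) Y := by
        rw [Finset.disjoint_left]
        intro x hx
        obtain ⟨y, hy, c, hc, rfl⟩ := Finset.mem_add.1 hx
        obtain ⟨a, ha, b, hb, rfl⟩ := Finset.mem_add.1 hy
        exact hd a ha b hb c hc
      have hZc : (X' + X' + Y).card + Y.card ≤ 2 * N := by
        rw [← card_union_of_disjoint hZd, ← hE j]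
        exact card_le_card (union_subset (sumf X' hX'X) hY)
      have hZY : (X' + X' + Y) ∪ Y = fib ε j := by
        apply eq_of_subset_of_card_le (union_subset (sumf X' hX'X) hY)
        rw [card_union_of_disjoint hZd, hE]; omega
      set T := (X + X).erase (γ + γ) with hT
      have hrep : ∀ a ∈ X, ∀ b ∈ X, a + b = γ + γ → a = γ ∧ b = γ := by
        intro a ha b hb hab
        by_cases h : a = b
        · subst h
          have := huniq a ha ⟨a0, ha0, by rw [hab]; exact hγa⟩
          exact ⟨this, this⟩
        · exfalso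
          apply hdist a ha b hb h a0 ha0
          rw [hab]; exact hγa
      have hTY : Disjoint (T + Y) Y := by
        rw [Finset.disjoint_left]
        intro x hx hxY
        obtain ⟨t, ht, c, hc, rfl⟩ := Finset.mem_add.1 hx
        rw [hT, mem_erase] at ht
        obtain ⟨a, ha, b, hb, rfl⟩ := Finset.mem_add.1 ht.2
        by_cases h : a = b
        · subst h
          have := huniq a ha ⟨c, hc, hxY⟩
          subst this
          exact ht.1 rfl
        · exact hdist a ha b hb h c hc hxY
      have hTf : T + Y ⊆ fib ε j := by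
        refine (add_subset_add_right ?_).trans (sumf X Subset.rfl)
        exact erase_subset _ _
      have hX'T : X' + X' ⊆ T := by
        intro x hx
        obtain ⟨a, ha, b, hb, rfl⟩ := Finset.mem_add.1 hx
        rw [hT, mem_erase]
        refine ⟨?_, add_mem_add (hX'X ha) (hX'X hb)⟩
        intro h
        exact (mem_erase.1 ha).1 (hrep a (hX'X ha) b (hX'X hb) h).1
      have hTZ : T + Y = X' + X' + Y := by
        apply Subset.antisymm
        · intro x hx
          have h1 := hTf hx
          rw [← hZY, mem_union] at h1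
          exact h1.resolve_right (Finset.disjoint_left.1 hTY hx)
        · exact add_subset_add_right hX'T
      have hTn : T.Nonempty := (hX'n.add hX'n).mono hX'T
      have k1 := kneser_bot hTn hYn (by rw [hTZ, ← hK, hKb])
      rw [hTZ] at k1
      have k2 := scherk hγ hγ hrep
      have hTc : T.card + 1 = (X + X).card := by
        rw [hT, card_erase_of_mem (add_mem_add hγ hγ)]
        have : 0 < (X + X).card := (hXn.add hXn).card_pos
        omega
      omega
    · -- K contains τ
      obtain ⟨k, hk, hkχ⟩ : ∃ k ∈ K, χ k ≠ 0 := by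
        by_contra hall
        push Not at hall
        exact hKχ (fun k hk => hall k hk)
      have hετ : ε k = 0 := f.1 hk
      have hk2 : χ k = 2 := ((red_zero_iff _).1 hετ).resolve_left hkχ
      have hNk0 : (N • k) + (N • k) = 0 := by
        have h1 : Nat.card ε.ker = 2 * N := by rw [card_ker_eq, hE]
        have h2 : (Nat.card ε.ker) • (⟨k, hετ⟩ : ε.ker) = 0 := card_nsmul_eq_zero'
        rw [h1] at h2
        have h3 := congrArg Subtype.val h2
        rw [AddSubgroup.coe_nsmul] at h3
        rw [← two_nsmul, ← mul_nsmul']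
        exact h3
      have hχN : χ (N • k) = 2 := by
        rw [map_nsmul, hk2]
        obtain ⟨t, ht⟩ := hodd
        rw [ht, add_nsmul, mul_nsmul', one_nsmul]
        have : 2 • (t • (2 : ZMod 4)) = 0 := by
          rw [nsmul_eq_mul, nsmul_eq_mul]
          have e : ((2 : ℕ) : ZMod 4) * ((t : ZMod 4) * 2) = (t : ZMod 4) * ((2 : ZMod 4) * 2) := by
            push_cast; ring
          rw [e]
          have : (2 : ZMod 4) * 2 = 0 := by decide
          rw [this, mul_zero]
        rw [this, zero_add]
      have hτK : τ ∈ K := by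
        have h1 : N • k ≠ 0 := by
          intro h
          rw [h, map_zero] at hχN
          exact absurd hχN (by decide)
        have h2 : τ ≠ 0 := by
          rintro rfl
          rw [map_zero] at hχτ
          exact absurd hχτ (by decide)
        rw [hOne _ _ hτ2 hNk0 h2 h1]
        exact K.nsmul_mem hk N
      have hτ0 : τ ≠ 0 := by
        rintro rfl
        rw [map_zero] at hχτ
        exact absurd hχτ (by decide)
      -- order of K
      have hKeven : 2 ∣ Nat.card K := by
        have h1 : addOrderOf (⟨τ, hτK⟩ : K) = 2 := by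
          apply addOrderOf_eq_prime
          · rw [two_nsmul]; exact Subtype.ext hτ2
          · intro h; exact hτ0 (congrArg Subtype.val h)
        rw [← h1]
        exact addOrderOf_dvd_natCard _
      obtain ⟨k1, hk1⟩ := hKeven
      have hKdvd : Nat.card K ∣ 2 * N := by
        rw [← hE 0, ← card_ker_eq]
        exact AddSubgroup.card_dvd_of_le f.1
      have hk1N : k1 ∣ N := by
        rw [hk1] at hKdvd
        exact Nat.dvd_of_mul_dvd_mul_left (by norm_num) hKdvd
      obtain ⟨N1, hN1⟩ := hk1N
      -- K is proper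
      have hZY' : Y.card + (X' + X' + Y).card ≤ 2 * N := by
        have hZd : Disjoint (X' + X' + Y) Y := by
          rw [Finset.disjoint_left]
          intro x hx
          obtain ⟨y, hy, c, hc, rfl⟩ := Finset.mem_add.1 hx
          obtain ⟨a, ha, b, hb, rfl⟩ := Finset.mem_add.1 hy
          exact hd a ha b hb c hc
        rw [add_comm, ← card_union_of_disjoint hZd, ← hE j]
        exact card_le_card (union_subset (sumf X' hX'X) hY)
      have hZK : Nat.card K ≤ (X' + X' + Y).card := by
        have := Nonempty.sat_card (K := K) ((hX'n.add hX'n).add hYn)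
        rwa [hK, sat_stab] at this
      have hYpos := hYn.card_pos
      have hN1odd : Odd N1 := by
        rw [hN1] at hodd
        exact (Nat.odd_mul.1 hodd).2
      have hk1pos : 0 < k1 := by
        have := card_pos' K
        omega
      have hN1' : N1 ≠ 1 := by
        rintro rfl
        omega
      have hN13 : 3 ≤ N1 := by
        obtain ⟨t, ht⟩ := hN1odd
        omega
      -- size of the saturation
      obtain ⟨t, ht⟩ := dvd_card_sat K C
      have hup : (sat K C).card ≤ N + 2 * Nat.card K := by
        have := f.2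
        omega
      have ht2 : 2 * t ≤ N1 + 4 := by
        rw [ht, hk1, hN1] at hup
        have : k1 * (2 * t) ≤ k1 * (N1 + 4) := by
          calc k1 * (2 * t) = 2 * k1 * t := by ring
            _ ≤ k1 * N1 + 2 * (2 * k1) := hup
            _ = k1 * (N1 + 4) := by ring
        exact Nat.le_of_mul_le_mul_left this hk1pos
      have ht3 : 2 * t ≤ N1 + 3 := by
        obtain ⟨s, hs⟩ := hN1odd
        omega
      have hup2 : (sat K C).card ≤ N + 3 * k1 := by
        rw [ht, hk1, hN1]
        calc 2 * k1 * t = k1 * (2 * t) := by ring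
          _ ≤ k1 * (N1 + 3) := Nat.mul_le_mul_left _ ht3
          _ = k1 * N1 + 3 * k1 := by ring
      have hlow : 2 * C.card ≤ (sat K C).card := by
        have hd : Disjoint C (C.image (fun y => y + τ)) := by
          rw [Finset.disjoint_left]
          intro y hy h
          obtain ⟨z, hz, rfl⟩ := mem_image.1 h
          exact hτ z hz hy
        have h1 : C ∪ C.image (fun y => y + τ) ⊆ sat K C := by
          apply union_subset (subset_sat _ _)
          intro y hy
          obtain ⟨z, hz, rfl⟩ := mem_image.1 hy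
          refine mem_sat.2 ⟨z, hz, ?_⟩
          have : z + τ - z = τ := by abel
          rw [this]; exact hτK
        have h2 := card_le_card h1
        rw [card_union_of_disjoint hd, card_image_of_injective _ (add_left_injective τ)] at h2
        omega
      have hfin : 3 * k1 ≤ N := by
        rw [hN1, mul_comm 3 k1]; exact Nat.mul_le_mul_left k1 hN13
      omega
  · push Not at hex
    have hd : ∀ a ∈ X, ∀ b ∈ X, ∀ c ∈ Y, a + b + c ∉ Y := by
      intro a ha b hb c hc
      by_cases h : a = b
      · subst h; exact hex a ha c hc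
      · exact hdist a ha b hb h c hc
    have f := four hXn hXn hYn (sumf X Subset.rfl) hY hd
    rw [hE] at f
    have h1 := hB0 _ f.1
    have h2 := hsat _ f.1
    have h3 := f.2
    omega

end
end Pool.Agent.WSF
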