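import Pool.Agent.WSF.StepD

/-!
# Weak near-period: counting of the holes
-/

open Finset Pointwise

namespace Pool.Agent.WSF

universe u v

section
variable {Q : Type u} [AddCommGroup Q] [Fintype Q] [DecidableEq Q]

lemma holes {C : Finset Q} {f : Q → ℕ} {h N : ℕ} (hC : C.card = N + 2) (hfh : ∀ x, f x ≤ h)
    (hsum : ∑ x ∈ C, f x = h * N + 2) {S : Finset Q} (hS : S ⊆ C) :
    S.card * h + 2 ≤ ∑ x ∈ S, f x + 2 * h := by
  have h1 := Finset.sum_sdiff (f := f) hS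
  have h2 : ∑ x ∈ C \ S, f x ≤ (C \ S).card * h := by
    rw [← smul_eq_mul]
    exact Finset.sum_le_card_nsmul _ _ _ (fun x _ => hfh x)
  have h3 := card_sdiff_add_card_eq_card hS
  have h4 : (C \ S).card * h + S.card * h = h * N + 2 * h := by
    rw [← add_mul, h3, hC]; ring
  omega

lemma oneD {C : Finset Q} {f : Q → ℕ} {h N : ℕ} (hN3 : 3 ≤ N) (h2 : 2 ≤ h)
    (hC : C.card = N + 2) (hpos : ∀ x ∈ C, 1 ≤ f x) (hfh : ∀ x, f x ≤ h)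
    (hsum : ∑ x ∈ C, f x = h * N + 2)
    (hfree : ∀ a ∈ C, ∀ b ∈ C, ∀ c ∈ C, a ≠ b → a ≠ c → b ≠ c → a + b + c ∉ C)
    (D1 : ∀ γ ∈ C, ∀ a ∈ C, ∀ b ∈ C, γ ≠ a → 3 ≤ f γ → γ + γ + a = b →
      f γ + f a ≤ h ∧ f γ + f b ≤ h)
    (D2 : ∀ γ ∈ C, ∀ a ∈ C, ∀ b ∈ C, γ ≠ a → 2 ≤ f γ → γ + γ + a = b → f a + f b ≤ h)
    (D3 : h = 2 → ∀ x ∈ C, ∀ x' ∈ C, ∀ a ∈ C, ∀ b ∈ C, f x = 2 → f x' = 2 → f a = 1 → f b = 1 →
      x + x + a = b → x' + x' + b = a → x + x' = 0)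
    {γ₁ γ₂ a₁ b₁ a₂ b₂ : Q} (g1 : γ₁ ∈ C) (g2 : γ₂ ∈ C) (ha1 : a₁ ∈ C) (hb1 : b₁ ∈ C)
    (ha2 : a₂ ∈ C) (hb2 : b₂ ∈ C) (hγ : γ₁ + γ₁ ≠ γ₂ + γ₂)
    (n1 : γ₁ ≠ a₁) (n2 : γ₁ ≠ b₁) (n3 : γ₁ ≠ a₂) (n4 : γ₁ ≠ b₂)
    (n5 : γ₂ ≠ a₁) (n6 : γ₂ ≠ b₁) (n7 : γ₂ ≠ a₂) (n8 : γ₂ ≠ b₂)
    (e1 : γ₁ + γ₁ + a₁ = b₁) (e2 : γ₂ + γ₂ + a₂ = b₂) : f γ₁ = 1 := by
  have hγne : γ₁ ≠ γ₂ := by rintro rfl; exact hγ rfl
  have H := fun (S : Finset Q) (hS : S ⊆ C) => holes hC hfh hsum hS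
  -- four elements
  have H4 : ∀ x ∈ C, ∀ y ∈ C, ∀ z ∈ C, ∀ w ∈ C, x ≠ y → x ≠ z → x ≠ w → y ≠ z → y ≠ w → z ≠ w →
      4 * h + 2 ≤ f x + f y + f z + f w + 2 * h := by
    intro x hx y hy z hz w hw xy xz xw yz yw zw
    have := H {x, y, z, w} (by
      intro t ht
      simp only [mem_insert, mem_singleton] at ht
      rcases ht with rfl | rfl | rfl | rfl <;> assumption)
    have hx' : x ∉ ({y, z, w} : Finset Q) := by simp [xy, xz, xw]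
    have hy' : y ∉ ({z, w} : Finset Q) := by simp [yz, yw]
    have hz' : z ∉ ({w} : Finset Q) := by simp [zw]
    rw [card_insert_of_notMem hx', card_insert_of_notMem hy', card_insert_of_notMem hz',
      card_singleton, sum_insert hx', sum_insert hy', sum_insert hz', sum_singleton] at this
    omega
  have H3 : ∀ x ∈ C, ∀ y ∈ C, ∀ z ∈ C, x ≠ y → x ≠ z → y ≠ z →
      3 * h + 2 ≤ f x + f y + f z + 2 * h := by
    intro x hx y hy z hz xy xz yz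
    have := H {x, y, z} (by
      intro t ht
      simp only [mem_insert, mem_singleton] at ht
      rcases ht with rfl | rfl | rfl <;> assumption)
    have hx' : x ∉ ({y, z} : Finset Q) := by simp [xy, xz]
    have hy' : y ∉ ({z} : Finset Q) := by simp [yz]
    rw [card_insert_of_notMem hx', card_insert_of_notMem hy', card_singleton,
      sum_insert hx', sum_insert hy', sum_singleton] at this
    omega
  -- doubling to zero
  have Z : ∀ γ ∈ C, 2 ≤ f γ → γ + γ ≠ 0 := by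
    intro γ hγC hf h0
    have h1 : ∀ ε ∈ C.erase γ, 2 * f ε ≤ h := by
      intro ε hε
      rw [mem_erase] at hε
      have := D2 γ hγC ε hε.2 ε hε.2 (Ne.symm hε.1) hf (by rw [h0, zero_add])
      omega
    have h3 : ∑ x ∈ C.erase γ, 2 * f x ≤ (C.erase γ).card * h := by
      rw [← smul_eq_mul (b := h)]
      exact Finset.sum_le_card_nsmul _ _ _ h1
    rw [card_erase_of_mem hγC, hC, ← Finset.mul_sum] at h3
    have h4 := Finset.add_sum_erase C f hγC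
    rw [hsum] at h4
    have h5 := hfh γ
    have h6 : N + 2 - 1 = N + 1 := by omega
    rw [h6] at h3
    have h7 : 2 * (h * N + 2) ≤ 2 * h + (N + 1) * h := by omega
    nlinarith
  have hab : ∀ γ ∈ C, ∀ a b : Q, 2 ≤ f γ → γ + γ + a = b → a ≠ b := by
    rintro γ hγC a b hf he rfl
    exact Z γ hγC hf (add_eq_right.1 he)
  have nz : γ₁ + γ₂ ≠ 0 := by
    intro h0
    obtain ⟨c, hc⟩ : ∃ c, c ∈ (C.erase γ₁).erase γ₂ := by
      apply card_pos.1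
      rw [card_erase_of_mem (mem_erase.2 ⟨Ne.symm hγne, g2⟩), card_erase_of_mem g1, hC]
      omega
    rw [mem_erase, mem_erase] at hc
    apply hfree γ₁ g1 γ₂ g2 c hc.2.2 hγne (Ne.symm hc.2.1) (Ne.symm hc.1)
    rw [h0, zero_add]; exact hc.2.2
  by_contra hne1
  have p1 : 2 ≤ f γ₁ := by
    have := hpos γ₁ g1
    omega
  have ab1 := hab γ₁ g1 a₁ b₁ p1 e1
  have d1 := D2 γ₁ g1 a₁ ha1 b₁ hb1 n1 p1 e1
  have pa1 := hpos a₁ ha1
  have pb1 := hpos b₁ hb1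
  have pa2 := hpos a₂ ha2
  have pb2 := hpos b₂ hb2
  have pg2 := hpos γ₂ g2
  have q1 := hfh γ₁
  have q2 := hfh γ₂
  have i1 := H4 γ₁ g1 γ₂ g2 a₁ ha1 b₁ hb1 hγne n1 n2 n5 n6 ab1
  by_cases h3 : 3 ≤ h
  · by_cases c1 : 3 ≤ f γ₁
    · have d1' := D1 γ₁ g1 a₁ ha1 b₁ hb1 n1 c1 e1
      by_cases c2 : 3 ≤ f γ₂
      · have ab2 := hab γ₂ g2 a₂ b₂ (by omega) e2
        have d2' := D1 γ₂ g2 a₂ ha2 b₂ hb2 n7 c2 e2
        by_cases c3 : a₁ = a₂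
        · have i2 := H4 γ₁ g1 γ₂ g2 b₁ hb1 a₂ ha2 hγne n2 n3 n6 n7 (by
            rw [← c3]; exact Ne.symm ab1)
          omega
        · have i2 := H4 γ₁ g1 γ₂ g2 a₁ ha1 a₂ ha2 hγne n1 n3 n5 n7 c3
          omega
      · by_cases c4 : f γ₂ = 1
        · omega
        · have p2 : 2 ≤ f γ₂ := by omega
          have ab2 := hab γ₂ g2 a₂ b₂ p2 e2
          have d2 := D2 γ₂ g2 a₂ ha2 b₂ hb2 n7 p2 e2
          have i2 := H4 γ₁ g1 γ₂ g2 a₂ ha2 b₂ hb2 hγne n3 n4 n7 n8 ab2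
          omega
    · -- f γ₁ = 2
      have c2 : 3 ≤ f γ₂ := by omega
      have d2' := D1 γ₂ g2 a₂ ha2 b₂ hb2 n7 c2 e2
      omega
  · have hh : h = 2 := by omega
    have f1 : f γ₁ = 2 := by omega
    have f2 : f γ₂ = 2 := by omega
    have fa1 : f a₁ = 1 := by omega
    have fb1 : f b₁ = 1 := by omega
    have ab2 := hab γ₂ g2 a₂ b₂ (by omega) e2
    have d2 := D2 γ₂ g2 a₂ ha2 b₂ hb2 n7 (by omega) e2
    have fa2 : f a₂ = 1 := by omega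
    have fb2 : f b₂ = 1 := by omega
    have only : ∀ x ∈ C, f x = 1 → x = a₁ ∨ x = b₁ := by
      intro x hx hfx
      by_contra hcon
      push Not at hcon
      have := H3 x hx a₁ ha1 b₁ hb1 hcon.1 hcon.2 ab1
      omega
    rcases only a₂ ha2 fa2 with rfl | rfl
    · rcases only b₂ hb2 fb2 with rfl | rfl
      · exact ab2 rfl
      · apply hγ
        rw [← e2] at e1
        exact add_right_cancel e1
    · rcases only b₂ hb2 fb2 with rfl | rfl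
      · exact nz (D3 hh γ₁ g1 γ₂ g2 b₂ hb2 a₂ ha2 f1 f2 fb2 fa2 e1 e2)
      · exact ab2 rfl

theorem stepD (hOne : OneInv Q) (hOneQ : ∀ K : AddSubgroup Q, OneInv (Q ⧸ K))
    {χ : Q →+ ZMod 4} {N h : ℕ} (hN : ∀ i, (fib χ i).card = N) (hN3 : 3 ≤ N)
    (hh : Odd N → 2 ≤ h) {C : Finset Q} {f : Q → ℕ}
    (hC : C.card = N + 2) (hne : ∀ i, (cl χ C i).Nonempty) (hpos : ∀ x ∈ C, 1 ≤ f x)
    (hfh : ∀ x, f x ≤ h) (hsum : ∑ x ∈ C, f x = h * N + 2)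
    (hfree : ∀ a ∈ C, ∀ b ∈ C, ∀ c ∈ C, a ≠ b → a ≠ c → b ≠ c → a + b + c ∉ C)
    (hB : ∀ K : AddSubgroup Q, K ≤ χ.ker → K ≠ ⊥ → N + 2 * Nat.card K < (sat K C).card)
    (hB0 : ∀ K : AddSubgroup Q, K ≤ (red.comp χ).ker → N + Nat.card K < (sat K C).card)
    (D1 : ∀ γ ∈ C, ∀ a ∈ C, ∀ b ∈ C, γ ≠ a → 3 ≤ f γ → γ + γ + a = b →
      f γ + f a ≤ h ∧ f γ + f b ≤ h)
    (D2 : ∀ γ ∈ C, ∀ a ∈ C, ∀ b ∈ C, γ ≠ a → 2 ≤ f γ → γ + γ + a = b → f a + f b ≤ h)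
    (D3 : h = 2 → ∀ x ∈ C, ∀ x' ∈ C, ∀ a ∈ C, ∀ b ∈ C, f x = 2 → f x' = 2 → f a = 1 → f b = 1 →
      x + x + a = b → x' + x' + b = a → x + x' = 0) : False := by
  obtain ⟨hodd, u, hu, v, hv, hχu, hχv, huv⟩ := stepC hOne hN hC hne hfree hB
  have h2 := hh hodd
  have hτ := notauD hOneQ hN hN3 hodd hC hfree hu hv hχu hχv huv
  have hχτ : χ (u + v) = 2 := by rw [map_add, hχu, hχv, zero_add]
  obtain ⟨hcard, hsat⟩ := split_par (ε := red.comp χ) C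
  have hcl : ∀ i : ZMod 4, ∀ j : ZMod 2, red i = j →
      cl χ C i ⊆ C.filter fun x => (red.comp χ) x = j := by
    intro i j hij x hx
    rw [mem_cl] at hx
    rw [mem_filter]
    refine ⟨hx.1, ?_⟩
    show red (χ x) = j
    rw [hx.2, hij]
  have two : ∀ j : ZMod 2, ∀ i i' : ZMod 4, i ≠ i' → red i = j → red i' = j →
      2 ≤ (C.filter fun x => (red.comp χ) x = j).card := by
    intro j i i' hii' h1 h1'
    obtain ⟨x, hx⟩ := hne i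
    obtain ⟨y, hy⟩ := hne i'
    have hxy : x ≠ y := by
      rintro rfl
      exact hii' ((mem_cl.1 hx).2.symm.trans (mem_cl.1 hy).2)
    refine (card_pair hxy).symm.le.trans (card_le_card ?_)
    intro z hz
    simp only [mem_insert, mem_singleton] at hz
    rcases hz with rfl | rfl
    · exact hcl i j h1 hx
    · exact hcl i' j h1' hy
  have tw0 := two 0 0 2 (by decide) (by decide) (by decide)
  have tw1 := two 1 1 3 (by decide) (by decide) (by decide)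
  set P := C.filter fun x => (red.comp χ) x = 0 with hPdef
  set R := C.filter fun x => (red.comp χ) x = 1 with hRdef
  have hPs : P ⊆ fib (red.comp χ) 0 := fun x hx => mem_fib.2 (mem_filter.1 hx).2
  have hRs : R ⊆ fib (red.comp χ) 1 := fun x hx => mem_fib.2 (mem_filter.1 hx).2
  have hPC : P ⊆ C := filter_subset _ _
  have hRC : R ⊆ C := filter_subset _ _
  have hPR : ∀ x ∈ P, ∀ y ∈ R, x ≠ y := by
    rintro x hx y hy rfl
    exact absurd ((mem_fib.1 (hPs hx)).symm.trans (mem_fib.1 (hRs hy))) (by decide)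
  obtain ⟨γ₁, g1, γ₂, g2, hγ, ⟨a₁, ha1, e1⟩, ⟨a₂, ha2, e2⟩⟩ :=
    L1 hOne hN hodd hC hfree huv hχτ hτ hB hB0 (i := 0) (j := 1) (by decide) hPC hRC hPs hRs
      tw0 (card_pos.1 (by omega)) (by omega) hsat
  obtain ⟨δ₁, d1, δ₂, d2, hδ, ⟨c₁, hc1, e3⟩, ⟨c₂, hc2, e4⟩⟩ :=
    L1 hOne hN hodd hC hfree huv hχτ hτ hB hB0 (i := 1) (j := 0) (by decide) hRC hPC hRs hPs
      tw1 (card_pos.1 (by omega)) (by omega) (fun K hK => by rw [hsat K hK, add_comm])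
  have o1 := oneD hN3 h2 hC hpos hfh hsum hfree D1 D2 D3 (hPC g1) (hPC g2) (hRC ha1) (hRC e1)
    (hRC ha2) (hRC e2) hγ (hPR _ g1 _ ha1) (hPR _ g1 _ e1) (hPR _ g1 _ ha2) (hPR _ g1 _ e2)
    (hPR _ g2 _ ha1) (hPR _ g2 _ e1) (hPR _ g2 _ ha2) (hPR _ g2 _ e2) rfl rfl
  have o2 := oneD hN3 h2 hC hpos hfh hsum hfree D1 D2 D3 (hPC g2) (hPC g1) (hRC ha2) (hRC e2)
    (hRC ha1) (hRC e1) (Ne.symm hγ) (hPR _ g2 _ ha2) (hPR _ g2 _ e2) (hPR _ g2 _ ha1)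
    (hPR _ g2 _ e1) (hPR _ g1 _ ha2) (hPR _ g1 _ e2) (hPR _ g1 _ ha1) (hPR _ g1 _ e1) rfl rfl
  have o3 := oneD hN3 h2 hC hpos hfh hsum hfree D1 D2 D3 (hRC d1) (hRC d2) (hPC hc1) (hPC e3)
    (hPC hc2) (hPC e4) hδ (hPR _ hc1 _ d1).symm (hPR _ e3 _ d1).symm (hPR _ hc2 _ d1).symm
    (hPR _ e4 _ d1).symm (hPR _ hc1 _ d2).symm (hPR _ e3 _ d2).symm (hPR _ hc2 _ d2).symm
    (hPR _ e4 _ d2).symm rfl rfl
  have hγne : γ₁ ≠ γ₂ := by rintro rfl; exact hγ rfl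
  have hx' : γ₁ ∉ ({γ₂, δ₁} : Finset Q) := by simp [hγne, hPR _ g1 _ d1]
  have hy' : γ₂ ∉ ({δ₁} : Finset Q) := by simp [hPR _ g2 _ d1]
  have := holes hC hfh hsum (S := {γ₁, γ₂, δ₁}) (by
      intro t ht
      simp only [mem_insert, mem_singleton] at ht
      rcases ht with rfl | rfl | rfl
      · exact hPC g1
      · exact hPC g2
      · exact hRC d1)
  rw [card_insert_of_notMem hx', card_insert_of_notMem hy', card_singleton,
    sum_insert hx', sum_insert hy', sum_singleton, o1, o2, o3] at this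
  omega

end
end Pool.Agent.WSF
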