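import Pool.Agent.WSF.StepB

/-!
# Case of a strong near-period, order divisible by four
-/

open Finset Pointwise

namespace Pool.Agent.WSF

universe u v

/-- reduction mod 2 of classes mod 4 -/
def red : ZMod 4 →+ ZMod 2 := (ZMod.castHom (by norm_num : 2 ∣ 4) (ZMod 2)).toAddMonoidHom

lemma red_zero_iff : ∀ z : ZMod 4, red z = 0 ↔ z = 0 ∨ z = 2 := by decide

lemma red_one_iff : ∀ z : ZMod 4, red z = 1 ↔ z = 1 ∨ z = 3 := by decide

section
variable {Q : Type u} [AddCommGroup Q] [Fintype Q] [DecidableEq Q]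

lemma fib_red_zero (χ : Q →+ ZMod 4) : fib (red.comp χ) 0 = fib χ 0 ∪ fib χ 2 := by
  ext x
  rw [mem_union, mem_fib, mem_fib, mem_fib]
  exact red_zero_iff (χ x)

lemma fib_red_one (χ : Q →+ ZMod 4) : fib (red.comp χ) 1 = fib χ 1 ∪ fib χ 3 := by
  ext x
  rw [mem_union, mem_fib, mem_fib, mem_fib]
  exact red_one_iff (χ x)

lemma fib_disjoint {R : Type v} [AddCommGroup R] [DecidableEq R] (χ : Q →+ R) {i j : R}
    (h : i ≠ j) : Disjoint (fib χ i) (fib χ j) := by
  rw [Finset.disjoint_left]
  intro x hx hy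
  exact h ((mem_fib.1 hx).symm.trans (mem_fib.1 hy))

lemma card_fib_red {χ : Q →+ ZMod 4} {N : ℕ} (hN : ∀ i, (fib χ i).card = N) (i : ZMod 2) :
    (fib (red.comp χ) i).card = 2 * N := by
  have h01 : ∀ z : ZMod 2, z = 0 ∨ z = 1 := by decide
  rcases h01 i with rfl | rfl
  · rw [fib_red_zero, card_union_of_disjoint (fib_disjoint χ (by decide)), hN, hN]; ring
  · rw [fib_red_one, card_union_of_disjoint (fib_disjoint χ (by decide)), hN, hN]; ring

/-- existence of an involution in the even class -/
lemma exists_inv {ε : Q →+ ZMod 2} (h : Even (fib ε 0).card) :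
    ∃ τ : Q, τ ≠ 0 ∧ τ + τ = 0 ∧ ε τ = 0 := by
  have h1 : (2 : ℕ) ∣ Nat.card ε.ker := by
    rw [card_ker_eq]; exact h.two_dvd
  haveI : Fact (Nat.Prime 2) := ⟨Nat.prime_two⟩
  obtain ⟨x, hx⟩ := exists_prime_addOrderOf_dvd_card' 2 h1
  refine ⟨x.1, ?_, ?_, x.2⟩
  · intro h0
    have : x = 0 := Subtype.ext h0
    rw [this, addOrderOf_zero] at hx
    norm_num at hx
  · have h2 := addOrderOf_nsmul_eq_zero x
    rw [hx, two_nsmul] at h2
    exact congrArg Subtype.val h2

lemma no_tau {τ : Q} (hOne : OneInv Q) (hτ0 : τ ≠ 0) (hτ2 : τ + τ = 0) {D : Finset Q}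
    (h0 : (0 : Q) ∈ D) (hsym : ∀ x ∈ D, -x ∈ D) (hodd : Odd D.card) : τ ∉ D := by
  intro hτ
  have hnegτ : -τ = τ := neg_eq_of_add_eq_zero_left hτ2
  have hτ' : τ ∈ D.erase 0 := mem_erase.2 ⟨hτ0, hτ⟩
  have h1 : Odd (D.erase 0).card := by
    apply odd_of_symm hτ' hnegτ
    · intro x hx
      rw [mem_erase] at hx ⊢
      exact ⟨neg_ne_zero.2 hx.1, hsym x hx.2⟩
    · intro x hx hneg
      rw [mem_erase] at hx
      apply hOne x τ _ hτ2 hx.1 hτ0
      nth_rw 1 [← hneg]
      exact neg_add_cancel x
  rw [card_erase_of_mem h0] at h1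
  have hpos : 0 < D.card := card_pos.2 ⟨0, h0⟩
  obtain ⟨a, ha⟩ := hodd
  obtain ⟨b, hb⟩ := h1
  omega

theorem stepT2 (hOne : OneInv Q) {χ : Q →+ ZMod 4} {N : ℕ} (hN : ∀ i, (fib χ i).card = N)
    {C : Finset Q} (hC : C.card = N + 1)
    (hP : (C.filter fun x => (red.comp χ) x = 0).Nonempty)
    (hR : (C.filter fun x => (red.comp χ) x = 1).Nonempty)
    (h4 : ∀ a ∈ C, ∀ b ∈ C, ∀ c ∈ C, a + b + c ∈ C → a = b ∧ b = c)
    (hB : ∀ K : AddSubgroup Q, K ≤ (red.comp χ).ker → K ≠ ⊥ → N + Nat.card K < (sat K C).card)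
    (hU : Even N → (C.filter fun a => a + a + a ∈ C).card ≤ 1)
    (hN4 : Odd N → N % 4 = 1) : False := by
  set ε := red.comp χ with hε
  obtain ⟨hcard, hsat⟩ := split_par (ε := ε) C
  have hE : ∀ i, (fib ε i).card = 2 * N := card_fib_red hN
  have hii : ∀ i : ZMod 2, i + i = 0 := by decide
  have hneg : ∀ i : ZMod 2, -i = i := by decide
  set P := C.filter fun x => ε x = 0 with hPdef
  set R := C.filter fun x => ε x = 1 with hRdef
  have hPs : P ⊆ fib ε 0 := fun x hx => mem_fib.2 (mem_filter.1 hx).2
  have hRs : R ⊆ fib ε 1 := fun x hx => mem_fib.2 (mem_filter.1 hx).2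
  have hPC : P ⊆ C := filter_subset _ _
  have hRC : R ⊆ C := filter_subset _ _
  -- unrestricted relations between different parities
  have rel : ∀ (X Y : Finset Q) (i j : ZMod 2), i ≠ j → X ⊆ C → Y ⊆ C → X ⊆ fib ε i →
      Y ⊆ fib ε j → ∀ a ∈ X, ∀ b ∈ X, ∀ c ∈ Y, a + b + c ∉ Y := by
    intro X Y i j hij hXC hYC hX hY a ha b hb c hc h
    have h1 := h4 a (hXC ha) b (hXC hb) c (hYC hc) (hYC h)
    apply hij
    rw [← mem_fib.1 (hX hb), ← mem_fib.1 (hY hc), h1.2]
  have hne01 : (0 : ZMod 2) ≠ 1 := by decide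
  have relPR := rel P R 0 1 hne01 hPC hRC hPs hRs
  have relRP := rel R P 1 0 (Ne.symm hne01) hRC hPC hRs hPs
  have a1 := aper hE (hii 0) hPs hRs hP hR relPR (by
      intro K hK hne
      have h1 := hB K hK hne
      have h2 := hsat K hK
      omega)
  have a2 := aper hE (hii 1) hRs hPs hR hP relRP (by
      intro K hK hne
      have h1 := hB K hK hne
      have h2 := hsat K hK
      omega)
  -- sizes
  have sumsub : ∀ (X : Finset Q) (i : ZMod 2), X ⊆ fib ε i → X + X ⊆ fib ε 0 ∧
      X + -X ⊆ fib ε 0 := by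
    intro X i hX
    constructor
    · have := add_subset_fib hX hX
      rwa [hii] at this
    · have := add_subset_fib hX (neg_subset_fib hX)
      rwa [hneg, hii] at this
  have disj : ∀ (X Y : Finset Q), (∀ a ∈ X, ∀ b ∈ X, ∀ c ∈ Y, a + b + c ∉ Y) →
      Disjoint (X + X) (Y + -Y) := by
    intro X Y hXY
    rw [Finset.disjoint_left]
    intro x hx hy
    obtain ⟨a, ha, b, hb, rfl⟩ := Finset.mem_add.1 hx
    obtain ⟨c, hc, d, hd, hcd⟩ := Finset.mem_add.1 hy
    rw [Finset.mem_neg'] at hd
    apply hXY a ha b hb (-d) hd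
    rw [← hcd]
    have : c + d + -d = c := by abel
    rw [this]; exact hc
  have dPR := disj P R relPR
  have dRP := disj R P relRP
  have kP1 := kneser_bot hP hP a1.1
  have kR1 := kneser_bot hR hR a2.1
  have kR2 := kneser_bot hR hR.neg a1.2
  have kP2 := kneser_bot hP hP.neg a2.2
  rw [card_neg] at kR2 kP2
  have c1 : (P + P).card + (R + -R).card ≤ 2 * N := by
    rw [← card_union_of_disjoint dPR, ← hE 0]
    exact card_le_card (union_subset (sumsub P 0 hPs).1 (sumsub R 1 hRs).2)
  have c2 : (R + R).card + (P + -P).card ≤ 2 * N := by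
    rw [← card_union_of_disjoint dRP, ← hE 0]
    exact card_le_card (union_subset (sumsub R 1 hRs).1 (sumsub P 0 hPs).2)
  have ePP : (P + P).card + 1 = 2 * P.card := by omega
  have eRR : (R + R).card + 1 = 2 * R.card := by omega
  have ePm : (P + -P).card + 1 = 2 * P.card := by omega
  have eRm : (R + -R).card + 1 = 2 * R.card := by omega
  have cov1 : ∀ w ∈ fib ε 0, w ∈ P + P ∨ w ∈ R + -R := by
    intro w hw
    rw [← mem_union]
    have : (P + P) ∪ (R + -R) = fib ε 0 := by
      apply eq_of_subset_of_card_le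
        (union_subset (sumsub P 0 hPs).1 (sumsub R 1 hRs).2)
      rw [card_union_of_disjoint dPR, hE]; omega
    rw [this]; exact hw
  have cov2 : ∀ w ∈ fib ε 0, w ∈ R + R ∨ w ∈ P + -P := by
    intro w hw
    rw [← mem_union]
    have : (R + R) ∪ (P + -P) = fib ε 0 := by
      apply eq_of_subset_of_card_le
        (union_subset (sumsub R 1 hRs).1 (sumsub P 0 hPs).2)
      rw [card_union_of_disjoint dRP, hE]; omega
    rw [this]; exact hw
  have symdiff : ∀ (X : Finset Q) (x : Q), x ∈ X + -X → -x ∈ X + -X := by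
    intro X x hx
    obtain ⟨a, ha, b, hb, rfl⟩ := Finset.mem_add.1 hx
    rw [Finset.mem_neg'] at hb
    refine Finset.mem_add.2 ⟨-b, hb, -a, by simpa using ha, by abel⟩
  have zerodiff : ∀ X : Finset Q, X.Nonempty → (0 : Q) ∈ X + -X := by
    rintro X ⟨a, ha⟩
    exact Finset.mem_add.2 ⟨a, ha, -a, by simpa using ha, by abel⟩
  -- common sums and differences
  have common : ∀ (X : Finset Q), X ⊆ C → ∀ s ∈ X + X, s ∈ X + -X →
      ∃ a ∈ X, s = a + a ∧ a + a + a ∈ C ∧
        (X.filter fun y => s - y ∈ X).card ≤ 1 ∧ (X.filter fun y => y - s ∈ X).card ≤ 1 := by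
    intro X hXC s hs hs2
    obtain ⟨a, ha, b, hb, rfl⟩ := Finset.mem_add.1 hs
    obtain ⟨c, hc, d, hd, hcd⟩ := Finset.mem_add.1 hs2
    rw [Finset.mem_neg'] at hd
    have e : a + b + -d = c := by rw [← hcd]; abel
    have h1 := h4 a (hXC ha) b (hXC hb) (-d) (hXC hd) (by rw [e]; exact hXC hc)
    obtain ⟨rfl, h2⟩ := h1
    rw [← h2] at e
    refine ⟨a, ha, rfl, by rw [e]; exact hXC hc, ?_, ?_⟩
    · rw [card_le_one]
      have key : ∀ y ∈ X.filter fun y => a + a - y ∈ X, y = a := by
        intro y hy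
        rw [mem_filter] at hy
        have h3 := h4 y (hXC hy.1) _ (hXC hy.2) a (hXC ha) (by
          have : y + (a + a - y) + a = a + a + a := by abel
          rw [this, e]; exact hXC hc)
        rw [h3.1, h3.2]
      intro x hx y hy
      rw [key x hx, key y hy]
    · rw [card_le_one]
      have key : ∀ y ∈ X.filter fun y => y - (a + a) ∈ X, y = a + a + a := by
        intro y hy
        rw [mem_filter] at hy
        have h3 := h4 a (hXC ha) a (hXC ha) _ (hXC hy.2) (by
          have : a + a + (y - (a + a)) = y := by abel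
          rw [this]; exact hXC hy.1)
        have h5 : y = a + a + (y - (a + a)) := by abel
        rw [← h3.2] at h5
        exact h5
      intro x hx y hy
      rw [key x hx, key y hy]
  rcases Nat.even_or_odd N with hev | hod
  · -- N even
    have hU' := hU hev
    have key : ∀ (X : Finset Q) (i : ZMod 2), X ⊆ C → X ⊆ fib ε i → (X + X).card + 1 = 2 * X.card →
        (X + -X).card + 1 = 2 * X.card → 4 * X.card ≤ 2 * N + 3 := by
      intro X i hXC hX e1 e2
      have h1 : ((X + X) ∩ (X + -X)).card ≤ 1 := by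
        have : (X + X) ∩ (X + -X) ⊆ (C.filter fun a => a + a + a ∈ C).image (fun a => a + a) := by
          intro s hs
          rw [mem_inter] at hs
          obtain ⟨a, ha, rfl, h3, -, -⟩ := common X hXC s hs.1 hs.2
          exact mem_image.2 ⟨a, mem_filter.2 ⟨hXC ha, h3⟩, rfl⟩
        exact (card_le_card this).trans (card_image_le.trans hU')
      have h2 := card_union_add_card_inter (X + X) (X + -X)
      have h3 : ((X + X) ∪ (X + -X)).card ≤ 2 * N := by
        rw [← hE 0]
        exact card_le_card (union_subset (sumsub X i hX).1 (sumsub X i hX).2)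
      omega
    have k1 := key P 0 hPC hPs ePP ePm
    have k2 := key R 1 hRC hRs eRR eRm
    obtain ⟨t, ht⟩ := hev
    omega
  · -- N odd
    have hN1 := hN4 hod
    obtain ⟨τ, hτ0, hτ2, hετ⟩ := exists_inv (ε := ε) (by rw [hE]; exact even_two_mul N)
    have hnegτ : -τ = τ := neg_eq_of_add_eq_zero_left hτ2
    have hτP : τ ∉ P + -P := no_tau hOne hτ0 hτ2 (zerodiff P hP) (symdiff P) ⟨P.card - 1, by omega⟩
    have hτR : τ ∉ R + -R := no_tau hOne hτ0 hτ2 (zerodiff R hR) (symdiff R) ⟨R.card - 1, by omega⟩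
    have notau : ∀ X : Finset Q, τ ∉ X + -X → ∀ x ∈ X, x + τ ∉ X := by
      intro X hX x hx h
      apply hX
      exact Finset.mem_add.2 ⟨x + τ, h, -x, by simpa using hx, by abel⟩
    have stableτ : ∀ i, ∀ x ∈ fib ε i, x + τ ∈ fib ε i := by
      intro i x hx
      rw [mem_fib] at hx ⊢
      rw [map_add, hx, hετ, add_zero]
    -- counting representations
    have cnt : ∀ (X : Finset Q) (i : ZMod 2), X ⊆ fib ε i → τ ∉ X + -X → ∀ w, ε w = 0 →
        2 * X.card ≤ N + ((X.filter fun y => w - y ∈ X).card +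
          (X.filter fun y => w + τ - y ∈ X).card) ∧
        2 * X.card ≤ N + ((X.filter fun y => y - w ∈ X).card +
          (X.filter fun y => y - (w + τ) ∈ X).card) := by
      intro X i hX hτX w hw
      constructor
      · have := pig hτ2 hX (stableτ i) (notau X hτX) (Equiv.subLeft w) (by
          intro x
          simp only [Equiv.subLeft_apply]
          rw [← sub_sub, sub_eq_add_neg (w - x) τ, hnegτ]) (by
          intro x hx
          rw [Equiv.subLeft_symm_apply, mem_fib, map_add, map_neg, mem_fib.1 hx, hw, add_zero,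
            hneg])
        rw [hE] at this
        simp only [Equiv.subLeft_apply] at this
        have e : (X.filter fun y => w + τ - y ∈ X) = (X.filter fun y => w - y + τ ∈ X) := by
          apply filter_congr
          intro y _
          have : w + τ - y = w - y + τ := by abel
          rw [this]
        rw [e]
        omega
      · have := pig hτ2 hX (stableτ i) (notau X hτX) (Equiv.subRight w) (by
          intro x
          simp only [Equiv.subRight_apply]
          abel) (by
          intro x hx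
          rw [Equiv.subRight_symm_apply, mem_fib, map_add, mem_fib.1 hx, hw, add_zero])
        rw [hE] at this
        simp only [Equiv.subRight_apply] at this
        have e : (X.filter fun y => y - (w + τ) ∈ X) = (X.filter fun y => y - w + τ ∈ X) := by
          apply filter_congr
          intro y _
          have : y - (w + τ) = y - w + τ := by
            rw [← sub_sub, sub_eq_add_neg (y - w) τ, hnegτ]
          rw [this]
        rw [e]
        omega
    -- membership from counts
    have pos1 : ∀ (X : Finset Q) (w : Q), 0 < (X.filter fun y => w - y ∈ X).card → w ∈ X + X := by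
      intro X w h
      obtain ⟨y, hy⟩ := card_pos.1 h
      rw [mem_filter] at hy
      exact Finset.mem_add.2 ⟨y, hy.1, w - y, hy.2, by abel⟩
    have pos2 : ∀ (X : Finset Q) (w : Q), 0 < (X.filter fun y => y - w ∈ X).card →
        w ∈ X + -X := by
      intro X w h
      obtain ⟨y, hy⟩ := card_pos.1 h
      rw [mem_filter] at hy
      exact Finset.mem_add.2 ⟨y, hy.1, -(y - w), by simpa using hy.2, by abel⟩
    -- the sizes agree
    have bal : ∀ (X : Finset Q) (i : ZMod 2), X ⊆ C → X ⊆ fib ε i → τ ∉ X + -X →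
        (X + X).card + 1 = 2 * X.card → (X + -X).card + 1 = 2 * X.card →
        2 * X.card ≤ N + 1 ∨ 2 * X.card < N + 3 := by
      intro X i hXC hX hτX e1 e2
      by_contra hcon
      push Not at hcon
      obtain ⟨-, hcon⟩ := hcon
      have h2 := card_union_add_card_inter (X + X) (X + -X)
      have h3 : ((X + X) ∪ (X + -X)).card ≤ 2 * N := by
        rw [← hE 0]
        exact card_le_card (union_subset (sumsub X i hX).1 (sumsub X i hX).2)
      obtain ⟨s, hs⟩ := card_pos.1 (by omega : 0 < ((X + X) ∩ (X + -X)).card)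
      rw [mem_inter] at hs
      have hsε : ε s = 0 := mem_fib.1 ((sumsub X i hX).1 hs.1)
      obtain ⟨a, ha, -, -, r1, r2⟩ := common X hXC s hs.1 hs.2
      obtain ⟨n1, n2⟩ := cnt X i hX hτX s hsε
      have m1 := pos1 X (s + τ) (by omega)
      have m2 := pos2 X (s + τ) (by omega)
      obtain ⟨b, hb, -, -, r3, r4⟩ := common X hXC _ m1 m2
      omega
    have bP := bal P 0 hPC hPs hτP ePP ePm
    have bR := bal R 1 hRC hRs hτR eRR eRm
    have hPc : 2 * P.card = N + 1 := by
      obtain ⟨t, ht⟩ := hod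
      omega
    -- no common element
    have nocommon : ∀ s ∈ P + P, s ∉ P + -P := by
      intro s hs hs2
      have hsε : ε s = 0 := mem_fib.1 ((sumsub P 0 hPs).1 hs)
      obtain ⟨a, ha, hsa, -, -, -⟩ := common P hPC s hs hs2
      have hns : -s ∈ P + P := by
        rcases cov1 (-s) (by rw [mem_fib, map_neg, hsε, neg_zero]) with h | h
        · exact h
        · exfalso
          have := symdiff R _ h
          rw [neg_neg] at this
          exact Finset.disjoint_left.1 dPR hs this
      obtain ⟨b, hb, hsb, -, -, -⟩ := common P hPC (-s) hns (symdiff P s hs2)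
      have h0 : (a + b) + (a + b) = 0 := by
        have : (a + b) + (a + b) = (a + a) + (b + b) := by abel
        rw [this, ← hsa, ← hsb, add_neg_cancel]
      have hab : a + b ≠ 0 := by
        intro h
        have h1 : (0 : Q) ∈ P + P := by rw [← h]; exact add_mem_add ha hb
        exact Finset.disjoint_left.1 dPR h1 (zerodiff R hR)
      have habτ : a + b = τ := hOne _ _ h0 hτ2 hab hτ0
      have hsτ : s + τ ∈ P + -P := by
        refine Finset.mem_add.2 ⟨a, ha, -b, by simpa using hb, ?_⟩
        have : b = τ - a := by rw [← habτ]; abel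
        rw [this, hsa]
        have : a + -(τ - a) = a + a + -τ := by abel
        rw [this, hnegτ]
      -- exactly one lift
      have hcover : fib ε 0 ⊆ (P + -P) ∪ (P + -P).image (fun y => y + τ) := by
        intro w hw
        obtain ⟨-, n2⟩ := cnt P 0 hPs hτP w (mem_fib.1 hw)
        rw [mem_union]
        by_cases h5 : 0 < (P.filter fun y => y - w ∈ P).card
        · left; exact pos2 P w h5
        · right
          refine mem_image.2 ⟨w + τ, pos2 P (w + τ) (by omega), ?_⟩
          rw [add_assoc, hτ2, add_zero]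
      have h6 := card_le_card hcover
      rw [hE] at h6
      have h7 := card_union_add_card_inter (P + -P) ((P + -P).image (fun y => y + τ))
      rw [card_image_of_injective _ (add_left_injective τ)] at h7
      have h8 : 0 < ((P + -P) ∩ ((P + -P).image (fun y => y + τ))).card := by
        apply card_pos.2
        refine ⟨s, mem_inter.2 ⟨hs2, mem_image.2 ⟨s + τ, hsτ, ?_⟩⟩⟩
        rw [add_assoc, hτ2, add_zero]
      omega
    -- apply the final lemma
    have hodd : Odd (fib χ 0).card := by rw [hN]; exact hod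
    have hχτ0 : χ τ ≠ 0 := fun h => hτ0 (no_inv hodd h hτ2)
    have hχτ : χ τ = 2 := by
      have : red (χ τ) = 0 := hετ
      exact ((red_zero_iff _).1 this).resolve_left hχτ0
    have hun : fib χ 0 ∪ fib χ (χ τ) = fib ε 0 := by rw [hχτ, hε, fib_red_zero]
    have hdPP : Disjoint (P + P) (P + -P) := Finset.disjoint_left.2 nocommon
    have hfull : (P + P) ∪ (P + -P) = fib ε 0 := by
      apply eq_of_subset_of_card_le
        (union_subset (sumsub P 0 hPs).1 (sumsub P 0 hPs).2)
      rw [card_union_of_disjoint hdPP, hE]; omega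
    refine final (χ := χ) (N := N) (hN 0) hN1 hτ2 hχτ0 (P := P) (by rw [hun]; exact hPs)
      (fun x hx h => no_inv hodd hx h) ?_ ?_ a1.1 (by omega) hPc ?_
    · intro x hx
      rw [hun, ← hfull, mem_union] at hx
      rcases hx with h | h
      · left; exact h
      · right
        obtain ⟨a, ha, b, hb, rfl⟩ := Finset.mem_add.1 h
        rw [Finset.mem_neg'] at hb
        exact ⟨a, ha, -b, hb, by abel⟩
    · intro x hx a ha b hb hxab
      apply nocommon x hx
      rw [hxab, sub_eq_add_neg]
      exact add_mem_add ha (by simpa using hb)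
    · rcases cov1 τ (mem_fib.2 hετ) with h | h
      · exact h
      · exact absurd h hτR

end
end Pool.Agent.WSF
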