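import Pool.Agent.WSF.Kneser

/-!
# Restricted sums, parity of symmetric sets, pigeonhole
-/

open Finset Pointwise

namespace Pool.Agent.WSF

universe u

/-- there is at most one element of order two -/
def OneInv (G : Type u) [AddCommGroup G] : Prop :=
  ∀ x y : G, x + x = 0 → y + y = 0 → x ≠ 0 → y ≠ 0 → x = y

section
variable {G : Type u} [AddCommGroup G] [Fintype G] [DecidableEq G]

lemma oneInv_of_cyclic [IsAddCyclic G] : OneInv G := by
  intro x y hx hy hx0 hy0
  by_contra hne
  have h := IsAddCyclic.card_nsmul_eq_zero_le (α := G) (n := 2) (by norm_num)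
  have h3 : ({0, x, y} : Finset G).card = 3 := by
    rw [card_insert_of_notMem, card_insert_of_notMem, card_singleton]
    · simpa using hne
    · simp only [mem_insert, mem_singleton, not_or]
      exact ⟨Ne.symm hx0, Ne.symm hy0⟩
  have hsub : ({0, x, y} : Finset G) ⊆ univ.filter (fun a : G => 2 • a = 0) := by
    intro z hz
    rw [mem_filter]
    refine ⟨mem_univ _, ?_⟩
    simp only [mem_insert, mem_singleton] at hz
    rcases hz with rfl | rfl | rfl
    · simp
    · rw [two_nsmul]; exact hx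
    · rw [two_nsmul]; exact hy
  have := card_le_card hsub
  omega

lemma quot_cyclic [IsAddCyclic G] (K : AddSubgroup G) : IsAddCyclic (G ⧸ K) :=
  isAddCyclic_of_surjective (QuotientAddGroup.mk' K) (QuotientAddGroup.mk'_surjective K)

/-! ### parity -/

lemma even_of_symm {S : Finset G} (h : ∀ x ∈ S, -x ∈ S) (h2 : ∀ x ∈ S, -x ≠ x) :
    Even S.card := by
  have h3 : ∑ x ∈ S, (1 : ZMod 2) = 0 := by
    apply Finset.sum_involution (fun a _ => -a)
    · intro a ha; decide
    · intro a ha _; exact h2 a ha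
    · intro a ha; simp
    · intro a ha; exact h a ha
  rw [Finset.sum_const, nsmul_eq_mul, mul_one] at h3
  rw [← ZMod.natCast_eq_zero_iff_even]
  exact h3

lemma odd_of_symm {S : Finset G} {c : G} (hc : c ∈ S) (hcc : -c = c)
    (h : ∀ x ∈ S, -x ∈ S) (h2 : ∀ x ∈ S, -x = x → x = c) : Odd S.card := by
  have h3 : Even (S.erase c).card := by
    apply even_of_symm
    · intro x hx
      rw [mem_erase] at hx ⊢
      refine ⟨fun h4 => hx.1 ?_, h x hx.2⟩
      have : x = -c := by rw [← h4, neg_neg]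
      rw [this, hcc]
    · intro x hx h4
      rw [mem_erase] at hx
      exact hx.1 (h2 x hx.2 h4)
  rw [card_erase_of_mem hc] at h3
  have hpos : 0 < S.card := card_pos.2 ⟨c, hc⟩
  have : S.card = (S.card - 1) + 1 := by omega
  rw [this]
  exact h3.add_one

/-! ### pigeonhole in a coset -/

lemma exists_add_eq {H : AddSubgroup G} {X Y : Finset G} {x y z : G} (hX : X ⊆ cos H x)
    (hY : Y ⊆ cos H y) (hz : z - (x + y) ∈ H) (hc : Nat.card H < X.card + Y.card) :
    ∃ a ∈ X, ∃ b ∈ Y, a + b = z := by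
  have h2 : (Y.image (fun b => z - b)) ⊆ cos H x := by
    intro w hw
    obtain ⟨b, hb, rfl⟩ := mem_image.1 hw
    have := mem_cos.1 (hY hb)
    rw [mem_cos]
    have e : z - b - x = (z - (x + y)) - (b - y) := by abel
    rw [e]; exact H.sub_mem hz this
  have h3 : (Y.image (fun b => z - b)).card = Y.card := by
    apply card_image_of_injective
    intro a b hab
    exact sub_right_inj.1 hab
  have h4 := card_union_add_card_inter X (Y.image (fun b => z - b))
  have h5 : (X ∪ Y.image (fun b => z - b)).card ≤ Nat.card H := by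
    rw [← cos_card H x]
    exact card_le_card (union_subset hX h2)
  have h6 : 0 < (X ∩ Y.image (fun b => z - b)).card := by omega
  obtain ⟨a, ha⟩ := card_pos.1 h6
  rw [mem_inter] at ha
  obtain ⟨b, hb, hba⟩ := mem_image.1 ha.2
  exact ⟨a, ha.1, b, hb, by rw [← hba]; abel⟩

/-! ### restricted sums -/

/-- sums of two distinct elements -/
def rs2 (F : Finset G) : Finset G := F.offDiag.image fun p => p.1 + p.2

lemma mem_rs2 {F : Finset G} {x : G} :
    x ∈ rs2 F ↔ ∃ a ∈ F, ∃ b ∈ F, a ≠ b ∧ a + b = x := by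
  unfold rs2
  rw [mem_image]
  constructor
  · rintro ⟨⟨a, b⟩, h, rfl⟩
    rw [mem_offDiag] at h
    exact ⟨a, h.1, b, h.2.1, h.2.2, rfl⟩
  · rintro ⟨a, ha, b, hb, hab, rfl⟩
    exact ⟨(a, b), mem_offDiag.2 ⟨ha, hb, hab⟩, rfl⟩

lemma rs2_subset (F : Finset G) : rs2 F ⊆ F + F := by
  intro x hx
  obtain ⟨a, ha, b, hb, -, rfl⟩ := mem_rs2.1 hx
  exact add_mem_add ha hb

lemma rs2_card (hG : OneInv G) {F : Finset G} (hF : 3 ≤ F.card) : F.card ≤ (rs2 F).card := by
  by_contra hcon
  push Not at hcon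
  have key : ∀ a ∈ F, ∀ t ∈ rs2 F, t - a ∈ F ∧ t - a ≠ a := by
    intro a ha t ht
    have h1 : (F.erase a).image (fun x => a + x) ⊆ rs2 F := by
      intro x hx
      obtain ⟨y, hy, rfl⟩ := mem_image.1 hx
      rw [mem_erase] at hy
      exact mem_rs2.2 ⟨a, ha, y, hy.2, Ne.symm hy.1, rfl⟩
    have h2 : ((F.erase a).image (fun x => a + x)).card = F.card - 1 := by
      rw [card_image_of_injective _ (add_right_injective a), card_erase_of_mem ha]
    have h3 : (F.erase a).image (fun x => a + x) = rs2 F := by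
      apply eq_of_subset_of_card_le h1
      omega
    rw [← h3] at ht
    obtain ⟨y, hy, rfl⟩ := mem_image.1 ht
    rw [mem_erase] at hy
    have e : a + y - a = y := by abel
    rw [e]
    exact ⟨hy.2, hy.1⟩
  have two : ∀ a ∈ F, ∀ b ∈ F, a ≠ b → (a - b) + (a - b) = 0 := by
    intro a ha b hb hab
    obtain ⟨c, hc⟩ : ∃ c, c ∈ (F.erase a).erase b := by
      apply Finset.card_pos.1
      rw [card_erase_of_mem (mem_erase.2 ⟨Ne.symm hab, hb⟩), card_erase_of_mem ha]
      omega
    rw [mem_erase, mem_erase] at hc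
    obtain ⟨hcb, hca, hcF⟩ := hc
    have cl : ∀ c' ∈ F, c' ≠ a → c' ≠ b → c' + (a - b) ∈ F ∧ c' + (a - b) ≠ b := by
      intro c' h1 h2 h3
      have := key b hb (a + c') (mem_rs2.2 ⟨a, ha, c', h1, Ne.symm h2, rfl⟩)
      have e : a + c' - b = c' + (a - b) := by abel
      rwa [e] at this
    obtain ⟨hd, hdb⟩ := cl c hcF hca hcb
    have h4 := key _ hd (b + c) (mem_rs2.2 ⟨b, hb, c, hcF, Ne.symm hcb, rfl⟩)
    have e2 : b + c - (c + (a - b)) = b - (a - b) := by abel
    rw [e2] at h4
    by_cases h5 : b - (a - b) = a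
    · have e3 : (a - b) + (a - b) = a - (b - (a - b)) := by abel
      rw [e3, h5, sub_self]
    · exfalso
      have h6 : b - (a - b) ≠ b := by
        intro h7
        rw [sub_eq_self, sub_eq_zero] at h7
        exact hab h7
      have h8 := cl _ h4.1 h5 h6
      apply h8.2
      abel
  obtain ⟨a, b, c, ha, hb, hc, hab, hac, hbc⟩ := Finset.two_lt_card_iff.1 (by omega : 2 < F.card)
  have h1 := two a ha b hb hab
  have h2 := two c hc b hb (Ne.symm hbc)
  have h3 := hG _ _ h1 h2 (sub_ne_zero.2 hab) (sub_ne_zero.2 (Ne.symm hbc))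
  exact hac (sub_left_inj.1 h3)

lemma rs2_sat_card (K : AddSubgroup G) (hQ : OneInv (G ⧸ K)) {F : Finset G}
    (hF : 3 ≤ F.card) : (sat K F).card ≤ (sat K (rs2 F)).card := by
  classical
  haveI : Fintype (G ⧸ K) := Fintype.ofFinite _
  rw [card_sat, card_sat]
  apply Nat.mul_le_mul_left
  rw [cov_eq, cov_eq]
  set π := QuotientAddGroup.mk' K with hπ
  have hsub : rs2 (F.image π) ⊆ (rs2 F).image π := by
    intro x hx
    obtain ⟨a, ha, b, hb, hab, rfl⟩ := mem_rs2.1 hx
    obtain ⟨a', ha', rfl⟩ := mem_image.1 ha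
    obtain ⟨b', hb', rfl⟩ := mem_image.1 hb
    rw [← map_add]
    apply mem_image_of_mem
    refine mem_rs2.2 ⟨a', ha', b', hb', ?_, rfl⟩
    rintro rfl
    exact hab rfl
  by_cases h3 : 3 ≤ (F.image π).card
  · exact (rs2_card hQ h3).trans (card_le_card hsub)
  · have hFne : F.Nonempty := card_pos.1 (by omega)
    by_cases h2 : (F.image π).card = 2
    · -- two cosets, one of them contains two elements
      obtain ⟨a, ha, b, hb, hab, hπab⟩ : ∃ a ∈ F, ∃ b ∈ F, a ≠ b ∧ π a = π b := by
        have := Finset.exists_ne_map_eq_of_card_lt_of_maps_to (s := F) (t := F.image π)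
          (f := π) (by omega) (fun x hx => mem_image_of_mem _ hx)
        obtain ⟨a, ha, b, hb, h, h'⟩ := this
        exact ⟨a, ha, b, hb, h, h'⟩
      obtain ⟨q, hq, hqne⟩ : ∃ q ∈ F.image π, q ≠ π a := by
        by_contra hall
        push Not at hall
        have : F.image π ⊆ {π a} := by
          intro x hx; rw [mem_singleton]; exact hall x hx
        have := card_le_card this
        rw [card_singleton] at this
        omega
      obtain ⟨c, hc, rfl⟩ := mem_image.1 hq
      have hac : a ≠ c := by rintro rfl; exact hqne rfl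
      rw [h2]
      have h4 : π a + π b ≠ π a + π c := by
        intro h
        have := add_left_cancel h
        exact hqne (by rw [← this, ← hπab])
      have h5 : ({π a + π b, π a + π c} : Finset (G ⧸ K)) ⊆ (rs2 F).image π := by
        intro x hx
        simp only [mem_insert, mem_singleton] at hx
        rcases hx with rfl | rfl
        · rw [← map_add]
          exact mem_image_of_mem _ (mem_rs2.2 ⟨a, ha, b, hb, hab, rfl⟩)
        · rw [← map_add]
          exact mem_image_of_mem _ (mem_rs2.2 ⟨a, ha, c, hc, hac, rfl⟩)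
      have h6 := card_le_card h5
      rw [card_pair h4] at h6
      exact h6
    · have h1 : (F.image π).card ≤ 1 := by omega
      refine h1.trans ?_
      obtain ⟨a, ha, b, hb, hab⟩ := Finset.one_lt_card.1 (by omega : 1 < F.card)
      apply card_pos.2
      exact ⟨π (a + b), mem_image_of_mem _ (mem_rs2.2 ⟨a, ha, b, hb, hab, rfl⟩)⟩

/-- sums of three distinct elements -/
def rs3 (F : Finset G) : Finset G :=
  ((F ×ˢ F ×ˢ F).filter fun p => p.1 ≠ p.2.1 ∧ p.1 ≠ p.2.2 ∧ p.2.1 ≠ p.2.2).image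
    fun p => p.1 + p.2.1 + p.2.2

lemma mem_rs3 {F : Finset G} {x : G} :
    x ∈ rs3 F ↔ ∃ a ∈ F, ∃ b ∈ F, ∃ c ∈ F, a ≠ b ∧ a ≠ c ∧ b ≠ c ∧ a + b + c = x := by
  unfold rs3
  rw [mem_image]
  constructor
  · rintro ⟨⟨a, b, c⟩, h, rfl⟩
    simp only [mem_filter, mem_product] at h
    exact ⟨a, h.1.1, b, h.1.2.1, c, h.1.2.2, h.2.1, h.2.2.1, h.2.2.2, rfl⟩
  · rintro ⟨a, ha, b, hb, c, hc, hab, hac, hbc, rfl⟩
    refine ⟨(a, b, c), ?_, rfl⟩
    simp only [mem_filter, mem_product]
    exact ⟨⟨ha, hb, hc⟩, hab, hac, hbc⟩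

lemma rs3_card {F : Finset G} (hF : 4 ≤ F.card) : F.card ≤ (rs3 F).card + 1 := by
  by_contra hcon
  push Not at hcon
  have key : ∀ a ∈ F, ∀ b ∈ F, a ≠ b → ∀ t ∈ rs3 F, t - (a + b) ∈ F ∧ t - (a + b) ≠ a ∧
      t - (a + b) ≠ b := by
    intro a ha b hb hab t ht
    have h1 : ((F.erase a).erase b).image (fun x => (a + b) + x) ⊆ rs3 F := by
      intro x hx
      obtain ⟨y, hy, rfl⟩ := mem_image.1 hx
      rw [mem_erase, mem_erase] at hy
      exact mem_rs3.2 ⟨a, ha, b, hb, y, hy.2.2, hab, Ne.symm hy.2.1, Ne.symm hy.1, rfl⟩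
    have h2 : (((F.erase a).erase b).image (fun x => (a + b) + x)).card = F.card - 1 - 1 := by
      rw [card_image_of_injective _ (add_right_injective (a + b)),
        card_erase_of_mem (mem_erase.2 ⟨Ne.symm hab, hb⟩), card_erase_of_mem ha]
    have h3 : ((F.erase a).erase b).image (fun x => (a + b) + x) = rs3 F := by
      apply eq_of_subset_of_card_le h1
      omega
    rw [← h3] at ht
    obtain ⟨y, hy, rfl⟩ := mem_image.1 ht
    rw [mem_erase, mem_erase] at hy
    have e : a + b + y - (a + b) = y := by abel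
    rw [e]
    exact ⟨hy.2.2, hy.2.1, hy.1⟩
  obtain ⟨b, hb, c, hc, hbc⟩ := Finset.one_lt_card.1 (by omega : 1 < F.card)
  have hcard : 2 ≤ ((F.erase b).erase c).card := by
    rw [card_erase_of_mem (mem_erase.2 ⟨Ne.symm hbc, hc⟩), card_erase_of_mem hb]
    omega
  obtain ⟨d, hd, a, ha, hda⟩ := Finset.one_lt_card.1 (by omega : 1 < ((F.erase b).erase c).card)
  rw [mem_erase, mem_erase] at hd ha
  obtain ⟨hdc, hdb, hdF⟩ := hd
  have gen : ∀ a' ∈ F, a' ≠ b → a' ≠ c → a' ≠ d → d + (b - c) ∈ F ∧ d + (b - c) ≠ a' ∧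
      d + (b - c) ≠ c := by
    intro a' h1 h2 h3 h4
    have h5 := key a' h1 c hc h3 (a' + b + d)
      (mem_rs3.2 ⟨a', h1, b, hb, d, hdF, h2, h4, Ne.symm hdb, rfl⟩)
    have e : a' + b + d - (a' + c) = d + (b - c) := by abel
    rw [e] at h5
    exact h5
  obtain ⟨hac, hab, haF⟩ := ha
  obtain ⟨g1, g2, g3⟩ := gen a haF hab hac (Ne.symm hda)
  have n1 : d + (b - c) ≠ b := by
    intro h
    apply hdc
    have := congrArg (fun x => x - (b - c)) h
    simpa using this
  have n2 : d + (b - c) ≠ d := by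
    intro h
    rw [add_eq_left, sub_eq_zero] at h
    exact hbc h
  exact (gen _ g1 n1 g3 n2).2.1 rfl

end
end Pool.Agent.WSF
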