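import Pool.Agent.WSF.StepE

/-!
# Transfer between a group and its quotient
-/

open Finset Pointwise

namespace Pool.Agent.WSF

universe u v

/-- no sum of three distinct elements of `A` lies in `A` -/
def Wsf {G : Type*} [AddCommGroup G] (A : Finset G) : Prop :=
  ∀ a ∈ A, ∀ b ∈ A, ∀ c ∈ A, a ≠ b → a ≠ c → b ≠ c → a + b + c ∉ A

section
variable {G : Type u} [AddCommGroup G] [Fintype G] [DecidableEq G]
variable (H : AddSubgroup G) [DecidableEq (G ⧸ H)]

/-- image in the quotient -/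
def im (A : Finset G) : Finset (G ⧸ H) := A.image (QuotientAddGroup.mk' H)

/-- elements of `A` in the coset `q` -/
def fc (A : Finset G) (q : G ⧸ H) : Finset G := A.filter fun x => QuotientAddGroup.mk' H x = q

variable {H}

omit [Fintype G] [DecidableEq G] [DecidableEq (G ⧸ H)] in
lemma mk_eq_iff {x y : G} :
    QuotientAddGroup.mk' H x = QuotientAddGroup.mk' H y ↔ x - y ∈ H := by
  rw [← sub_eq_zero, ← map_sub]
  exact QuotientAddGroup.eq_zero_iff _

lemma mem_im {A : Finset G} {q : G ⧸ H} :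
    q ∈ im H A ↔ ∃ a ∈ A, QuotientAddGroup.mk' H a = q := by
  simp [im]

lemma mem_fc {A : Finset G} {q : G ⧸ H} {x : G} :
    x ∈ fc H A q ↔ x ∈ A ∧ QuotientAddGroup.mk' H x = q := by
  simp [fc]

omit [Fintype G] [DecidableEq G] [DecidableEq (G ⧸ H)] in
lemma exists_rep (q : G ⧸ H) : ∃ g : G, QuotientAddGroup.mk' H g = q :=
  QuotientAddGroup.mk'_surjective H q

lemma fc_card_le (A : Finset G) (q : G ⧸ H) : (fc H A q).card ≤ Nat.card H := by
  obtain ⟨g, rfl⟩ := exists_rep q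
  rw [← cos_card H g]
  apply card_le_card
  intro x hx
  exact mem_cos.2 (mk_eq_iff.1 (mem_fc.1 hx).2)

lemma fc_pos {A : Finset G} {q : G ⧸ H} (h : q ∈ im H A) : 1 ≤ (fc H A q).card := by
  obtain ⟨a, ha, rfl⟩ := mem_im.1 h
  exact card_pos.2 ⟨a, mem_fc.2 ⟨ha, rfl⟩⟩

lemma sum_fc (A : Finset G) : ∑ q ∈ im H A, (fc H A q).card = A.card := by
  symm
  apply Finset.card_eq_sum_card_fiberwise
  intro x hx
  exact mem_im.2 ⟨x, hx, rfl⟩

omit [DecidableEq (G ⧸ H)] in
lemma pigeon {X Y : Finset G} {x y : G ⧸ H} (hX : ∀ a ∈ X, QuotientAddGroup.mk' H a = x)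
    (hY : ∀ a ∈ Y, QuotientAddGroup.mk' H a = y) {z : G}
    (hz : QuotientAddGroup.mk' H z = x + y) (hc : Nat.card H < X.card + Y.card) :
    ∃ a ∈ X, ∃ b ∈ Y, a + b = z := by
  obtain ⟨x', rfl⟩ := exists_rep x
  obtain ⟨y', rfl⟩ := exists_rep y
  refine exists_add_eq (H := H) (x := x') (y := y') ?_ ?_ ?_ hc
  · intro a ha
    exact mem_cos.2 (mk_eq_iff.1 (hX a ha))
  · intro a ha
    exact mem_cos.2 (mk_eq_iff.1 (hY a ha))
  · rw [← map_add] at hz
    exact mk_eq_iff.1 hz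

omit [DecidableEq (G ⧸ H)] in
lemma pigeon' {X Y : Finset G} {x y : G ⧸ H} (hX : ∀ a ∈ X, QuotientAddGroup.mk' H a = x)
    (hY : ∀ a ∈ Y, QuotientAddGroup.mk' H a = y) {z : G}
    (hz : QuotientAddGroup.mk' H z + x = y) (hc : Nat.card H < X.card + Y.card) :
    ∃ a ∈ X, ∃ b ∈ Y, z + a = b := by
  obtain ⟨a, ha, b, hb, hab⟩ := pigeon (H := H) (X := X) (Y := -Y) (x := x) (y := -y) (z := -z) hX
    (by
      intro a ha
      rw [Finset.mem_neg'] at ha
      have := hY _ ha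
      rw [map_neg] at this
      rw [← this, neg_neg])
    (by rw [map_neg, ← hz]; abel) (by rwa [card_neg])
  rw [Finset.mem_neg'] at hb
  refine ⟨a, ha, -b, hb, ?_⟩
  have : z = -(a + b) := by rw [hab, neg_neg]
  rw [this]; abel

omit [Fintype G] [DecidableEq G] [DecidableEq (G ⧸ H)] in
lemma ne_of_mk_ne {x y : G} (h : QuotientAddGroup.mk' H x ≠ QuotientAddGroup.mk' H y) : x ≠ y := by
  rintro rfl; exact h rfl

lemma tr3 {A : Finset G} (hw : Wsf A) {x y z : G ⧸ H} (hx : x ∈ im H A) (hy : y ∈ im H A)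
    (hz : z ∈ im H A) (hd : x + y + z ∈ im H A) (hxy : x ≠ y) (hxz : x ≠ z) (hyz : y ≠ z) :
    (fc H A x).card + (fc H A y).card ≤ Nat.card H ∧
      (fc H A z).card + (fc H A (x + y + z)).card ≤ Nat.card H := by
  obtain ⟨a, ha, rfl⟩ := mem_im.1 hx
  obtain ⟨b, hb, rfl⟩ := mem_im.1 hy
  obtain ⟨c, hc, rfl⟩ := mem_im.1 hz
  obtain ⟨d, hd, hd2⟩ := mem_im.1 hd
  constructor
  · by_contra hcon
    push Not at hcon
    obtain ⟨a', ha', b', hb', hab⟩ := pigeon (H := H) (z := d - c)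
      (fun a ha => (mem_fc.1 ha).2) (fun a ha => (mem_fc.1 ha).2)
      (by rw [map_sub, hd2]; abel) hcon
    rw [mem_fc] at ha' hb'
    apply hw a' ha'.1 b' hb'.1 c hc
    · apply ne_of_mk_ne (H := H); rw [ha'.2, hb'.2]; exact hxy
    · apply ne_of_mk_ne (H := H); rw [ha'.2]; exact hxz
    · apply ne_of_mk_ne (H := H); rw [hb'.2]; exact hyz
    · rw [hab, sub_add_cancel]; exact hd
  · by_contra hcon
    push Not at hcon
    obtain ⟨c', hc', d', hd', hcd⟩ := pigeon' (H := H) (z := a + b)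
      (fun a ha => (mem_fc.1 ha).2) (fun a ha => (mem_fc.1 ha).2)
      (by rw [map_add]) hcon
    rw [mem_fc] at hc' hd'
    apply hw a ha b hb c' hc'.1
    · apply ne_of_mk_ne (H := H); exact hxy
    · apply ne_of_mk_ne (H := H); rw [hc'.2]; exact hxz
    · apply ne_of_mk_ne (H := H); rw [hc'.2]; exact hyz
    · rw [hcd]; exact hd'.1

lemma trD2 {A : Finset G} (hw : Wsf A) : ∀ γ ∈ im H A, ∀ a ∈ im H A, ∀ b ∈ im H A, γ ≠ a →
    2 ≤ (fc H A γ).card → γ + γ + a = b → (fc H A a).card + (fc H A b).card ≤ Nat.card H := by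
  intro γ _ a _ b _ hne h2 he
  by_contra hcon
  push Not at hcon
  obtain ⟨p, hp, q, hq, hpq⟩ := Finset.one_lt_card.1 (by omega : 1 < (fc H A γ).card)
  rw [mem_fc] at hp hq
  obtain ⟨c', hc', d', hd', hcd⟩ := pigeon' (H := H) (z := p + q)
      (fun a ha => (mem_fc.1 ha).2) (fun a ha => (mem_fc.1 ha).2)
      (by rw [map_add, hp.2, hq.2]; exact he) hcon
  rw [mem_fc] at hc' hd'
  apply hw p hp.1 q hq.1 c' hc'.1 hpq
  · apply ne_of_mk_ne (H := H); rw [hp.2, hc'.2]; exact hne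
  · apply ne_of_mk_ne (H := H); rw [hq.2, hc'.2]; exact hne
  · rw [hcd]; exact hd'.1

lemma trD1 (hG : OneInv G) {A : Finset G} (hw : Wsf A) : ∀ γ ∈ im H A, ∀ a ∈ im H A,
    ∀ b ∈ im H A, γ ≠ a →
    3 ≤ (fc H A γ).card → γ + γ + a = b → (fc H A γ).card + (fc H A a).card ≤ Nat.card H ∧
      (fc H A γ).card + (fc H A b).card ≤ Nat.card H := by
  intro γ hγ a ha b hb hne h3 he
  have hr := rs2_card hG h3
  have hrm : ∀ s ∈ rs2 (fc H A γ), QuotientAddGroup.mk' H s = γ + γ := by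
    intro s hs
    obtain ⟨p, hp, q, hq, -, rfl⟩ := mem_rs2.1 hs
    rw [map_add, (mem_fc.1 hp).2, (mem_fc.1 hq).2]
  obtain ⟨a0, ha0, ha1⟩ := mem_im.1 ha
  obtain ⟨b0, hb0, hb1⟩ := mem_im.1 hb
  constructor
  · by_contra hcon
    push Not at hcon
    obtain ⟨s, hs, c', hc', hcd⟩ := pigeon (H := H) (z := b0) hrm
      (fun a ha => (mem_fc.1 ha).2) (by rw [hb1]; exact he.symm)
      (lt_of_lt_of_le hcon (Nat.add_le_add_right hr _))
    obtain ⟨p, hp, q, hq, hpq, rfl⟩ := mem_rs2.1 hs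
    rw [mem_fc] at hc' hp hq
    apply hw p hp.1 q hq.1 c' hc'.1 hpq
    · apply ne_of_mk_ne (H := H); rw [hp.2, hc'.2]; exact hne
    · apply ne_of_mk_ne (H := H); rw [hq.2, hc'.2]; exact hne
    · rw [hcd]; exact hb0
  · by_contra hcon
    push Not at hcon
    obtain ⟨s, hs, d', hd', hcd⟩ := pigeon' (H := H) (z := a0) hrm
      (fun a ha => (mem_fc.1 ha).2) (by rw [ha1, add_comm]; exact he)
      (lt_of_lt_of_le hcon (Nat.add_le_add_right hr _))
    obtain ⟨p, hp, q, hq, hpq, rfl⟩ := mem_rs2.1 hs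
    rw [mem_fc] at hd' hp hq
    apply hw p hp.1 q hq.1 a0 ha0 hpq
    · apply ne_of_mk_ne (H := H); rw [hp.2, ha1]; exact hne
    · apply ne_of_mk_ne (H := H); rw [hq.2, ha1]; exact hne
    · rw [add_comm (p + q), hcd]; exact hd'.1

/-- triple of one coset -/
lemma trU {A : Finset G} (hw : Wsf A) {γ : G ⧸ H} (hd : γ + γ + γ ∈ im H A)
    (h4 : 4 ≤ (fc H A γ).card) :
    (fc H A γ).card + (fc H A (γ + γ + γ)).card ≤ Nat.card H + 1 := by
  by_contra hcon
  push Not at hcon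
  have hr := rs3_card h4
  have hrm : ∀ s ∈ rs3 (fc H A γ), QuotientAddGroup.mk' H s = γ + γ + γ := by
    intro s hs
    obtain ⟨p, hp, q, hq, r, hr, -, -, -, rfl⟩ := mem_rs3.1 hs
    rw [map_add, map_add, (mem_fc.1 hp).2, (mem_fc.1 hq).2, (mem_fc.1 hr).2]
  obtain ⟨s, hs, d', hd', hcd⟩ := pigeon' (H := H) (z := 0) hrm
      (fun a ha => (mem_fc.1 ha).2) (by rw [map_zero, zero_add])
      (by omega : Nat.card H < (rs3 (fc H A γ)).card + (fc H A (γ + γ + γ)).card)
  rw [zero_add] at hcd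
  subst hcd
  obtain ⟨p, hp, q, hq, r, hr, hpq, hpr, hqr, rfl⟩ := mem_rs3.1 hs
  exact hw p (mem_fc.1 hp).1 q (mem_fc.1 hq).1 r (mem_fc.1 hr).1 hpq hpr hqr (mem_fc.1 hd').1

/-- the case of a subgroup of order two -/
lemma trD3 (hG : OneInv G) {A : Finset G} (hw : Wsf A) (h2 : Nat.card H = 2) :
    ∀ x ∈ im H A, ∀ x' ∈ im H A, ∀ a ∈ im H A, ∀ b ∈ im H A,
    (fc H A x).card = 2 → (fc H A x').card = 2 → (fc H A a).card = 1 → (fc H A b).card = 1 →
      x + x + a = b → x' + x' + b = a → x + x' = 0 := by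
  -- the non-zero element of `H`
  obtain ⟨t, htH, ht0⟩ : ∃ t ∈ H, t ≠ 0 := by
    by_contra hall
    push Not at hall
    have : H = ⊥ := by
      rw [AddSubgroup.eq_bot_iff_forall]; exact hall
    rw [this, card_bot'] at h2
    omega
  have hH : ∀ y ∈ H, y = 0 ∨ y = t := by
    intro y hy
    by_contra hcon
    push Not at hcon
    have hc : (cos H 0).card = 2 := by rw [cos_card, h2]
    have h3 : ({0, t, y} : Finset G).card ≤ (cos H 0).card := by
      apply card_le_card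
      intro z hz
      simp only [mem_insert, mem_singleton] at hz
      rw [mem_cos, sub_zero]
      rcases hz with rfl | rfl | rfl
      · exact H.zero_mem
      · exact htH
      · exact hy
    have n1 : t ∉ ({y} : Finset G) := by
      rw [mem_singleton]; exact Ne.symm hcon.2
    have n2 : (0 : G) ∉ ({t, y} : Finset G) := by
      simp only [mem_insert, mem_singleton, not_or]
      exact ⟨Ne.symm ht0, Ne.symm hcon.1⟩
    rw [card_insert_of_notMem n2, card_insert_of_notMem n1, card_singleton] at h3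
    omega
  have htt : t + t = 0 := by
    rcases hH (t + t) (H.add_mem htH htH) with h | h
    · exact h
    · exact absurd (add_eq_left.1 h) ht0
  have key : ∀ x a b : G ⧸ H, x ≠ a → (fc H A x).card = 2 → ∀ p ∈ fc H A x, ∀ y ∈ fc H A a,
      ∀ z ∈ fc H A b, x + x + a = b → z = p + p + y := by
    intro x a b hxa hx p hp y hy z hz he
    have hz' := hz
    rw [mem_fc] at hp hy hz
    have h1 : z - (p + p + y) ∈ H := by
      apply mk_eq_iff.1
      rw [map_add, map_add, hp.2, hy.2, hz.2, he]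
    -- p + t in A
    have h3 : p + t ∈ A := by
      obtain ⟨q, hq, hqp⟩ : ∃ q ∈ fc H A x, q ≠ p := by
        by_contra hall
        push Not at hall
        have : (fc H A x).card ≤ 1 := by
          rw [card_le_one]
          intro c hc d hd
          rw [hall c hc, hall d hd]
        omega
      rw [mem_fc] at hq
      have h4 : q - p ∈ H := mk_eq_iff.1 (by rw [hq.2, hp.2])
      rcases hH _ h4 with h5 | h5
      · exact absurd (sub_eq_zero.1 h5) hqp
      · rw [← h5]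
        have : p + (q - p) = q := by abel
        rw [this]; exact hq.1
    rcases hH _ h1 with h | h
    · exact sub_eq_zero.1 h
    · exfalso
      apply hw p hp.1 (p + t) h3 y hy.1
      · intro h5
        exact ht0 (left_eq_add.1 h5)
      · apply ne_of_mk_ne (H := H); rw [hp.2, hy.2]; exact hxa
      · intro h5
        apply hxa
        rw [← hp.2, ← hy.2, ← h5]
        apply mk_eq_iff.2
        have : p - (p + t) = -t := by abel
        rw [this]; exact H.neg_mem htH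
      · have : p + (p + t) + y = z := by
          rw [← h]; abel
        rw [this]; exact hz.1
  intro x hx x' hx' a ha b hb fx fx' fa fb e1 e2
  obtain ⟨p, hp, hp'⟩ := mem_im.1 hx
  obtain ⟨q, hq, hq'⟩ := mem_im.1 hx'
  obtain ⟨y, hy, hy'⟩ := mem_im.1 ha
  obtain ⟨z, hz, hz'⟩ := mem_im.1 hb
  have nxa : x ≠ a := by rintro rfl; omega
  have nxb : x' ≠ b := by rintro rfl; omega
  have k1 := key x a b nxa fx p (mem_fc.2 ⟨hp, hp'⟩) y (mem_fc.2 ⟨hy, hy'⟩) z
    (mem_fc.2 ⟨hz, hz'⟩) e1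
  have k2 := key x' b a nxb fx' q (mem_fc.2 ⟨hq, hq'⟩) z (mem_fc.2 ⟨hz, hz'⟩) y
    (mem_fc.2 ⟨hy, hy'⟩) e2
  have k3 : (p + q) + (p + q) = 0 := by
    have : z = (p + q) + (p + q) + z := by
      nth_rw 1 [k1]
      nth_rw 1 [k2]
      abel
    exact add_eq_right.1 this.symm
  rw [← hp', ← hq', ← map_add]
  have k4 : p + q ∈ H := by
    by_cases h : p + q = 0
    · rw [h]; exact H.zero_mem
    · rw [hG _ _ k3 htt h ht0]; exact htH
  exact (QuotientAddGroup.eq_zero_iff _).2 k4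

end
end Pool.Agent.WSF
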